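import Pool.Agent.Lib.ALLG.Defs
import Pool.Agent.Lib.ALLZO.Perron

/-!
# TANK G, TRACK L (limit level): common definitions

`LF k v r D`: limit frames = the frames of `ALLG` without the field `alg`, with `Γ = 0` (`r = 0`)
allowed.  `Lim v P S`: the limit ring (not normalised) of the model `P` with the labels `S` at the
centre of `v`; its normalisation in a field `E` is `ICl v (Lim v P S) E`.
-/

set_option autoImplicit false

namespace Pool.Agent.TGL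

open Pool.Agent.TAO (OVal VPos Ctx0)
open Pool.Agent.LU1 (FracIs fixO)
open Pool.Agent.ALLO (locv icl ICl decP)
open Pool.Agent.ALLZO (GoodBasis)

universe u w

section

variable {k Ω : Type u} [Field k] [Field Ω] [Algebra k Ω]
  {𝕂 : Type w} [Field 𝕂] [LinearOrder 𝕂] [IsStrictOrderedRing 𝕂]

/-- A limit frame of rank `r` (`r = 0` allowed) with `D` free parameters. `χ` matters only on
`Γ`. -/
structure LF (k : Type u) {Ω : Type u} [Field k] [Field Ω] [Algebra k Ω] {𝕂 : Type w} [Field 𝕂]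
    [LinearOrder 𝕂] [IsStrictOrderedRing 𝕂] (v : OVal 𝕂 Ω) (r D : ℕ) where
  /-- the group of exponents -/
  Γ : AddSubgroup 𝕂
  fg : Γ.FG
  rk : ∃ X : Fin r → 𝕂, LinearIndependent ℚ X ∧ (∀ i, X i ∈ Γ) ∧
    ∀ γ ∈ Γ, γ ∈ Submodule.span ℚ (Set.range X)
  /-- the monomials -/
  χ : 𝕂 → Ω
  χ_ne : ∀ γ ∈ Γ, χ γ ≠ 0
  χ_add : ∀ γ ∈ Γ, ∀ δ ∈ Γ, χ (γ + δ) = χ γ * χ δ
  χ_val : ∀ γ ∈ Γ, v (χ γ) = γ
  /-- the free parameters -/
  y : Fin D → Ω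
  y_ne : ∀ i, y i ≠ 0
  y_pos : ∀ i, 0 < v (y i)
  /-- the ring -/
  R : Subalgebra k Ω
  nonneg : ∀ f ∈ R, v.Ge 0 f
  loc : ∀ f ∈ R, f ≠ 0 → v f = 0 → f⁻¹ ∈ R
  χ_mem : ∀ γ ∈ Γ, 0 ≤ γ → χ γ ∈ R
  y_mem : ∀ i, y i ∈ R
  fgen : ∃ F : Finset Ω, R = locv v (Algebra.adjoin k ((F : Set Ω) ∪ χ '' {γ | γ ∈ Γ ∧ 0 ≤ γ}))
  gen : ∀ f ∈ R, VPos v f → ∃ γ ∈ Γ, ∃ a ∈ R, (0 < γ ∨ a = 0) ∧ ∃ b : Fin D → Ω,
    (∀ i, b i ∈ R) ∧ f = χ γ * a + ∑ i, y i * b i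

variable {v : OVal 𝕂 Ω} {r D : ℕ}

/-- `f` is a unit of the ring. -/
def LF.Un (B : LF k v r D) (f : Ω) : Prop := f ∈ B.R ∧ f ≠ 0 ∧ v f = 0

/-- `f` is a monomial times a unit. -/
def LF.Mono (B : LF k v r D) (f : Ω) : Prop := f ≠ 0 ∧ v f ∈ B.Γ ∧ B.Un (f / B.χ (v f))

/-- `f` is in the ideal `(χ(> 0))` of the ring (the ideal `0` if `Γ = 0`). -/
def LF.Hi (B : LF k v r D) (f : Ω) : Prop :=
  ∃ γ ∈ B.Γ, ∃ a ∈ B.R, (0 < γ ∨ a = 0) ∧ f = B.χ γ * a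

/-- `f` is in `A[1 / χ]`. -/
def LF.InX (B : LF k v r D) (A : Subalgebra k Ω) (f : Ω) : Prop := ∃ γ ∈ B.Γ, B.χ γ * f ∈ A

/-- `f` is a unit of `A[1 / χ]`. -/
def LF.UnX (B : LF k v r D) (A : Subalgebra k Ω) (f : Ω) : Prop :=
  f ≠ 0 ∧ B.InX A f ∧ B.InX A f⁻¹

/-- The frame `C` extends the frame `B`: `Γ` of finite index in `Γ_C`, the monomials agree up to
units of `C.R`, the free parameters are the same. -/
structure LF.Ext (B C : LF k v r D) : Prop where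
  Γ_le : ∀ γ ∈ B.Γ, γ ∈ C.Γ
  χ_un : ∀ γ ∈ B.Γ, C.Un (B.χ γ / C.χ γ)
  y_eq : C.y = B.y
  le : B.R ≤ C.R
  tors : ∀ γ ∈ C.Γ, ∃ e : ℕ, 0 < e ∧ (e : 𝕂) * γ ∈ B.Γ

/-- The monomials `x^i y^α`, `0 ≤ i, α < p`. -/
def mon {A : Type*} [CommMonoid A] {r D p : ℕ} (x : Fin r → A) (y : Fin D → A)
    (μ : (Fin r → Fin p) × (Fin D → Fin p)) : A :=
  (∏ i, x i ^ (μ.1 i : ℕ)) * ∏ j, y j ^ (μ.2 j : ℕ)

/-- `A[1 / χ]` has `p`-coordinates with respect to the parameters of the frame `B`. -/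
def LF.Coord (B : LF k v r D) (p : ℕ) (A : Subalgebra k Ω) : Prop :=
  ∀ u : Fin r → 𝕂, GoodBasis B.Γ ∅ u → ∀ a ∈ A,
    ∃ c : (Fin r → Fin p) × (Fin D → Fin p) → Ω, (∀ μ, B.InX A (c μ)) ∧
      a = ∑ μ, mon (fun i => B.χ (u i)) B.y μ * c μ ^ p

/-! ### Models and limit rings -/

/-- `f` is a nonzero element of `P` of minimal value. -/
structure OMin (v : OVal 𝕂 Ω) (P : Submodule k Ω) (f : Ω) : Prop where
  mem : f ∈ P
  ne : f ≠ 0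
  div : ∀ g ∈ P, v.Ge 0 (g / f)

/-- The group of monomials in the labels. -/
def Mo (S : Set Ω) : Subgroup Ωˣ := Subgroup.closure {u : Ωˣ | (u : Ω) ∈ S}

/-- The limit ring of the model `P` with the labels `S`: the local ring at the centre of `v` of
the algebra generated by the ratios `g / f` (`f, g ∈ P`, `f` minimal) and by all monomials in the
labels of value `≥ 0`. -/
def Lim (v : OVal 𝕂 Ω) (P : Submodule k Ω) (S : Set Ω) : Subalgebra k Ω :=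
  locv v (Algebra.adjoin k ({x | ∃ f g, OMin v P f ∧ g ∈ P ∧ x = g / f} ∪
    {x | ∃ m ∈ Mo S, v.Ge 0 (m : Ω) ∧ x = (m : Ω)}))

/-- All monomials of the frame have a power which is a monomial in the labels, up to units. -/
def LF.Tors (B : LF k v r D) (S : Set Ω) : Prop :=
  ∃ e : ℕ, 0 < e ∧ ∀ γ ∈ B.Γ, ∃ m ∈ Mo S, B.Un ((m : Ω) / B.χ (e * γ))

/-- All labels are monomials. -/
def LF.Lab (B : LF k v r D) (S : Set Ω) : Prop := ∀ s ∈ S, B.Mono s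

/-! ### Comparison with the frames of `ALLG` -/

/-- A frame is a limit frame. -/
def LF.ofFR (F : ALLG.FR k v r D) : LF k v r D where
  Γ := F.Γ
  fg := F.fg
  rk := F.rk
  χ := F.χ
  χ_ne := F.χ_ne
  χ_add := F.χ_add
  χ_val := F.χ_val
  y := F.y
  y_ne := F.y_ne
  y_pos := F.y_pos
  R := F.R
  nonneg := F.nonneg
  loc := F.loc
  χ_mem := F.χ_mem
  y_mem := F.y_mem
  fgen := F.fgen
  gen := fun f hf h0 => by
    obtain ⟨γ, hγ, h1, a, ha, b, hb, e⟩ := F.gen f hf h0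
    exact ⟨γ, hγ, a, ha, Or.inl h1, b, hb, e⟩

theorem LF.exists_pos (B : LF k v r D) (hr : 0 < r) : ∃ γ ∈ B.Γ, 0 < γ := by
  obtain ⟨u, hu⟩ := ALLZO.perron B.Γ B.fg B.rk ∅ (by simp)
  exact ⟨u ⟨0, hr⟩, hu.mem _, hu.pos _⟩

/-- A limit frame with `Γ ≠ 0` in a field algebraic over its ring is a frame. -/
def LF.toFR (B : LF k v r D) (hr : 0 < r) (halg : ∀ g : Ω, IsAlgebraic B.R g) :
    ALLG.FR k v r D where
  Γ := B.Γ
  fg := B.fg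
  rk := B.rk
  χ := B.χ
  χ_ne := B.χ_ne
  χ_add := B.χ_add
  χ_val := B.χ_val
  y := B.y
  y_ne := B.y_ne
  y_pos := B.y_pos
  R := B.R
  nonneg := B.nonneg
  loc := B.loc
  χ_mem := B.χ_mem
  y_mem := B.y_mem
  fgen := B.fgen
  gen := fun f hf h0 => by
    obtain ⟨γ, hγ, a, ha, h1, b, hb, e⟩ := B.gen f hf h0
    rcases h1 with h1 | h1
    · exact ⟨γ, hγ, h1, a, ha, b, hb, e⟩
    · obtain ⟨δ, hδ, h2⟩ := B.exists_pos hr
      exact ⟨δ, hδ, h2, 0, B.R.zero_mem, b, hb, by rw [e, h1, mul_zero, mul_zero]⟩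
  alg := halg

end

end Pool.Agent.TGL
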