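import Pool.Agent.Lib.TGL.Conv1
import Pool.Agent.Lib.TGL.Defs
import Pool.Agent.Lib.TGA_h75.LF

/-!
# TANK G, track L, row CONV: the limit rings of a model
-/

set_option autoImplicit false

namespace Pool.Agent.TGL

open Pool.Agent.LU2 (locV locV_mono locV_le locV_inv le_locV)
open Pool.Agent.TG (Ov ZDim IsMin ch chN ncl RV NV IsModel rat LR UnR locV_ncl_locV mon_add mon_neg
  mon_zero mon_single)
open Pool.Agent.TAO (OVal VPos Ctx0 CtxR)
open Pool.Agent.ALLO (locv icl ICl)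

universe u w

section

variable {k K Ω : Type u} [Field k] [Field K] [Field Ω] [Algebra k K] [Algebra k Ω]
  {𝕂 : Type w} [Field 𝕂] [LinearOrder 𝕂] [IsStrictOrderedRing 𝕂]
  {V : ValuationSubring K} {ι : K →ₐ[k] Ω} {w : OVal 𝕂 Ω}

theorem omin_map (h : Cmp V ι w) {P : Submodule k K} {f : K} :
    OMin w (P.map ι.toLinearMap) (ι f) ↔ IsMin V P f := by
  constructor
  · rintro ⟨⟨f', hf', hff⟩, hne, hdiv⟩
    have e : f' = f := ι_inj (ι := ι) hff
    subst e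
    refine ⟨hf', ?_, fun g hg => ?_⟩
    · rintro rfl
      exact hne (map_zero ι)
    · rw [h.mem_iff, map_div₀]
      exact hdiv _ ⟨g, hg, rfl⟩
  · rintro ⟨hf, hne, hdiv⟩
    refine ⟨⟨f, hf, rfl⟩, ι_ne hne, ?_⟩
    rintro _ ⟨g, hg, rfl⟩
    have h1 := (h.mem_iff _).1 (hdiv g hg)
    rwa [map_div₀] at h1

theorem exists_of_omin (h : Cmp V ι w) {P : Submodule k K} {x : Ω}
    (hx : OMin w (P.map ι.toLinearMap) x) : ∃ f, ι f = x ∧ IsMin V P f := by
  obtain ⟨f, hf, rfl⟩ := hx.mem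
  exact ⟨f, rfl, (omin_map h).1 hx⟩

theorem mem_Mo_iff {J : Type} [Fintype J] {S : J → K} (hS : ∀ j, S j ≠ 0) (u : Ωˣ) :
    u ∈ Mo (Set.range fun j => ι (S j)) ↔ ∃ a : J → ℤ, (u : Ω) = ι (Pool.Agent.TG.mon S a) := by
  classical
  constructor
  · intro hu
    induction hu using Subgroup.closure_induction with
    | mem x hx =>
      obtain ⟨j, hj⟩ := hx
      exact ⟨Pi.single j 1, by rw [mon_single]; exact hj.symm⟩
    | one => exact ⟨0, by rw [mon_zero, map_one]; rfl⟩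
    | mul x y _ _ hx hy =>
      obtain ⟨a, ha⟩ := hx
      obtain ⟨b, hb⟩ := hy
      exact ⟨a + b, by rw [mon_add hS, map_mul, Units.val_mul, ha, hb]⟩
    | inv x _ hx =>
      obtain ⟨a, ha⟩ := hx
      exact ⟨-a, by rw [mon_neg, map_inv₀, ← ha, Units.val_inv_eq_inv_val]⟩
  · rintro ⟨a, ha⟩
    have e : u = ∏ j, Units.mk0 (ι (S j)) (ι_ne (hS j)) ^ a j := by
      ext
      rw [ha, Pool.Agent.TG.mon, map_prod, Units.coe_prod]
      refine Finset.prod_congr rfl fun j _ => ?_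
      rw [map_zpow₀, Units.val_zpow_eq_zpow_val, Units.val_mk0]
    rw [e]
    refine Subgroup.prod_mem _ fun j _ => Subgroup.zpow_mem _ (Subgroup.subset_closure ?_) _
    exact ⟨j, rfl⟩

theorem locV_adjoin_RV (P : Submodule k K) (M : Set K) :
    locV V (Algebra.adjoin k ((RV V P : Set K) ∪ M)) =
      locV V (Algebra.adjoin k ({x | ∃ f g, IsMin V P f ∧ g ∈ P ∧ x = g / f} ∪ M)) := by
  have h0 : rat V P ≤
      Algebra.adjoin k ({x | ∃ f g, IsMin V P f ∧ g ∈ P ∧ x = g / f} ∪ M) :=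
    Algebra.adjoin_mono Set.subset_union_left
  refine le_antisymm (locV_le (Algebra.adjoin_le ?_) fun _ hf h1 => locV_inv hf h1)
    (locV_mono (Algebra.adjoin_mono (Set.union_subset_union_left _ ?_)))
  · rintro x (hx | hx)
    · exact locV_mono h0 hx
    · exact le_locV _ (Algebra.subset_adjoin (Or.inr hx))
  · exact fun x hx => le_locV (V := V) (rat V P) (Algebra.subset_adjoin hx)

/-- The limit ring upstairs. -/
theorem map_Lim (h : Cmp V ι w) (P : Submodule k K) {J : Type} [Fintype J] {S : J → K}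
    (hS : ∀ j, S j ≠ 0) :
    (locV V (Algebra.adjoin k ((RV V P : Set K) ∪
      {z | z ∈ V ∧ ∃ a : J → ℤ, z = Pool.Agent.TG.mon S a}))).map ι =
      Lim w (P.map ι.toLinearMap) (Set.range fun j => ι (S j)) := by
  rw [locV_adjoin_RV, h.map_locV, AlgHom.map_adjoin, Lim, Set.image_union]
  congr 3
  · ext x
    constructor
    · rintro ⟨_, ⟨f, g, hf, hg, rfl⟩, rfl⟩
      exact ⟨ι f, ι g, (omin_map h).2 hf, ⟨g, hg, rfl⟩, map_div₀ ι g f⟩
    · rintro ⟨f, g, hf, ⟨g', hg', rfl⟩, rfl⟩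
      obtain ⟨f', rfl, hf'⟩ := exists_of_omin h hf
      exact ⟨g' / f', ⟨f', g', hf', hg', rfl⟩, map_div₀ ι g' f'⟩
  · ext x
    constructor
    · rintro ⟨z, ⟨hz, a, rfl⟩, rfl⟩
      refine ⟨Units.mk0 (ι (Pool.Agent.TG.mon S a)) (ι_ne (Pool.Agent.TG.mon_ne_zero hS a)),
        (mem_Mo_iff hS _).2 ⟨a, rfl⟩, ?_, rfl⟩
      exact (h.mem_iff _).1 hz
    · rintro ⟨m, hm, hm0, rfl⟩
      obtain ⟨a, ha⟩ := (mem_Mo_iff hS m).1 hm
      refine ⟨Pool.Agent.TG.mon S a, ⟨(h.mem_iff _).2 (ha ▸ hm0), a, rfl⟩, ha.symm⟩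

/-- The normalised limit ring upstairs. -/
theorem map_LR (h : Cmp V ι w) (P : Submodule k K) {J : Type} [Fintype J] {S : J → K}
    (hS : ∀ j, S j ≠ 0) :
    (LR V P S).map ι =
      ICl w (Lim w (P.map ι.toLinearMap) (Set.range fun j => ι (S j))) ι.fieldRange := by
  rw [← map_Lim h P hS, ← map_locV_ncl h, locV_ncl_locV]
  rfl

theorem unR_iff (h : Cmp V ι w) {R : Subalgebra k K} {f : K} :
    UnR V R f ↔ ι f ∈ R.map ι ∧ ι f ≠ 0 ∧ w (ι f) = 0 := by
  constructor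
  · rintro ⟨h1, h2⟩
    have hf : f ≠ 0 := by
      rintro rfl
      rw [map_zero] at h2
      exact zero_ne_one h2
    exact ⟨mem_map_iff.2 h1, ι_ne hf, (h.one_iff hf).1 h2⟩
  · rintro ⟨h1, h2, h3⟩
    have hf : f ≠ 0 := by
      rintro rfl
      exact h2 (map_zero ι)
    exact ⟨mem_map_iff.1 h1, (h.one_iff hf).2 h3⟩

theorem LF.un_iff (h : Cmp V ι w) {r D : ℕ} (B : LF k w r D) {R : Subalgebra k K}
    (hR : B.R = R.map ι) {f : K} : B.Un (ι f) ↔ UnR V R f := by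
  rw [unR_iff h, LF.Un, hR]

/-- The elements of the ring of a limit frame with `B.R = R.map ι` come from `R`. -/
theorem LF.exists_preimage {r D : ℕ} (B : LF k w r D) {R : Subalgebra k K}
    (hR : B.R = R.map ι) {x : Ω} (hx : x ∈ B.R) : ∃ f ∈ R, ι f = x := by
  rw [hR] at hx
  obtain ⟨f, hf, rfl⟩ := hx
  exact ⟨f, hf, rfl⟩

/-- The monomials of a limit frame with `B.R = R.map ι` come from `K`. -/
theorem LF.exists_preimage_χ {r D : ℕ} (B : LF k w r D) {R : Subalgebra k K}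
    (hR : B.R = R.map ι) {γ : 𝕂} (hγ : γ ∈ B.Γ) : ∃ f : K, f ≠ 0 ∧ ι f = B.χ γ := by
  rcases le_total 0 γ with h0 | h0
  · obtain ⟨f, -, hf⟩ := B.exists_preimage hR (B.χ_mem γ hγ h0)
    refine ⟨f, ?_, hf⟩
    rintro rfl
    rw [map_zero] at hf
    exact B.χ_ne γ hγ hf.symm
  · have hneg : -γ ∈ B.Γ := B.Γ.neg_mem hγ
    obtain ⟨f, -, hf⟩ := B.exists_preimage hR (B.χ_mem (-γ) hneg (by linarith))
    have h1 : B.χ γ * B.χ (-γ) = 1 := by
      have h2 := B.χ_add 0 B.Γ.zero_mem 0 B.Γ.zero_mem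
      rw [add_zero] at h2
      have h3 := B.χ_ne 0 B.Γ.zero_mem
      have h4 : B.χ 0 = 1 := by
        have h5 := mul_left_cancel₀ h3 (h2.symm.trans (mul_one _).symm)
        exact h5
      rw [← B.χ_add γ hγ (-γ) hneg, add_neg_cancel, h4]
    refine ⟨f⁻¹, ?_, ?_⟩
    · apply inv_ne_zero
      rintro rfl
      rw [map_zero] at hf
      exact B.χ_ne _ hneg hf.symm
    · rw [map_inv₀, hf]
      exact inv_eq_of_mul_eq_one_left h1

end

end Pool.Agent.TGL
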