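import Pool.Agent.Lib.TGL.GL
import Pool.Agent.Lib.TGL_h70.Conv4
import Pool.Agent.Lib.TG_h81.Proj

/-!
# TANK G, TRACK L: exit

From the statement `GLO` of the induction (over `OVal`) to `TG.GLim`, and the induction itself.
-/

set_option autoImplicit false

namespace Pool.Agent.TGL

open Pool.Agent.TAO (OVal Ctx0 CtxR)
open Pool.Agent.TG (ProjStmt GLim)

universe u

/-- The limit statement in terms of valuation rings. -/
theorem glim_of_glo (k : Type u) [Field k] [IsAlgClosed k] (n : ℕ) (h : GLO k n) : GLim k n := by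
  classical
  rcases Nat.eq_zero_or_pos n with rfl | hn
  · exact Pool.Agent.TGLh70.glim_zero k
  intro K _ _ hfg htr Z hZ
  obtain ⟨P, S, hP, hfin, hS, hv⟩ := h K hfg htr Z hZ
  obtain ⟨T, hT⟩ : ∃ T : Fin S.card → K, Set.range T = (S : Set K) := by
    refine ⟨fun j => (S.equivFin.symm j : K), ?_⟩
    ext x
    constructor
    · rintro ⟨j, rfl⟩
      exact (S.equivFin.symm j).2
    · intro hx
      exact ⟨S.equivFin ⟨x, hx⟩, by simp⟩
  have hT0 : ∀ j, T j ≠ 0 := fun j => hS _ (by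
    have h1 : T j ∈ (S : Set K) := by
      rw [← hT]
      exact ⟨j, rfl⟩
    exact h1)
  refine ⟨P, S.card, T, hP, hfin, hT0, fun V hV => ?_⟩
  refine Pool.Agent.TGLh70.exists_LF_of htr hn hT0 (fun 𝕂 _ _ _ w r₀ _ _ hw => ?_) V hV
  obtain ⟨r, D, C, hrD, hR, -, ht, hl, hz⟩ :=
    hv (AlgebraicClosure K) (IsScalarTower.toAlgHom k K (AlgebraicClosure K)) 𝕂 w n hw.toCtx0
  have hrange : (Set.range fun j => algebraMap K (AlgebraicClosure K) (T j)) =
      (IsScalarTower.toAlgHom k K (AlgebraicClosure K)) '' (S : Set K) := by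
    rw [← hT, ← Set.range_comp]
    rfl
  rw [hrange]
  exact ⟨r, D, C, hrD, hR, hl, hz, ht⟩

/-- **The induction of TRACK L.** -/
theorem glo_of {p : ℕ} {k : Type u} [Field k] (h0 : GLO k 0)
    (hstep : ∀ m d : ℕ, d < p → GLO k m → ProjStmt k m d → GLO k (m + 1)) (d : ℕ → ℕ) (n : ℕ)
    (hP : ∀ m < n, ProjStmt k m (d m)) (hd : ∀ m < n, d m < p) : GLO k n := by
  induction n with
  | zero => exact h0
  | succ n ih =>
    exact hstep n (d n) (hd n (Nat.lt_succ_self n))
      (ih (fun m hm => hP m (hm.trans (Nat.lt_succ_self n)))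
        fun m hm => hd m (hm.trans (Nat.lt_succ_self n))) (hP n (Nat.lt_succ_self n))

/-- **Exit of TRACK L.** -/
theorem glim_of' {p : ℕ} {k : Type u} [Field k] [IsAlgClosed k] (h0 : GLO k 0)
    (hstep : ∀ m d : ℕ, d < p → GLO k m → ProjStmt k m d → GLO k (m + 1)) (d : ℕ → ℕ) (n : ℕ)
    (hP : ∀ m < n, ProjStmt k m (d m)) (hd : ∀ m < n, d m < p) : GLim k n :=
  glim_of_glo k n (glo_of h0 hstep d n hP hd)

end Pool.Agent.TGL
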