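import Pool.Agent.Lib.TGL.GL

/-!
# TANK G, TRACK L: the case of transcendence degree zero
-/

set_option autoImplicit false

namespace Pool.Agent.TGL

open Pool.Agent.TAO (OVal VPos Ctx0)
open Pool.Agent.LU1 (FracIs fixO)
open Pool.Agent.ALLO (locv icl ICl decP)
open Pool.Agent.TG (IsModel Fin')

universe u w

section

variable {k Ω : Type u} [Field k] [Field Ω] [Algebra k Ω]
  {𝕂 : Type w} [Field 𝕂] [LinearOrder 𝕂] [IsStrictOrderedRing 𝕂] {v : OVal 𝕂 Ω} {n : ℕ}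

theorem mem_bot_iff {f : Ω} : f ∈ (⊥ : Subalgebra k Ω) ↔ ∃ c : k, algebraMap k Ω c = f := by
  rw [Algebra.mem_bot]
  rfl

theorem locv_bot : locv v (⊥ : Subalgebra k Ω) = ⊥ := by
  refine le_antisymm ?_ bot_le
  rintro f ⟨a, ha, b, hb, -, -, rfl⟩
  obtain ⟨c, rfl⟩ := mem_bot_iff.1 ha
  obtain ⟨d, rfl⟩ := mem_bot_iff.1 hb
  exact mem_bot_iff.2 ⟨c / d, map_div₀ _ _ _⟩

/-- The frame of `k`. -/
def zeroLF (h : Ctx0 k v n) : LF k v 0 0 where
  Γ := ⊥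
  fg := AddSubgroup.FG.bot
  rk := ⟨Fin.elim0, linearIndependent_empty_type, fun i => i.elim0, fun γ hγ => by
    rw [AddSubgroup.mem_bot] at hγ
    rw [hγ]
    exact Submodule.zero_mem _⟩
  χ := fun _ => 1
  χ_ne := fun _ _ => one_ne_zero
  χ_add := fun _ _ _ _ => (one_mul 1).symm
  χ_val := fun γ hγ => by
    rw [AddSubgroup.mem_bot] at hγ
    rw [hγ]
    exact v.map_one
  y := Fin.elim0
  y_ne := fun i => i.elim0
  y_pos := fun i => i.elim0
  R := ⊥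
  nonneg := fun f hf h0 => by
    obtain ⟨c, rfl⟩ := mem_bot_iff.1 hf
    rw [h.triv c (fun hc => h0 (by rw [hc, map_zero]))]
  loc := fun f hf _ _ => by
    obtain ⟨c, rfl⟩ := mem_bot_iff.1 hf
    exact mem_bot_iff.2 ⟨c⁻¹, map_inv₀ _ _⟩
  χ_mem := fun _ _ _ => Subalgebra.one_mem _
  y_mem := fun i => i.elim0
  fgen := ⟨∅, by
    have h1 : Algebra.adjoin k (((∅ : Finset Ω) : Set Ω) ∪
        (fun _ : 𝕂 => (1 : Ω)) '' {γ | γ ∈ (⊥ : AddSubgroup 𝕂) ∧ 0 ≤ γ}) = ⊥ := by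
      refine le_antisymm (Algebra.adjoin_le ?_) bot_le
      rintro x (hx | ⟨γ, -, rfl⟩)
      · simp at hx
      · exact Subalgebra.one_mem _
    rw [h1, locv_bot]⟩
  gen := fun f hf h0 => by
    refine ⟨0, AddSubgroup.zero_mem _, 0, Subalgebra.zero_mem _, Or.inr rfl, Fin.elim0,
      fun i => i.elim0, ?_⟩
    obtain ⟨c, rfl⟩ := mem_bot_iff.1 hf
    have h1 : c = 0 := by
      by_contra hc
      have h2 : algebraMap k Ω c ≠ 0 := fun h3 =>
        hc ((map_eq_zero_iff _ (algebraMap k Ω).injective).1 h3)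
      exact absurd (h0 h2) (by rw [h.triv c hc]; exact lt_irrefl 0)
    rw [h1, map_zero, mul_zero, zero_add, Finset.univ_eq_empty, Finset.sum_empty]

theorem atV_zero {K Ω 𝕂 : Type u} [Field K] [Algebra k K] [Field Ω] [Algebra k Ω] [Field 𝕂]
    [LinearOrder 𝕂] [IsStrictOrderedRing 𝕂] {v : OVal 𝕂 Ω} {n' : ℕ} (h : Ctx0 k v n')
    (hK : ∀ x : K, ∃ c : k, algebraMap k K c = x) (ι : K →ₐ[k] Ω) (P : Submodule k K)
    (S Z : Set K) (hS : ∀ s ∈ S, s ≠ 0) (hZ : ∀ z ∈ Z, z ≠ 0) : AtV v 0 ι P S Z := by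
  have hE : ∀ x ∈ ι.fieldRange, ∃ c : k, algebraMap k Ω c = x := by
    rintro _ ⟨x, rfl⟩
    obtain ⟨c, rfl⟩ := hK x
    exact ⟨c, (ι.commutes c).symm⟩
  have hun : ∀ c : k, c ≠ 0 → (zeroLF h).Un (algebraMap k Ω c) := fun c hc =>
    ⟨mem_bot_iff.2 ⟨c, rfl⟩, fun h3 => hc ((map_eq_zero_iff _ (algebraMap k Ω).injective).1 h3),
      h.triv c hc⟩
  have hmono : ∀ x : K, x ≠ 0 → (zeroLF h).Mono (ι x) := fun x hx => by
    obtain ⟨c, rfl⟩ := hK x
    have hc : c ≠ 0 := fun h0 => hx (by rw [h0, map_zero])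
    have h1 : ι (algebraMap k K c) = algebraMap k Ω c := ι.commutes c
    have h2 := hun c hc
    rw [h1]
    refine ⟨h2.2.1, ?_, ?_⟩
    · rw [h2.2.2]
      exact AddSubgroup.zero_mem _
    · change (zeroLF h).Un (algebraMap k Ω c / 1)
      rw [div_one]
      exact h2
  refine ⟨0, 0, zeroLF h, rfl, ?_, ⟨fun f hf => ?_, fun g hg => ?_⟩, ⟨1, one_pos, ?_⟩, ?_, ?_⟩
  · refine le_antisymm bot_le ?_
    rintro f ⟨a, ha, b, hb, -, -, rfl⟩
    obtain ⟨c, hc⟩ := hE _ (div_mem ha.1 hb.1)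
    exact mem_bot_iff.2 ⟨c, hc⟩
  · obtain ⟨c, rfl⟩ := mem_bot_iff.1 hf
    exact ι.fieldRange.algebraMap_mem c
  · obtain ⟨c, rfl⟩ := hE g hg
    exact ⟨_, mem_bot_iff.2 ⟨c, rfl⟩, 1, Subalgebra.one_mem _, one_ne_zero, by rw [div_one]⟩
  · intro γ hγ
    refine ⟨1, Subgroup.one_mem _, ?_⟩
    change (zeroLF h).Un (((1 : Ωˣ) : Ω) / 1)
    rw [Units.val_one, div_one]
    exact ⟨Subalgebra.one_mem _, one_ne_zero, v.map_one⟩
  · rintro _ ⟨s, hs, rfl⟩
    exact hmono s (hS s hs)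
  · exact fun z hz => hmono z (hZ z hz)

end

/-- `GLO` in transcendence degree zero. -/
theorem glo_zero (k : Type u) [Field k] [IsAlgClosed k] : GLO k 0 := by
  intro K _ _ _ htr Z hZ
  have h0 : Algebra.IsAlgebraic k K := by
    rw [← trdeg_eq_zero_iff]
    simpa using htr
  have hK : ∀ x : K, ∃ c : k, algebraMap k K c = x := fun x =>
    (IsAlgClosed.algebraMap_bijective_of_isIntegral (k := k) (K := K)).2 x
  refine ⟨Submodule.span k {1}, ∅, ⟨Submodule.fg_span (Set.finite_singleton 1), ?_⟩, ?_, ?_, ?_⟩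
  · intro h1
    rw [Submodule.span_singleton_eq_bot] at h1
    exact one_ne_zero h1
  · refine ⟨fun x => ?_⟩
    obtain ⟨c, rfl⟩ := hK x
    have h2 := isAlgebraic_algebraMap (R := IntermediateField.adjoin k {x : K |
      ∃ f ∈ Submodule.span k ({1} : Set K), ∃ g ∈ Submodule.span k ({1} : Set K), x = g / f})
      (A := K) (algebraMap k _ c)
    rwa [← IsScalarTower.algebraMap_apply] at h2
  · intro s hs
    exact absurd hs (Finset.notMem_empty s)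
  · intro Ω _ _ _ ι 𝕂 _ _ _ v n' h
    exact atV_zero h hK ι _ _ _ (fun s hs => absurd hs (Finset.notMem_empty s))
      fun z hz => hZ z hz

end Pool.Agent.TGL
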