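import Pool.Agent.Lib.TGL.Defs
import Pool.Agent.Lib.ALLO.LocV
import Pool.Agent.Lib.ALLZO.Z1a
import Pool.Agent.Lib.ALLZO.ZIdx
import Pool.Agent.Lib.ALLY_h64.Str

/-!
# TANK G, TRACK L, row ICLICL: normalisation in a field, localised at the centre

`icl_trans`: transitivity.  `nring_ICl`: `ICl v A E` is a normal local ring.  `decP_ICl_eq`: the
decomposition group does not change if the base ring is normalised.
-/

set_option autoImplicit false

namespace Pool.Agent.TGL

open Pool.Agent.TAO (OVal VPos Ctx0 ge_of_isIntegral)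
open Pool.Agent.LU1 (FracIs fixO)
open Pool.Agent.ALLO (locv icl ICl decP le_locv locv_mono locv_le locv_inv locv_nonneg locv_field)
open Pool.Agent.ALLZO (NRing)

universe u w

variable {k Ω : Type u} [Field k] [Field Ω] [Algebra k Ω]
  {𝕂 : Type w} [Field 𝕂] [LinearOrder 𝕂] [IsStrictOrderedRing 𝕂] {v : OVal 𝕂 Ω}

theorem int_mono {A B : Subalgebra k Ω} (h : A ≤ B) {f : Ω} (hf : IsIntegral A f) :
    IsIntegral B f := by
  obtain ⟨P, hP, hPf⟩ := hf
  refine ⟨P.map (Subalgebra.inclusion h).toRingHom, hP.map _, ?_⟩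
  rw [Polynomial.eval₂_map]
  exact hPf

theorem int_of_mem {A : Subalgebra k Ω} {f : Ω} (hf : f ∈ A) : IsIntegral A f :=
  isIntegral_algebraMap (R := A) (A := Ω) (x := ⟨f, hf⟩)

theorem icl_le_icl {A B : Subalgebra k Ω} {F E : IntermediateField k Ω} (h : A ≤ B) (hFE : F ≤ E) :
    icl A F ≤ icl B E := fun _ hf => ⟨hFE hf.1, int_mono h hf.2⟩

theorem ICl_le_ICl {A B : Subalgebra k Ω} {F E : IntermediateField k Ω} (h : A ≤ B)
    (hFE : F ≤ E) : ICl v A F ≤ ICl v B E := locv_mono (icl_le_icl h hFE)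

theorem ICl_le_field {A : Subalgebra k Ω} {E : IntermediateField k Ω} : ∀ f ∈ ICl v A E, f ∈ E :=
  locv_field fun _ hf => hf.1

theorem mem_ICl_of {A : Subalgebra k Ω} {E : IntermediateField k Ω} {f : Ω} (hf : f ∈ E)
    (hi : IsIntegral A f) : f ∈ ICl v A E := le_locv _ ⟨hf, hi⟩

theorem le_ICl_of {A : Subalgebra k Ω} {E : IntermediateField k Ω} (h : ∀ f ∈ A, f ∈ E) :
    A ≤ ICl v A E := fun f hf => mem_ICl_of (h f hf) (int_of_mem hf)

theorem ICl_loc {A : Subalgebra k Ω} {E : IntermediateField k Ω} :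
    ∀ f ∈ ICl v A E, f ≠ 0 → v f = 0 → f⁻¹ ∈ ICl v A E := fun _ hf h0 h1 => locv_inv hf h0 h1

theorem ICl_normal {A : Subalgebra k Ω} {E : IntermediateField k Ω} :
    ∀ f ∈ E, IsIntegral (ICl v A E) f → f ∈ ICl v A E :=
  fun _ hf hi => ALLh64.mem_ICl_of_isIntegral hf hi

theorem int_nonneg {A : Subalgebra k Ω} (hA : ∀ a ∈ A, v.Ge 0 a) {f : Ω} (hf : IsIntegral A f) :
    v.Ge 0 f := ge_of_isIntegral (fun a => hA _ a.2) hf

theorem ICl_nonneg {A : Subalgebra k Ω} {E : IntermediateField k Ω} (hA : ∀ a ∈ A, v.Ge 0 a) :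
    ∀ f ∈ ICl v A E, v.Ge 0 f := locv_nonneg fun _ hf => int_nonneg hA hf.2

/-- The biggest ring: `ICl v A E` is contained in every normal local ring of `E` containing
`A`. -/
theorem ICl_le {A T : Subalgebra k Ω} {E : IntermediateField k Ω} (h : A ≤ T)
    (hloc : ∀ f ∈ T, f ≠ 0 → v f = 0 → f⁻¹ ∈ T) (hn : ∀ f ∈ E, IsIntegral T f → f ∈ T) :
    ICl v A E ≤ T := locv_le (fun f hf => hn f hf.1 (int_mono h hf.2)) hloc

/-- ROW ICLICL. -/
theorem icl_trans {A : Subalgebra k Ω} {F E : IntermediateField k Ω} (hAF : ∀ a ∈ A, a ∈ F)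
    (hFE : F ≤ E) (_hA : ∀ a ∈ A, v.Ge 0 a) : ICl v (ICl v A F) E = ICl v A E := by
  apply le_antisymm
  · exact ICl_le (ICl_le_ICl le_rfl hFE) ICl_loc ICl_normal
  · exact ICl_le_ICl (le_ICl_of hAF) le_rfl

/-- `ICl v A E` is a normal local ring with field of fractions `E`. -/
theorem nring_ICl {A : Subalgebra k Ω} {E : IntermediateField k Ω} (hA : ∀ a ∈ A, v.Ge 0 a)
    (hE : ∀ g ∈ E, ∃ a ∈ ICl v A E, ∃ b ∈ ICl v A E, b ≠ 0 ∧ g = a / b) :
    NRing v E (ICl v A E) where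
  frac := ⟨ICl_le_field, hE⟩
  nonneg := ICl_nonneg hA
  loc := ICl_loc
  normal := ICl_normal

/-- The quotients of elements of `A`, a field. -/
def frf (A : Subalgebra k Ω) : IntermediateField k Ω where
  carrier := {g | ∃ a ∈ A, ∃ b ∈ A, b ≠ 0 ∧ g = a / b}
  mul_mem' := by
    rintro f g ⟨a, ha, b, hb, hb0, rfl⟩ ⟨c, hc, d, hd, hd0, rfl⟩
    exact ⟨a * c, A.mul_mem ha hc, b * d, A.mul_mem hb hd, mul_ne_zero hb0 hd0, by
      rw [div_mul_div_comm]⟩
  add_mem' := by
    rintro f g ⟨a, ha, b, hb, hb0, rfl⟩ ⟨c, hc, d, hd, hd0, rfl⟩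
    exact ⟨a * d + b * c, A.add_mem (A.mul_mem ha hd) (A.mul_mem hb hc), b * d,
      A.mul_mem hb hd, mul_ne_zero hb0 hd0, by rw [div_add_div _ _ hb0 hd0]⟩
  algebraMap_mem' := fun c =>
    ⟨algebraMap k Ω c, A.algebraMap_mem c, 1, A.one_mem, one_ne_zero, by rw [div_one]⟩
  inv_mem' := by
    rintro f ⟨a, ha, b, hb, hb0, rfl⟩
    by_cases ha0 : a = 0
    · exact ⟨0, A.zero_mem, 1, A.one_mem, one_ne_zero, by rw [ha0, zero_div, inv_zero, zero_div]⟩
    · exact ⟨b, hb, a, ha, ha0, by rw [inv_div]⟩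

theorem le_frf (A : Subalgebra k Ω) {f : Ω} (hf : f ∈ A) : f ∈ frf A :=
  ⟨f, hf, 1, A.one_mem, one_ne_zero, by rw [div_one]⟩

/-- A field whose generators are quotients of elements of `A` consists of such quotients. -/
theorem frac_of_adjoin {A : Subalgebra k Ω} {X : Set Ω} (hX : ∀ x ∈ X, x ∈ frf A) :
    ∀ g ∈ IntermediateField.adjoin k X, ∃ a ∈ A, ∃ b ∈ A, b ≠ 0 ∧ g = a / b := by
  have h : IntermediateField.adjoin k X ≤ frf A := IntermediateField.adjoin_le_iff.2 hX
  exact fun g hg => h hg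

theorem frf_mono {A B : Subalgebra k Ω} (h : A ≤ B) : frf A ≤ frf B := by
  rintro g ⟨a, ha, b, hb, hb0, rfl⟩
  exact ⟨a, h ha, b, h hb, hb0, rfl⟩

/-! ### The decomposition group -/

section Dec

variable {K : IntermediateField k Ω} {N : IntermediateField K Ω}

/-- The decomposition group gets smaller if the base ring gets bigger. -/
theorem decP_anti {A B : Subalgebra k Ω} (h : A ≤ B) (hB : ∀ f ∈ B, f ∈ K) :
    decP v B K N ≤ decP v A K N := ALLZO.H18.decP_mono h hB

theorem relIndex_anti [FiniteDimensional K N] {A B : Subalgebra k Ω} (h : A ≤ B)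
    (hB : ∀ f ∈ B, f ∈ K) (H : Subgroup (N ≃ₐ[K] N)) :
    H.relIndex (decP v B K N) ≤ H.relIndex (decP v A K N) := by
  have hfin : Finite (N ≃ₐ[K] N) := inferInstance
  refine Subgroup.relIndex_le_of_le_right (decP_anti h hB) ?_
  rw [Subgroup.relIndex]
  exact Subgroup.index_ne_zero_of_finite

/-- An element integral over `locv v A` becomes integral over `A` after multiplication by an
element of `A` of value `0`. -/
theorem exists_den_locv {A : Subalgebra k Ω} {f : Ω} (hf : IsIntegral (locv v A) f) :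
    ∃ b ∈ A, b ≠ 0 ∧ v b = 0 ∧ IsIntegral A (b * f) := by
  classical
  obtain ⟨Q, hQ, hQ0⟩ := hf
  have hc : ∀ i, ∃ a ∈ A, ∃ b ∈ A, b ≠ 0 ∧ v b = 0 ∧ (Q.coeff i : Ω) = a / b :=
    fun i => (Q.coeff i).2
  choose a ha b hb hb0 hvb he using hc
  set d := ∏ i ∈ Finset.range Q.natDegree, b i with hd
  have hdA : d ∈ A := A.prod_mem fun i _ => hb i
  have hd0 : d ≠ 0 := Finset.prod_ne_zero_iff.2 fun i _ => hb0 i
  have hvd : v d = 0 := by
    rw [hd, v.map_prod _ _ fun i _ => hb0 i]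
    exact Finset.sum_eq_zero fun i _ => hvb i
  have hdc : ∀ i < Q.natDegree, d * (Q.coeff i : Ω) ∈ A := by
    intro i hi
    rw [hd, ← Finset.mul_prod_erase _ _ (Finset.mem_range.2 hi), he i, mul_comm (b i), mul_assoc,
      mul_div_cancel₀ _ (hb0 i)]
    exact A.mul_mem (A.prod_mem fun j _ => hb j) (ha i)
  refine ⟨d, hdA, hd0, hvd, ?_⟩
  -- the scaled polynomial
  set P : Polynomial Ω := (Q.map (algebraMap (locv v A) Ω)).scaleRoots d with hP
  have hQm : (Q.map (algebraMap (locv v A) Ω)).Monic := hQ.map _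
  have hnd : (Q.map (algebraMap (locv v A) Ω)).natDegree = Q.natDegree := hQ.natDegree_map _
  refine ALLh64.isIntegral_of_coeff P ((Polynomial.monic_scaleRoots_iff d).2 hQm) ?_ ?_
  · intro i
    rw [hP, Polynomial.coeff_scaleRoots, Polynomial.coeff_map, hnd]
    rcases lt_trichotomy i Q.natDegree with hi | hi | hi
    · have h1 : Q.natDegree - i = (Q.natDegree - i - 1) + 1 := by omega
      rw [h1, pow_succ, mul_comm (d ^ _), ← mul_assoc, mul_comm _ d]
      exact A.mul_mem (hdc i hi) (A.pow_mem hdA _)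
    · subst hi
      rw [Nat.sub_self, pow_zero, mul_one]
      have h1 : Q.coeff Q.natDegree = 1 := hQ
      rw [h1, map_one]
      exact A.one_mem
    · rw [Polynomial.coeff_eq_zero_of_natDegree_lt hi, map_zero, zero_mul]
      exact A.zero_mem
  · rw [hP, Polynomial.scaleRoots_eval_mul, Polynomial.eval_map]
    have h1 : Polynomial.eval₂ (algebraMap (locv v A) Ω) f Q = 0 := hQ0
    rw [h1, mul_zero]

/-- The decomposition group over the normalisation. -/
theorem decP_ICl_eq {A : Subalgebra k Ω} (hA : ∀ f ∈ A, f ∈ K) :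
    decP v (ICl v A K) K N = decP v A K N := by
  apply le_antisymm
  · exact decP_anti (le_ICl_of hA) ICl_le_field
  · intro σ hσ
    have key : ∀ τ : N ≃ₐ[K] N, ∀ a : N, IsIntegral (ICl v A K) (a : Ω) →
        IsIntegral (ICl v A K) (τ a : Ω) := fun τ a ha =>
      ALLZO.H18.int_map' ICl_le_field τ ha
    intro a ha
    refine ⟨key σ a ha, key σ⁻¹ a ha, ?_⟩
    obtain ⟨b, hb, hb0, hvb, hi⟩ := exists_den_locv (v := v) (A := icl A K) ha
    have hbK : b ∈ K := hb.1
    -- `b a` is integral over `A`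
    have hi' : IsIntegral A (b * (a : Ω)) := by
      have h1 : b * (a : Ω) ∈ icl (icl A K) (N.restrictScalars k) :=
        ⟨N.mul_mem (N.algebraMap_mem ⟨b, hbK⟩) a.2, hi⟩
      have h2 : b * (a : Ω) ∈ icl A (N.restrictScalars k) :=
        ALLh64.icl_normal h1.1 (int_mono (icl_le_icl le_rfl fun x hx => by
          exact N.algebraMap_mem ⟨x, hx⟩) h1.2)
      exact h2.2
    set bK : K := ⟨b, hbK⟩ with hbK'
    have h3 : ((algebraMap K N bK * a : N) : Ω) = b * (a : Ω) := rfl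
    have h4 := (hσ (algebraMap K N bK * a) (by rw [h3]; exact hi')).2.2
    have h5 : ((σ (algebraMap K N bK * a) : N) : Ω) = b * (σ a : Ω) := by
      rw [map_mul, AlgEquiv.commutes]
      rfl
    rw [h3, h5] at h4
    have h6 : ∀ x : Ω, VPos v (b * x) ↔ VPos v x := by
      intro x
      constructor
      · intro hx hx0
        have h7 := hx (mul_ne_zero hb0 hx0)
        rwa [v.map_mul hb0 hx0, hvb, zero_add] at h7
      · intro hx hx0
        have hx0' := right_ne_zero_of_mul hx0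
        rw [v.map_mul hb0 hx0', hvb, zero_add]
        exact hx hx0'
    rwa [h6, h6] at h4

end Dec

end Pool.Agent.TGL
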