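import Pool.Agent.Lib.TGL.Step
import Pool.Agent.Lib.TGL.Icl

/-!
# TANK G, TRACK L, row BK: the limit ring of `PB ⬝ ⟨1, z⟩`

Elements of minimal value of products; `Lim v P S ≤ Lim v (P * Q) S'`; comparability of ratios;
`R₁` is a normal local ring with field of fractions `L₀(z)`.
-/

set_option autoImplicit false

namespace Pool.Agent.TGL

open Pool.Agent.TAO (OVal VPos Ctx0)
open Pool.Agent.LU1 (FracIs fixO)
open Pool.Agent.ALLO (locv icl ICl decP le_locv locv_mono locv_le locv_inv locv_nonneg locv_field)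
open Pool.Agent.ALLZO (NRing)

universe u w

variable {k Ω : Type u} [Field k] [Field Ω] [Algebra k Ω]
  {𝕂 : Type w} [Field 𝕂] [LinearOrder 𝕂] [IsStrictOrderedRing 𝕂] {v : OVal 𝕂 Ω} {r D n : ℕ}

/-! ### Elements of minimal value -/

theorem OMin.mul {P Q : Submodule k Ω} {f g : Ω} (hf : OMin v P f) (hg : OMin v Q g) :
    OMin v (P * Q) (f * g) where
  mem := Submodule.mul_mem_mul hf.mem hg.mem
  ne := mul_ne_zero hf.ne hg.ne
  div := by
    intro x hx
    induction hx using Submodule.mul_induction_on' with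
    | mem_mul_mem a ha b hb =>
      rw [mul_div_mul_comm]
      have h := OVal.Ge.mul (hf.div a ha) (hg.div b hb)
      rwa [add_zero] at h
    | add x _ y _ hx hy =>
      rw [add_div]
      exact hx.add hy

theorem ge_smul (htriv : ∀ c : k, c ≠ 0 → v (algebraMap k Ω c) = 0) {c : k} {x : Ω}
    (hx : v.Ge 0 x) : v.Ge 0 (c • x) := by
  rw [Algebra.smul_def]
  have h1 : v.Ge 0 (algebraMap k Ω c) := by
    intro h0
    have hc : c ≠ 0 := by
      rintro rfl
      exact h0 (map_zero _)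
    exact (htriv c hc).ge
  have h := OVal.Ge.mul h1 hx
  rwa [add_zero] at h

/-- A generator of minimal value is of minimal value. -/
theorem oMin_of_gen (htriv : ∀ c : k, c ≠ 0 → v (algebraMap k Ω c) = 0) {X : Set Ω} {f : Ω}
    (hf : f ∈ X) (hf0 : f ≠ 0) (hX : ∀ g ∈ X, v.Ge 0 (g / f)) :
    OMin v (Submodule.span k X) f where
  mem := Submodule.subset_span hf
  ne := hf0
  div := by
    intro g hg
    induction hg using Submodule.span_induction with
    | mem x hx => exact hX x hx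
    | zero =>
      rw [zero_div]
      exact OVal.Ge.zero
    | add x y _ _ hx hy =>
      rw [add_div]
      exact hx.add hy
    | smul c x _ hx =>
      rw [smul_div_assoc]
      exact ge_smul htriv hx

theorem exists_oMin (htriv : ∀ c : k, c ≠ 0 → v (algebraMap k Ω c) = 0) {P : Submodule k Ω}
    (hP : P.FG) (hP0 : P ≠ ⊥) : ∃ f, OMin v P f := by
  classical
  obtain ⟨X, rfl⟩ := hP
  have h1 : ∃ x ∈ X, x ≠ 0 := by
    by_contra hcon
    push Not at hcon
    apply hP0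
    rw [Submodule.span_eq_bot]
    exact hcon
  obtain ⟨x, hx, hx0⟩ := h1
  obtain ⟨f, hf, hmin⟩ := Finset.exists_min_image (X.filter (· ≠ 0)) (fun y => v y)
    ⟨x, Finset.mem_filter.2 ⟨hx, hx0⟩⟩
  rw [Finset.mem_filter] at hf
  refine ⟨f, oMin_of_gen htriv hf.1 hf.2 fun g hg => ?_⟩
  by_cases hg0 : g = 0
  · rw [hg0, zero_div]
    exact OVal.Ge.zero
  · intro _
    rw [v.map_div hg0 hf.2, sub_nonneg]
    exact hmin g (Finset.mem_filter.2 ⟨hg, hg0⟩)

/-- The pencil `⟨1, z⟩`. -/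
theorem oMin_pair (htriv : ∀ c : k, c ≠ 0 → v (algebraMap k Ω c) = 0) (z : Ω) :
    (OMin v (Submodule.span k {1, z}) 1 ∧ v.Ge 0 z) ∨
      (OMin v (Submodule.span k {1, z}) z ∧ z ≠ 0 ∧ v z < 0) := by
  by_cases h : v.Ge 0 z
  · refine Or.inl ⟨oMin_of_gen htriv (Set.mem_insert _ _) one_ne_zero ?_, h⟩
    rintro g (rfl | rfl)
    · rw [div_one]
      intro _
      exact v.map_one.ge
    · rw [div_one]
      exact h
  · have hz : z ≠ 0 := by
      rintro rfl
      exact h OVal.Ge.zero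
    have hv : v z < 0 := by
      by_contra hcon
      exact h fun _ => not_lt.1 hcon
    refine Or.inr ⟨oMin_of_gen htriv (Set.mem_insert_of_mem _ rfl) hz ?_, hz, hv⟩
    rintro g (rfl | rfl)
    · intro _
      rw [v.map_div one_ne_zero hz, v.map_one]
      linarith
    · rw [div_self hz]
      intro _
      exact v.map_one.ge

theorem exists_oMin_pair (htriv : ∀ c : k, c ≠ 0 → v (algebraMap k Ω c) = 0) (z : Ω) :
    ∃ m, OMin v (Submodule.span k {1, z}) m := by
  rcases oMin_pair htriv z with h | h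
  · exact ⟨_, h.1⟩
  · exact ⟨_, h.1⟩

/-! ### The limit ring -/

theorem div_mem_Lim {P : Submodule k Ω} {S : Set Ω} {f g : Ω} (hf : OMin v P f) (hg : g ∈ P) :
    g / f ∈ Lim v P S :=
  le_locv _ (Algebra.subset_adjoin (Or.inl ⟨f, g, hf, hg, rfl⟩))

theorem mo_mem_Lim {P : Submodule k Ω} {S : Set Ω} {m : Ωˣ} (hm : m ∈ Mo S)
    (h0 : v.Ge 0 (m : Ω)) : (m : Ω) ∈ Lim v P S :=
  le_locv _ (Algebra.subset_adjoin (Or.inr ⟨m, hm, h0, rfl⟩))

theorem Lim_loc {P : Submodule k Ω} {S : Set Ω} :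
    ∀ f ∈ Lim v P S, f ≠ 0 → v f = 0 → f⁻¹ ∈ Lim v P S := fun _ hf h0 h1 => locv_inv hf h0 h1

theorem Lim_nonneg (htriv : ∀ c : k, c ≠ 0 → v (algebraMap k Ω c) = 0) {P : Submodule k Ω}
    {S : Set Ω} : ∀ f ∈ Lim v P S, v.Ge 0 f := by
  refine locv_nonneg fun f hf => ?_
  induction hf using Algebra.adjoin_induction with
  | mem x hx =>
    rcases hx with ⟨f, g, hf, hg, rfl⟩ | ⟨m, -, hm, rfl⟩
    · exact hf.div g hg
    · exact hm
  | algebraMap c =>
    have h := ge_smul htriv (c := c) (x := (1 : Ω)) fun _ => v.map_one.ge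
    rwa [Algebra.smul_def, mul_one] at h
  | add x y _ _ hx hy => exact hx.add hy
  | mul x y _ _ hx hy =>
    have h := OVal.Ge.mul hx hy
    rwa [add_zero] at h

theorem mo_mem_field {S : Set Ω} {E : IntermediateField k Ω} (hS : ∀ s ∈ S, s ∈ E) {m : Ωˣ}
    (hm : m ∈ Mo S) : (m : Ω) ∈ E := by
  induction hm using Subgroup.closure_induction with
  | mem x hx => exact hS _ hx
  | one => exact E.one_mem
  | mul x y _ _ hx hy => exact E.mul_mem hx hy
  | inv x _ hx =>
    rw [Units.val_inv_eq_inv_val]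
    exact E.inv_mem hx

theorem Lim_field {P : Submodule k Ω} {S : Set Ω} {E : IntermediateField k Ω}
    (hP : ∀ f ∈ P, f ∈ E) (hS : ∀ s ∈ S, s ∈ E) : ∀ f ∈ Lim v P S, f ∈ E := by
  refine locv_field fun f hf => ?_
  have h : Algebra.adjoin k ({x | ∃ f g, OMin v P f ∧ g ∈ P ∧ x = g / f} ∪
      {x | ∃ m ∈ Mo S, v.Ge 0 (m : Ω) ∧ x = (m : Ω)}) ≤ E.toSubalgebra := by
    refine Algebra.adjoin_le ?_
    rintro x (⟨f, g, hf, hg, rfl⟩ | ⟨m, hm, -, rfl⟩)
    · exact E.div_mem (hP g hg) (hP f hf.mem)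
    · exact mo_mem_field hS hm
  exact h hf

theorem mo_mono {S S' : Set Ω} (h : S ⊆ S') : Mo S ≤ Mo S' :=
  Subgroup.closure_mono fun _ hx => h hx

/-- The limit ring of a product contains the limit rings of the factors. -/
theorem Lim_le_mul {P Q : Submodule k Ω} {S S' : Set Ω} {m : Ω} (hm : OMin v Q m) (hS : S ⊆ S') :
    Lim v P S ≤ Lim v (P * Q) S' := by
  refine locv_le (Algebra.adjoin_le ?_) Lim_loc
  rintro x (⟨f, g, hf, hg, rfl⟩ | ⟨u, hu, h0, rfl⟩)
  · rw [← mul_div_mul_right g f hm.ne]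
    exact div_mem_Lim (hf.mul hm) (Submodule.mul_mem_mul hg hm.mem)
  · exact mo_mem_Lim (mo_mono hS hu) h0

theorem Lim_le_mul' {P Q : Submodule k Ω} {S S' : Set Ω} {m : Ω} (hm : OMin v P m) (hS : S ⊆ S') :
    Lim v Q S ≤ Lim v (P * Q) S' := by
  rw [mul_comm]
  exact Lim_le_mul hm hS

/-- `z` or `1 / z` is in the limit ring of `P ⬝ ⟨1, z⟩`. -/
theorem pair_mem_Lim (htriv : ∀ c : k, c ≠ 0 → v (algebraMap k Ω c) = 0) {P : Submodule k Ω}
    {f : Ω} (hf : OMin v P f) (z : Ω) (S : Set Ω) :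
    z ∈ Lim v (P * Submodule.span k {1, z}) S ∨ z⁻¹ ∈ Lim v (P * Submodule.span k {1, z}) S := by
  rcases oMin_pair htriv z with h | h
  · left
    have h1 := div_mem_Lim (S := S) (hf.mul h.1) (Submodule.mul_mem_mul hf.mem
      (Submodule.subset_span (Set.mem_insert_of_mem _ (Set.mem_singleton z))))
    rwa [mul_one, mul_div_cancel_left₀ _ hf.ne] at h1
  · right
    have h1 := div_mem_Lim (S := S) (hf.mul h.1) (Submodule.mul_mem_mul hf.mem
      (Submodule.subset_span (Set.mem_insert _ _)))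
    rwa [mul_div_mul_left _ _ hf.ne, one_div] at h1

/-! ### Comparability of ratios -/

/-- If the ratios of the generators are comparable in the local ring `T`, then all ratios `g / f`
with `f` minimal are in `T`. -/
theorem div_mem_of_cmp (htriv : ∀ c : k, c ≠ 0 → v (algebraMap k Ω c) = 0) {T : Subalgebra k Ω}
    (hT : ∀ f ∈ T, v.Ge 0 f) (hloc : ∀ f ∈ T, f ≠ 0 → v f = 0 → f⁻¹ ∈ T) {X : Finset Ω}
    (hX : ∀ a ∈ X, ∀ b ∈ X, a ≠ 0 → b ≠ 0 → a / b ∈ T ∨ b / a ∈ T) {f g : Ω}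
    (hf : OMin v (Submodule.span k (X : Set Ω)) f) (hg : g ∈ Submodule.span k (X : Set Ω)) :
    g / f ∈ T := by
  classical
  -- a generator of minimal value
  have h1 : ∃ x ∈ X, x ≠ 0 := by
    by_contra hcon
    push Not at hcon
    have h2 : Submodule.span k (X : Set Ω) = ⊥ := Submodule.span_eq_bot.2 hcon
    have h3 := hf.mem
    rw [h2, Submodule.mem_bot] at h3
    exact hf.ne h3
  obtain ⟨x, hx, hx0⟩ := h1
  obtain ⟨h, hh, hmin⟩ := Finset.exists_min_image (X.filter (· ≠ 0)) (fun y => v y)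
    ⟨x, Finset.mem_filter.2 ⟨hx, hx0⟩⟩
  rw [Finset.mem_filter] at hh
  have h4 : ∀ y ∈ Submodule.span k (X : Set Ω), y / h ∈ T := by
    intro y hy
    induction hy using Submodule.span_induction with
    | mem y hy =>
      by_cases hy0 : y = 0
      · rw [hy0, zero_div]
        exact T.zero_mem
      have hvy : v h ≤ v y := hmin y (Finset.mem_filter.2 ⟨hy, hy0⟩)
      rcases hX y hy h hh.1 hy0 hh.2 with h5 | h5
      · exact h5
      · have h6 : h / y ≠ 0 := div_ne_zero hh.2 hy0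
        have h7 := hT _ h5 h6
        have h8 : v (h / y) = 0 := by
          refine le_antisymm ?_ h7
          rw [v.map_div hh.2 hy0]
          linarith
        have h9 := hloc _ h5 h6 h8
        rwa [inv_div] at h9
    | zero =>
      rw [zero_div]
      exact T.zero_mem
    | add x y _ _ hx hy =>
      rw [add_div]
      exact T.add_mem hx hy
    | smul c x _ hx =>
      rw [smul_div_assoc]
      exact T.smul_mem hx c
  have h5 : f / h ∈ T := h4 f hf.mem
  have h6 : f / h ≠ 0 := div_ne_zero hf.ne hh.2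
  have h7 : v (f / h) = 0 := by
    refine le_antisymm ?_ (hT _ h5 h6)
    have h8 := hf.div h (Submodule.subset_span hh.1) (div_ne_zero hh.2 hf.ne)
    rw [v.map_div hh.2 hf.ne] at h8
    rw [v.map_div hf.ne hh.2]
    linarith
  have h8 := T.mul_mem (h4 g hg) (hloc _ h5 h6 h7)
  rwa [inv_div, div_mul_div_cancel₀ hh.2] at h8

/-- The limit ring is in `T` if `T` contains the ratios of the model and the monomials in the
labels. -/
theorem Lim_le {P : Submodule k Ω} {S : Set Ω} {T : Subalgebra k Ω}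
    (hloc : ∀ f ∈ T, f ≠ 0 → v f = 0 → f⁻¹ ∈ T) (hP : ∀ f g, OMin v P f → g ∈ P → g / f ∈ T)
    (hS : ∀ m ∈ Mo S, v.Ge 0 (m : Ω) → (m : Ω) ∈ T) : Lim v P S ≤ T := by
  refine locv_le (Algebra.adjoin_le ?_) hloc
  rintro x (⟨f, g, hf, hg, rfl⟩ | ⟨m, hm, h0, rfl⟩)
  · exact hP f g hf hg
  · exact hS m hm h0

/-! ### The ring `R₁` -/

theorem le_FZ (L₀ : IntermediateField k Ω) (z : Ω) : L₀ ≤ FZ L₀ z := fun x hx =>
  IntermediateField.subset_adjoin k _ (Or.inl hx)

theorem mem_FZ (L₀ : IntermediateField k Ω) (z : Ω) : z ∈ FZ L₀ z :=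
  IntermediateField.subset_adjoin k _ (Or.inr rfl)

section R1

variable {p : ℕ} {L₀ : IntermediateField k Ω} {L : IntermediateField L₀ Ω} {z : Ω}
  {PB : Submodule k Ω} {SB : Set Ω} {S : AddSubgroup Ω} {B₀ B : LF k v r D}

/-- `R₀ ≤ R₁`. -/
theorem ICl_le_R1 (htriv : ∀ c : k, c ≠ 0 → v (algebraMap k Ω c) = 0) :
    ICl v (Lim v PB SB) L₀ ≤ R1 v L₀ z PB SB S := by
  obtain ⟨m, hm⟩ := exists_oMin_pair htriv z
  exact ICl_le_ICl (Lim_le_mul hm Set.subset_union_left) (le_FZ L₀ z)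

theorem SD.R₀_le_R1 (h : Ctx0 k v n) (sd : SD (v := v) p L₀ L z PB SB S B₀ B) :
    B₀.R ≤ R1 v L₀ z PB SB S := by
  rw [sd.ring₀]
  exact ICl_le_R1 h.triv

theorem SD.z_mem_R1 (h : Ctx0 k v n) (sd : SD (v := v) p L₀ L z PB SB S B₀ B) :
    z ∈ R1 v L₀ z PB SB S ∨ z⁻¹ ∈ R1 v L₀ z PB SB S := by
  obtain ⟨f, hf⟩ := exists_oMin h.triv sd.PB_fg sd.PB_ne
  rcases pair_mem_Lim h.triv hf z (SB ∪ {Fz S z}) with h1 | h1
  · exact Or.inl (mem_ICl_of (mem_FZ L₀ z) (int_of_mem h1))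
  · exact Or.inr (mem_ICl_of ((FZ L₀ z).inv_mem (mem_FZ L₀ z)) (int_of_mem h1))

/-- ROW BK: `R₁` is normal with fraction field `L₀(z)`. -/
theorem SD.nring_R1 [IsAlgClosed k] [IsAlgClosed Ω] (h : Ctx0 k v n)
    [FiniteDimensional L₀ L] [IsGalois L₀ L] (sd : SD (v := v) p L₀ L z PB SB S B₀ B) :
    NRing v (FZ L₀ z) (R1 v L₀ z PB SB S) := by
  refine nring_ICl (Lim_nonneg h.triv) (frac_of_adjoin ?_)
  rintro x (hx | hx)
  · obtain ⟨a, ha, b, hb, hb0, rfl⟩ := sd.frac₀.2 x hx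
    exact ⟨a, sd.R₀_le_R1 h ha, b, sd.R₀_le_R1 h hb, hb0, rfl⟩
  · rw [Set.mem_singleton_iff] at hx
    subst hx
    rcases sd.z_mem_R1 h with h1 | h1
    · exact le_frf _ h1
    · have h2 := (frf (R1 v L₀ x PB SB S)).inv_mem (le_frf _ h1)
      rwa [inv_inv] at h2

/-- Normalisation of `R₁` in a bigger field. -/
theorem SD.icl_R1 (h : Ctx0 k v n) (sd : SD (v := v) p L₀ L z PB SB S B₀ B)
    (hF : Fz S z ∈ FZ L₀ z) {E : IntermediateField k Ω} (hE : FZ L₀ z ≤ E) :
    ICl v (R1 v L₀ z PB SB S) E =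
      ICl v (Lim v (PB * Submodule.span k {1, z}) (SB ∪ {Fz S z})) E := by
  refine icl_trans (Lim_field ?_ ?_) hE (Lim_nonneg h.triv)
  · intro f hf
    have h1 : PB * Submodule.span k {1, z} ≤ Subalgebra.toSubmodule (FZ L₀ z).toSubalgebra := by
      rw [Submodule.mul_le]
      intro a ha b hb
      refine (FZ L₀ z).mul_mem (le_FZ L₀ z (sd.PB_mem a ha)) ?_
      have h2 : Submodule.span k {1, z} ≤ Subalgebra.toSubmodule (FZ L₀ z).toSubalgebra := by
        rw [Submodule.span_le]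
        rintro x (rfl | rfl)
        · exact (FZ L₀ z).one_mem
        · exact mem_FZ L₀ x
      exact h2 hb
    exact h1 hf
  · rintro s (hs | hs)
    · exact le_FZ L₀ z (sd.SB_mem s hs).1
    · rw [Set.mem_singleton_iff] at hs
      rw [hs]
      exact hF

end R1

end Pool.Agent.TGL
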