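import Pool.Agent.Lib.TG.WLz
import Pool.Agent.Lib.ALLO.Defs
import Pool.Agent.Lib.ALL_h25.Setup

/-!
# TANK G, track L, row CONV, first half: from valuation rings to valuations with values in an
ordered field
-/

set_option autoImplicit false

open Polynomial

namespace Pool.Agent.TGL

open Pool.Agent.LU2 (locV)
open Pool.Agent.TG (Ov ZDim IsMin ch chN ncl RV NV IsModel)
open Pool.Agent.TAO (OVal VPos Ctx0 CtxR)
open Pool.Agent.ALLO (locv icl ICl)

universe u w

section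

variable {k K Ω : Type u} [Field k] [Field K] [Field Ω] [Algebra k K] [Algebra k Ω]
  {𝕂 : Type w} [Field 𝕂] [LinearOrder 𝕂] [IsStrictOrderedRing 𝕂]

/-- The valuation `w` of `Ω` induces the valuation ring `V` of `K`. -/
def Cmp (V : ValuationSubring K) (ι : K →ₐ[k] Ω) (w : OVal 𝕂 Ω) : Prop :=
  ∀ f : K, f ≠ 0 → (f ∈ V ↔ 0 ≤ w (ι f))

variable {V : ValuationSubring K} {ι : K →ₐ[k] Ω} {w : OVal 𝕂 Ω}

theorem ι_ne {f : K} (hf : f ≠ 0) : ι f ≠ 0 := (_root_.map_ne_zero ι).2 hf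

theorem ι_inj : Function.Injective ι := ι.toRingHom.injective

namespace Cmp

theorem mem_iff (h : Cmp V ι w) (f : K) : f ∈ V ↔ w.Ge 0 (ι f) := by
  by_cases hf : f = 0
  · subst hf
    rw [map_zero]
    exact ⟨fun _ => OVal.Ge.zero, fun _ => V.zero_mem⟩
  · exact (h f hf).trans ⟨fun h0 _ => h0, fun h0 => h0 (ι_ne hf)⟩

theorem le_iff (h : Cmp V ι w) {f g : K} (hf : f ≠ 0) (hg : g ≠ 0) :
    V.valuation f ≤ V.valuation g ↔ w (ι g) ≤ w (ι f) := by
  have h1 : V.valuation f ≤ V.valuation g ↔ f / g ∈ V := by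
    rw [← V.valuation_le_one_iff, map_div₀, div_le_one₀ (zero_lt_iff.2
      ((Valuation.ne_zero_iff _).2 hg))]
  rw [h1, h _ (div_ne_zero hf hg), map_div₀, w.map_div (ι_ne hf) (ι_ne hg), sub_nonneg]

theorem lt_iff (h : Cmp V ι w) {f g : K} (hf : f ≠ 0) (hg : g ≠ 0) :
    V.valuation f < V.valuation g ↔ w (ι g) < w (ι f) := by
  rw [← not_le, h.le_iff hg hf, not_le]

theorem eq_iff (h : Cmp V ι w) {f g : K} (hf : f ≠ 0) (hg : g ≠ 0) :
    V.valuation f = V.valuation g ↔ w (ι f) = w (ι g) := by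
  rw [le_antisymm_iff, le_antisymm_iff, h.le_iff hf hg, h.le_iff hg hf, and_comm]

theorem one_iff (h : Cmp V ι w) {f : K} (hf : f ≠ 0) : V.valuation f = 1 ↔ w (ι f) = 0 := by
  have h1 := h.eq_iff hf one_ne_zero
  rwa [map_one, map_one, w.map_one] at h1

theorem lt_one_iff (h : Cmp V ι w) (f : K) : V.valuation f < 1 ↔ VPos w (ι f) := by
  by_cases hf : f = 0
  · subst hf
    rw [map_zero, map_zero]
    exact ⟨fun _ => Pool.Agent.TAO.VPos.zero, fun _ => zero_lt_one⟩
  · have h1 := h.lt_iff hf one_ne_zero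
    rw [map_one, map_one, w.map_one] at h1
    exact h1.trans ⟨fun h0 _ => h0, fun h0 => h0 (ι_ne hf)⟩

/-- Two valuations rings induced by the same valuation are equal. -/
theorem eq_of (h : Cmp V ι w) {V' : ValuationSubring K} (h' : Cmp V' ι w) : V = V' := by
  ext f
  rw [h.mem_iff, h'.mem_iff]

/-- `locV` upstairs. -/
theorem map_locV (h : Cmp V ι w) (A : Subalgebra k K) : (locV V A).map ι = locv w (A.map ι) := by
  ext x
  constructor
  · rintro ⟨_, ⟨a, ha, b, hb, hvb, rfl⟩, rfl⟩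
    have hb0 : b ≠ 0 := by
      rintro rfl
      rw [map_zero] at hvb
      exact zero_ne_one hvb
    refine ⟨ι a, ⟨a, ha, rfl⟩, ι b, ⟨b, hb, rfl⟩, ι_ne hb0, (h.one_iff hb0).1 hvb, ?_⟩
    exact map_div₀ ι a b
  · rintro ⟨_, ⟨a, ha, rfl⟩, _, ⟨b, hb, rfl⟩, hb0, hvb, rfl⟩
    have hb0' : b ≠ 0 := by
      rintro rfl
      exact hb0 (map_zero ι)
    exact ⟨a / b, ⟨a, ha, b, hb, (h.one_iff hb0').2 hvb, rfl⟩, map_div₀ ι a b⟩

end Cmp

theorem mem_map_iff {A : Subalgebra k K} {f : K} : ι f ∈ A.map ι ↔ f ∈ A := by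
  constructor
  · rintro ⟨a, ha, hab⟩
    rwa [← ι_inj hab]
  · intro hf
    exact ⟨f, hf, rfl⟩

/-- The isomorphism of `A` with its image. -/
noncomputable def eqm (ι : K →ₐ[k] Ω) (A : Subalgebra k K) : A ≃ₐ[k] A.map ι :=
  A.equivMapOfInjective ι ι_inj

theorem eqm_coe (A : Subalgebra k K) (a : A) : ((eqm ι A a : A.map ι) : Ω) = ι a := rfl

theorem eval₂_eqm {A : Subalgebra k K} {f : K} (q : A[X]) :
    q.eval₂ (((algebraMap (A.map ι) Ω)).comp ((eqm ι A : A ≃ₐ[k] A.map ι) : A →+* A.map ι))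
      (ι f) = ι (q.eval₂ (algebraMap A K) f) := by
  have h1 : (ι : K →+* Ω) (q.eval₂ (algebraMap A K) f) =
      q.eval₂ ((ι : K →+* Ω).comp (algebraMap A K)) ((ι : K →+* Ω) f) := Polynomial.hom_eval₂ _ _ _ _
  exact h1.symm

/-- Integrality upstairs. -/
theorem isIntegral_map_iff {A : Subalgebra k K} {f : K} :
    IsIntegral (A.map ι) (ι f) ↔ IsIntegral A f := by
  constructor
  · rintro ⟨p, hp, hpf⟩
    have hlift : p ∈ Polynomial.lifts ((eqm ι A : A ≃ₐ[k] A.map ι) : A →+* A.map ι) := by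
      rw [Polynomial.lifts_iff_coeff_lifts]
      intro i
      exact ⟨(eqm ι A).symm (p.coeff i), AlgEquiv.apply_symm_apply _ _⟩
    obtain ⟨q, hq, -, hqm⟩ := Polynomial.lifts_and_natDegree_eq_and_monic hlift hp
    refine ⟨q, hqm, ι_inj (ι := ι) ?_⟩
    rw [map_zero, ← eval₂_eqm, ← Polynomial.eval₂_map, hq]
    exact hpf
  · rintro ⟨q, hqm, hqf⟩
    refine ⟨q.map ((eqm ι A : A ≃ₐ[k] A.map ι) : A →+* A.map ι), hqm.map _, ?_⟩
    rw [Polynomial.eval₂_map, eval₂_eqm, hqf, map_zero]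

/-- The integral closure upstairs. -/
theorem map_ncl (A : Subalgebra k K) : (ncl A).map ι = icl (A.map ι) ι.fieldRange := by
  ext x
  constructor
  · rintro ⟨a, ha, rfl⟩
    exact ⟨⟨a, rfl⟩, isIntegral_map_iff.2 ha⟩
  · rintro ⟨⟨a, rfl⟩, ha⟩
    exact ⟨a, isIntegral_map_iff.1 ha, rfl⟩

theorem map_locV_ncl (h : Cmp V ι w) (A : Subalgebra k K) :
    (locV V (ncl A)).map ι = ICl w (A.map ι) ι.fieldRange := by
  rw [h.map_locV, map_ncl]
  rfl

theorem map_NV (h : Cmp V ι w) (P : Submodule k K) :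
    (NV V P).map ι = ICl w ((RV V P).map ι) ι.fieldRange := map_locV_ncl h _

theorem map_RV (h : Cmp V ι w) {P : Submodule k K} {f : K} (hf : IsMin V P f) :
    (RV V P).map ι = locv w (Algebra.adjoin k ((fun g => ι g / ι f) '' (P : Set K))) := by
  rw [Pool.Agent.TG.RV_eq hf, h.map_locV, ch, AlgHom.map_adjoin, Set.image_image]
  congr 2
  exact Set.image_congr fun g _ => map_div₀ ι g f

theorem map_NV' (h : Cmp V ι w) {P : Submodule k K} {f : K} (hf : IsMin V P f) :
    (NV V P).map ι =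
      ICl w (Algebra.adjoin k ((fun g => ι g / ι f) '' (P : Set K))) ι.fieldRange := by
  rw [Pool.Agent.TG.NV_eq hf, chN, map_locV_ncl h, ch, AlgHom.map_adjoin, Set.image_image]
  congr 2
  exact Set.image_congr fun g _ => map_div₀ ι g f

/-- A subalgebra of the image comes from below. -/
theorem map_comap {T : Subalgebra k Ω} (hT : ∀ x ∈ T, x ∈ ι.fieldRange) :
    (T.comap ι).map ι = T := by
  ext x
  constructor
  · rintro ⟨a, ha, rfl⟩
    exact ha
  · intro hx
    obtain ⟨a, rfl⟩ := hT x hx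
    exact ⟨a, hx, rfl⟩

theorem map_injective : Function.Injective fun A : Subalgebra k K => A.map ι := fun A B h => by
  ext f
  rw [← mem_map_iff (ι := ι) (A := A), ← mem_map_iff (ι := ι) (A := B)]
  exact Iff.of_eq (congrArg (ι f ∈ ·) h)

/-- The valuation ring of a valuation. -/
def vr (v : OVal 𝕂 Ω) : ValuationSubring Ω where
  carrier := {f | v.Ge 0 f}
  mul_mem' := by
    intro a b ha hb
    have h := OVal.Ge.mul ha hb
    rwa [add_zero] at h
  one_mem' := fun _ => v.map_one.ge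
  add_mem' := fun ha hb => OVal.Ge.add ha hb
  zero_mem' := OVal.Ge.zero
  neg_mem' := fun ha => OVal.Ge.neg ha
  mem_or_inv_mem' := by
    intro x
    by_cases hx : x = 0
    · subst hx
      exact Or.inl OVal.Ge.zero
    · rcases le_total 0 (v x) with h | h
      · exact Or.inl fun _ => h
      · refine Or.inr fun _ => ?_
        rw [v.map_inv hx]
        linarith

theorem mem_vr {v : OVal 𝕂 Ω} {f : Ω} : f ∈ vr v ↔ v.Ge 0 f := Iff.rfl

/-- The valuation ring induced on `K`. -/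
theorem cmp_comap (v : OVal 𝕂 Ω) : Cmp ((vr v).comap (ι : K →+* Ω)) ι v := by
  intro f hf
  constructor
  · intro h
    exact h (ι_ne hf)
  · intro h _
    exact h

/-- `k` is trivially valued. -/
theorem Cmp.ov (h : Cmp V ι w) (htriv : ∀ c : k, c ≠ 0 → w (algebraMap k Ω c) = 0) : Ov k V := by
  intro c
  rw [h.mem_iff]
  intro h0
  have hc : c ≠ 0 := by
    rintro rfl
    exact h0 (by rw [map_zero, map_zero])
  rw [ι.commutes, htriv c hc]

theorem Cmp.zdim (h : Cmp V ι w) {n : ℕ} (C : Ctx0 k w n) : ZDim k V := by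
  refine ⟨h.ov C.triv, fun x hx => ?_⟩
  by_cases hx0 : x = 0
  · subst hx0
    exact ⟨0, by rw [map_zero, sub_zero, map_zero]; exact zero_lt_one⟩
  by_cases hv : w (ι x) = 0
  · obtain ⟨c, -, hc⟩ := C.res (ι x) (ι_ne hx0) hv
    refine ⟨c, (h.lt_one_iff _).2 ?_⟩
    rwa [map_sub, ι.commutes]
  · refine ⟨0, (h.lt_one_iff _).2 ?_⟩
    rw [map_zero, sub_zero]
    intro _
    exact lt_of_le_of_ne ((h x hx0).1 hx) (Ne.symm hv)

end

/-- A zero-dimensional valuation ring of a field of positive transcendence degree is not trivial. -/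
theorem zdim_ne_top {k K : Type u} [Field k] [Field K] [Algebra k K] {n : ℕ}
    (htr : Algebra.trdeg k K = n) (hn : 0 < n) {V : ValuationSubring K} (hV : ZDim k V) :
    V ≠ ⊤ := by
  rintro rfl
  have h1 : Algebra.IsAlgebraic k K := by
    refine ⟨fun x => ?_⟩
    obtain ⟨c, hc⟩ := hV.res x (ValuationSubring.mem_top x)
    have h0 : x - algebraMap k K c = 0 := by
      by_contra h0
      have h2 : (⊤ : ValuationSubring K).valuation (x - algebraMap k K c)⁻¹ ≤ 1 :=
        (ValuationSubring.valuation_le_one_iff _ _).2 (ValuationSubring.mem_top _)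
      have h3 := mul_lt_one_of_lt_of_le hc h2
      rw [← map_mul, mul_inv_cancel₀ h0, map_one] at h3
      exact lt_irrefl _ h3
    rw [sub_eq_zero.1 h0]
    exact isAlgebraic_algebraMap c
  have h2 : Algebra.trdeg k K = 0 := _root_.trdeg_eq_zero
  rw [htr] at h2
  have h3 : n = 0 := by exact_mod_cast h2
  omega

/-- **The ambient data** of a zero-dimensional valuation ring. -/
theorem exists_conv {k K : Type u} [Field k] [IsAlgClosed k] [Field K] [Algebra k K] {n : ℕ}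
    (htr : Algebra.trdeg k K = n) (hn : 0 < n) (V : ValuationSubring K) (hV : ZDim k V) :
    ∃ (𝕂 : Type u) (_ : Field 𝕂) (_ : LinearOrder 𝕂) (_ : IsStrictOrderedRing 𝕂)
      (w : OVal 𝕂 (AlgebraicClosure K)) (r : ℕ), 0 < r ∧ r ≤ n ∧
      Cmp V (IsScalarTower.toAlgHom k K (AlgebraicClosure K)) w ∧ CtxR k w n r := by
  obtain ⟨𝕂, i1, i2, i3, v, w, r, hr, hrn, hw, hv, hc⟩ :=
    Pool.Agent.ALLF.exists_ctx htr V hV.ov hV.res (zdim_ne_top htr hn hV)
  refine ⟨𝕂, i1, i2, i3, w, r, hr, hrn, fun f hf => ?_, hc⟩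
  rw [hv f hf, ← hw f hf]
  rfl

end Pool.Agent.TGL
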