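import Pool.Agent.Lib.TGL.Defs
import Pool.Agent.Lib.ALLZO.Z1a
import Pool.Agent.Lib.ALLZO.ZIdx
import Pool.Agent.Lib.TG_h80.HH
import Pool.Agent.Lib.ALLY.Icl

/-!
# TANK G, TRACK L: decomposition groups

* `decP v R' F N ≤ decP v R F N` for `R ≤ R'`, with the consequences for indices, orders, orbits;
* the dictionary between the language of valuation rings (`Lib/TG`: `stab W R₀`, `RV`, `LDeg`) and
  the language of `OVal` (`decP v R F N`).
-/

set_option autoImplicit false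

open Polynomial

namespace Pool.Agent.TGL

open Pool.Agent.TAO (OVal VPos Ctx0)
open Pool.Agent.LU1 (FracIs fixO)
open Pool.Agent.ALLO (locv icl ICl decP)
open Pool.Agent.ALLZO (NRing)
open Pool.Agent.TG (ncl up upm RV ZDim Ov IsMin IsModel rat ch stab LDeg exists_poly_of_mem_ncl
  mem_ncl_of_root)
open Pool.Agent.LU2 (locV)

universe u w

/-! ## Monotony -/

section Mono

variable {k Ω : Type u} [Field k] [Field Ω] [Algebra k Ω]
  {𝕂 : Type w} [Field 𝕂] [LinearOrder 𝕂] [IsStrictOrderedRing 𝕂] {v : OVal 𝕂 Ω}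
  {F : IntermediateField k Ω} {N : IntermediateField F Ω} {R R' : Subalgebra k Ω}

/-- The decomposition group gets smaller when the ring gets larger. -/
theorem decP_mono (h : R ≤ R') (hR' : ∀ f ∈ R', f ∈ F) : decP v R' F N ≤ decP v R F N :=
  ALLZO.H18.decP_mono h hR'

theorem decP_le (h : R ≤ R') (hR' : NRing v F R') : decP v R' F N ≤ decP v R F N :=
  decP_mono h hR'.frac.1

theorem relIndex_decP_le [FiniteDimensional F N] (h : R ≤ R') (hR' : ∀ f ∈ R', f ∈ F)
    (H : Subgroup (N ≃ₐ[F] N)) :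
    H.relIndex (decP v R' F N) ≤ H.relIndex (decP v R F N) := by
  have hfin : Finite (N ≃ₐ[F] N) := inferInstance
  exact Subgroup.relIndex_le_of_le_right (decP_mono h hR')
    (Pool.Agent.TG.relIndex_ne_zero_of_finite _ _)

theorem relIndex_decP_lt [FiniteDimensional F N] (h : R ≤ R') (hR' : ∀ f ∈ R', f ∈ F)
    {H : Subgroup (N ≃ₐ[F] N)} {p : ℕ} (hp : H.relIndex (decP v R F N) < p) :
    H.relIndex (decP v R' F N) < p := (relIndex_decP_le h hR' H).trans_lt hp

theorem card_decP_dvd (h : R ≤ R') (hR' : ∀ f ∈ R', f ∈ F) :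
    Nat.card (decP v R' F N) ∣ Nat.card (decP v R F N) :=
  Subgroup.card_dvd_of_le (decP_mono h hR')

theorem not_dvd_card_decP (h : R ≤ R') (hR' : ∀ f ∈ R', f ∈ F) {p : ℕ}
    (hp : ¬ p ∣ Nat.card (decP v R F N)) : ¬ p ∣ Nat.card (decP v R' F N) :=
  fun h1 => hp (h1.trans (card_decP_dvd h hR'))

theorem orbit_decP_subset (h : R ≤ R') (hR' : ∀ f ∈ R', f ∈ F) (a : N) :
    MulAction.orbit (decP v R' F N) a ⊆ MulAction.orbit (decP v R F N) a := by
  rintro _ ⟨σ, rfl⟩
  exact ⟨⟨σ, decP_mono h hR' σ.2⟩, rfl⟩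

theorem ncard_orbit_decP_le [FiniteDimensional F N] (h : R ≤ R') (hR' : ∀ f ∈ R', f ∈ F) (a : N) :
    (MulAction.orbit (decP v R' F N) a).ncard ≤ (MulAction.orbit (decP v R F N) a).ncard := by
  have hfin : Finite (N ≃ₐ[F] N) := inferInstance
  exact Set.ncard_le_ncard (orbit_decP_subset h hR' a) (Set.finite_range _)

theorem ncard_orbit_decP_lt [FiniteDimensional F N] (h : R ≤ R') (hR' : ∀ f ∈ R', f ∈ F) {a : N}
    {p : ℕ} (hp : (MulAction.orbit (decP v R F N) a).ncard < p) :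
    (MulAction.orbit (decP v R' F N) a).ncard < p := (ncard_orbit_decP_le h hR' a).trans_lt hp

end Mono

/-! ## The valuation ring of `v` -/

section VS

variable {Ω : Type u} [Field Ω] {𝕂 : Type w} [Field 𝕂] [LinearOrder 𝕂] [IsStrictOrderedRing 𝕂]

/-- The valuation ring of `v`. -/
def vs (v : OVal 𝕂 Ω) : ValuationSubring Ω where
  carrier := {x | v.Ge 0 x}
  mul_mem' := fun {a b} ha hb => by
    have h := OVal.Ge.mul ha hb
    rwa [add_zero] at h
  one_mem' := fun _ => by rw [v.map_one]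
  add_mem' := fun {a b} ha hb => OVal.Ge.add ha hb
  zero_mem' := OVal.Ge.zero
  neg_mem' := fun {a} ha => OVal.Ge.neg ha
  mem_or_inv_mem' := fun x => by
    by_cases h0 : x = 0
    · exact Or.inl (by subst h0; exact OVal.Ge.zero)
    · rcases le_total 0 (v x) with h | h
      · exact Or.inl fun _ => h
      · refine Or.inr fun _ => ?_
        rw [v.map_inv h0]
        exact neg_nonneg.2 h

theorem mem_vs {v : OVal 𝕂 Ω} {x : Ω} : x ∈ vs v ↔ v.Ge 0 x := Iff.rfl

theorem vs_lt_iff {v : OVal 𝕂 Ω} {x : Ω} : (vs v).valuation x < 1 ↔ VPos v x := by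
  by_cases h0 : x = 0
  · subst h0
    rw [map_zero]
    exact ⟨fun _ => VPos.zero, fun _ => zero_lt_one⟩
  · rw [Pool.Agent.TG.val_lt_one_iff' _ h0, mem_vs]
    constructor
    · intro h _
      by_contra hcon
      push Not at hcon
      exact h fun _ => by rw [v.map_inv h0]; exact neg_nonneg.2 hcon
    · intro h h1
      have h2 := h1 (inv_ne_zero h0)
      rw [v.map_inv h0] at h2
      have h3 := h h0
      linarith

theorem vs_eq_one_iff {v : OVal 𝕂 Ω} {x : Ω} : (vs v).valuation x = 1 ↔ x ≠ 0 ∧ v x = 0 := by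
  rw [eq_iff_le_not_lt, vs_lt_iff, ValuationSubring.valuation_le_one_iff, mem_vs]
  constructor
  · rintro ⟨h1, h2⟩
    have h0 : x ≠ 0 := fun h => h2 (by rw [h]; exact VPos.zero)
    refine ⟨h0, le_antisymm ?_ (h1 h0)⟩
    by_contra hcon
    push Not at hcon
    exact h2 fun _ => hcon
  · rintro ⟨h1, h2⟩
    exact ⟨fun _ => h2.ge, fun h => absurd (h h1) (by rw [h2]; exact lt_irrefl _)⟩

end VS

/-! ## The dictionary -/

section Dict

variable {k Ω F₀ : Type u} [Field k] [Field Ω] [Field F₀] [Algebra k Ω] [Algebra k F₀]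
  {𝕂 : Type w} [Field 𝕂] [LinearOrder 𝕂] [IsStrictOrderedRing 𝕂] {v : OVal 𝕂 Ω}

theorem locV_vs (v : OVal 𝕂 Ω) (S : Subalgebra k Ω) : locV (vs v) S = locv v S := by
  ext x
  constructor
  · rintro ⟨a, ha, b, hb, h1, rfl⟩
    obtain ⟨h2, h3⟩ := vs_eq_one_iff.1 h1
    exact ⟨a, ha, b, hb, h2, h3, rfl⟩
  · rintro ⟨a, ha, b, hb, h2, h3, rfl⟩
    exact ⟨a, ha, b, hb, vs_eq_one_iff.2 ⟨h2, h3⟩, rfl⟩

theorem ov_vs {n : ℕ} (h : Ctx0 k v n) : Ov k (vs v) := fun c => by
  by_cases hc : c = 0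
  · rw [hc, map_zero]
    exact (vs v).zero_mem
  · exact fun _ => by rw [h.triv c hc]

theorem zdim_vs [IsAlgClosed Ω] {n : ℕ} (h : Ctx0 k v n) : ZDim k (vs v) := by
  refine ⟨ov_vs h, fun x hx => ?_⟩
  obtain ⟨c, hc⟩ := Pool.Agent.ALLY.ctx_res h x hx
  exact ⟨c, vs_lt_iff.2 hc⟩

theorem zdim_comap {A : Type u} [Field A] [Algebra k A] (ι : A →ₐ[k] Ω)
    {V : ValuationSubring Ω} (hV : ZDim k V) : ZDim k (V.comap (ι : A →+* Ω)) := by
  refine ⟨fun c => ?_, fun x hx => ?_⟩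
  · change ι (algebraMap k A c) ∈ V
    rw [ι.commutes]
    exact hV.ov c
  · obtain ⟨c, hc⟩ := hV.res (ι x) hx
    refine ⟨c, ?_⟩
    letI : Algebra A Ω := (ι : A →+* Ω).toAlgebra
    have h1 := Pool.Agent.TG.comap_lt_one (L := A) (N := Ω) V (x - algebraMap k A c)
    refine h1.2 ?_
    change V.valuation (ι (x - algebraMap k A c)) < 1
    rw [map_sub, ι.commutes]
    exact hc

theorem isMin_vs {P : Submodule k Ω} {f : Ω} : IsMin (vs v) P f ↔ OMin v P f :=
  ⟨fun h => ⟨h.mem, h.ne, h.div⟩, fun h => ⟨h.mem, h.ne, h.div⟩⟩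

/-- The local ring of a model is its limit ring without labels. -/
theorem lim_empty (v : OVal 𝕂 Ω) (P : Submodule k Ω) : Lim v P ∅ = RV (vs v) P := by
  rw [RV, locV_vs, Lim]
  apply le_antisymm
  · refine ALLh64.locv_mono ?_
    rw [Algebra.adjoin_le_iff]
    rintro x (⟨f, g, hf, hg, rfl⟩ | ⟨m, hm, -, rfl⟩)
    · exact Algebra.subset_adjoin ⟨f, g, isMin_vs.2 hf, hg, rfl⟩
    · have h1 : m = 1 := by
        have h2 : {u : Ωˣ | (u : Ω) ∈ (∅ : Set Ω)} = ∅ := by
          ext u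
          simp
        rw [Mo, h2, Subgroup.closure_empty, Subgroup.mem_bot] at hm
        exact hm
      rw [h1, Units.val_one]
      exact Subalgebra.one_mem _
  · refine ALLh64.locv_mono ?_
    rw [rat, Algebra.adjoin_le_iff]
    rintro x ⟨f, g, hf, hg, rfl⟩
    exact Algebra.subset_adjoin (Or.inl ⟨f, g, isMin_vs.1 hf, hg, rfl⟩)

theorem lim_mono {P : Submodule k Ω} {S T : Set Ω} (h : S ⊆ T) : Lim v P S ≤ Lim v P T := by
  refine ALLh64.locv_mono (Algebra.adjoin_mono (Set.union_subset_union_right _ ?_))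
  rintro x ⟨m, hm, hm0, rfl⟩
  have h1 : {u : Ωˣ | (u : Ω) ∈ S} ⊆ {u : Ωˣ | (u : Ω) ∈ T} := fun u hu => h hu
  exact ⟨m, Subgroup.closure_mono h1 hm, hm0, rfl⟩

theorem RV_le_lim (P : Submodule k Ω) (S : Set Ω) : RV (vs v) P ≤ Lim v P S := by
  rw [← lim_empty]
  exact lim_mono (Set.empty_subset _)

variable {F : IntermediateField k Ω}

/-- `N` as an algebra over `F₀ ≅ F`. -/
@[reducible] def algF₀ (e : F₀ ≃ₐ[k] F) (N : IntermediateField F Ω) : Algebra F₀ N :=
  ((algebraMap F N).comp (e : F₀ →+* F)).toAlgebra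

section

variable (e : F₀ ≃ₐ[k] F) (N : IntermediateField F Ω)

theorem algF₀_apply (a : F₀) :
    letI := algF₀ e N
    algebraMap F₀ N a = algebraMap F N (e a) := rfl

theorem algF₀_coe (a : F₀) :
    letI := algF₀ e N
    ((algebraMap F₀ N a : N) : Ω) = (e a : Ω) := rfl

theorem tower_F₀ :
    letI := algF₀ e N
    IsScalarTower k F₀ N := by
  letI := algF₀ e N
  refine IsScalarTower.of_algebraMap_eq fun c => ?_
  change algebraMap k N c = algebraMap F N (e (algebraMap k F₀ c))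
  rw [e.commutes]
  rfl

theorem fin_F₀ [FiniteDimensional F N] :
    letI := algF₀ e N
    FiniteDimensional F₀ N := by
  letI := algF₀ e N
  exact Module.Finite.of_equiv_equiv (A₁ := F) (B₁ := N) (A₂ := F₀) (B₂ := N)
    (e.symm : F ≃+* F₀) (RingEquiv.refl N) (by
      refine RingHom.ext fun x => ?_
      change algebraMap F N (e (e.symm x)) = algebraMap F N x
      rw [e.apply_symm_apply])

theorem gal_F₀ [IsGalois F N] :
    letI := algF₀ e N
    IsGalois F₀ N := by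
  letI := algF₀ e N
  exact IsGalois.of_equiv_equiv (F := F) (E := N) (M := F₀) (N := N)
    (f := (e.symm : F ≃+* F₀)) (g := RingEquiv.refl N) (by
      refine RingHom.ext fun x => ?_
      change algebraMap F N (e (e.symm x)) = algebraMap F N x
      rw [e.apply_symm_apply])

/-- The Galois groups over `F` and `F₀`. -/
def trG :
    letI := algF₀ e N
    (N ≃ₐ[F] N) ≃* (N ≃ₐ[F₀] N) :=
  letI := algF₀ e N
  { toFun := fun σ => AlgEquiv.ofRingEquiv (f := (σ : N ≃+* N)) fun a => σ.commutes (e a)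
    invFun := fun τ => AlgEquiv.ofRingEquiv (f := (τ : N ≃+* N)) fun x => by
      have h1 := τ.commutes (e.symm x)
      have h2 : algebraMap F₀ N (e.symm x) = algebraMap F N x := by
        change algebraMap F N (e (e.symm x)) = _
        rw [e.apply_symm_apply]
      rw [h2] at h1
      exact h1
    left_inv := fun σ => by ext; rfl
    right_inv := fun τ => by ext; rfl
    map_mul' := fun σ τ => by ext; rfl }

theorem trG_apply (σ : N ≃ₐ[F] N) (a : N) :
    letI := algF₀ e N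
    trG e N σ a = σ a := rfl

end

/-- The valuation ring of `N` defined by `v`. -/
def vsN (v : OVal 𝕂 Ω) (N : IntermediateField F Ω) : ValuationSubring N :=
  (vs v).comap (algebraMap N Ω)

theorem mem_vsN {N : IntermediateField F Ω} {x : N} : x ∈ vsN v N ↔ v.Ge 0 (x : Ω) := Iff.rfl

theorem vsN_lt_iff {N : IntermediateField F Ω} {x : N} :
    (vsN v N).valuation x < 1 ↔ VPos v (x : Ω) := by
  rw [vsN, Pool.Agent.TG.comap_lt_one, vs_lt_iff]
  rfl

/-- The ring of `Ω` corresponding to a subring of `F₀`. -/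
def img (e : F₀ ≃ₐ[k] F) (R₀ : Subalgebra k F₀) : Subalgebra k Ω :=
  R₀.map ((IntermediateField.val F).comp (e : F₀ →ₐ[k] F))

theorem mem_img {e : F₀ ≃ₐ[k] F} {R₀ : Subalgebra k F₀} {x : Ω} :
    x ∈ img e R₀ ↔ ∃ a ∈ R₀, (e a : Ω) = x := Iff.rfl

theorem img_le {e : F₀ ≃ₐ[k] F} {R₀ : Subalgebra k F₀} : ∀ x ∈ img e R₀, x ∈ F := by
  rintro _ ⟨a, -, rfl⟩
  exact (e a).2

theorem coeff_iff (e : F₀ ≃ₐ[k] F) (N : IntermediateField F Ω) (R₀ : Subalgebra k F₀) (x : N) :
    letI := algF₀ e N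
    haveI := tower_F₀ e N
    x ∈ up N R₀ ↔ (x : Ω) ∈ img e R₀ := by
  letI := algF₀ e N
  haveI := tower_F₀ e N
  constructor
  · rintro ⟨a, ha, rfl⟩
    exact ⟨a, ha, rfl⟩
  · rintro ⟨a, ha, h⟩
    exact ⟨a, ha, Subtype.ext h⟩

/-- Integrality in both languages. -/
theorem ncl_iff (e : F₀ ≃ₐ[k] F) (N : IntermediateField F Ω) (R₀ : Subalgebra k F₀) (a : N) :
    letI := algF₀ e N
    haveI := tower_F₀ e N
    a ∈ ncl (up N R₀) ↔ IsIntegral (img e R₀) (a : Ω) := by
  letI := algF₀ e N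
  haveI := tower_F₀ e N
  constructor
  · intro h
    obtain ⟨P, hP, hc, h0⟩ := exists_poly_of_mem_ncl h
    refine ALLh64.isIntegral_of_coeff (P.map (algebraMap N Ω)) (hP.map _) (fun i => ?_) ?_
    · rw [coeff_map]
      exact (coeff_iff e N R₀ _).1 (hc i)
    · rw [eval_map]
      have h1 := hom_eval₂ P (RingHom.id N) (algebraMap N Ω) a
      rw [RingHom.comp_id] at h1
      have h2 : eval₂ (RingHom.id N) a P = 0 := h0
      rw [h2, map_zero] at h1
      exact h1.symm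
  · intro h
    obtain ⟨P, hP, hc, h0⟩ := ALLh64.exists_coeff_of_isIntegral h
    have h1 : P ∈ Polynomial.lifts (algebraMap N Ω) := by
      rw [Polynomial.lifts_iff_coeff_lifts]
      intro i
      obtain ⟨r, hr, h1⟩ := hc i
      exact ⟨algebraMap F₀ N r, h1⟩
    obtain ⟨q, hq, -, hqm⟩ := Polynomial.lifts_and_natDegree_eq_and_monic h1 hP
    refine mem_ncl_of_root q hqm (fun i => Pool.Agent.TG.le_ncl _ ?_) ?_
    · refine (coeff_iff e N R₀ _).2 ?_
      have h2 := hc i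
      rw [← hq, coeff_map] at h2
      exact h2
    · refine (algebraMap N Ω).injective ?_
      rw [map_zero, ← h0, ← hq, eval_map]
      have h2 := hom_eval₂ q (RingHom.id N) (algebraMap N Ω) a
      rw [RingHom.comp_id] at h2
      exact h2

/-- The decomposition groups in both languages. -/
theorem trG_mem_stab (e : F₀ ≃ₐ[k] F) (N : IntermediateField F Ω) (R₀ : Subalgebra k F₀)
    (σ : N ≃ₐ[F] N) :
    letI := algF₀ e N
    haveI := tower_F₀ e N
    trG e N σ ∈ stab (vsN v N) R₀ ↔ σ ∈ decP v (img e R₀) F N := by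
  letI := algF₀ e N
  haveI := tower_F₀ e N
  rw [Pool.Agent.TG.mem_stab]
  constructor
  · intro h a ha
    refine ⟨ALLZO.H18.int_map' (img_le (e := e)) σ ha, ALLZO.H18.int_map' (img_le (e := e)) σ⁻¹ ha, ?_⟩
    have h1 := h a ((ncl_iff e N R₀ a).2 ha)
    rw [vsN_lt_iff, vsN_lt_iff] at h1
    exact h1.symm
  · intro h a ha
    rw [vsN_lt_iff, vsN_lt_iff]
    exact (h a ((ncl_iff e N R₀ a).1 ha)).2.2.symm

theorem map_decP (e : F₀ ≃ₐ[k] F) (N : IntermediateField F Ω) (R₀ : Subalgebra k F₀) :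
    letI := algF₀ e N
    haveI := tower_F₀ e N
    (decP v (img e R₀) F N).map (trG e N : (N ≃ₐ[F] N) →* (N ≃ₐ[F₀] N)) = stab (vsN v N) R₀ := by
  letI := algF₀ e N
  haveI := tower_F₀ e N
  ext τ
  constructor
  · rintro ⟨σ, hσ, rfl⟩
    exact (trG_mem_stab e N R₀ σ).2 hσ
  · intro h
    refine ⟨(trG e N).symm τ, (trG_mem_stab e N R₀ _).1 ?_, ?_⟩
    · rw [(trG e N).apply_symm_apply]
      exact h
    · exact (trG e N).apply_symm_apply τ

/-- (H2): a bound of the local degrees in the language of valuation rings. -/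
theorem relIndex_decP_le_of_LDeg {M : Type u} [Field M] [Algebra F₀ M] {v₀ : ValuationSubring F₀}
    {R₀ : Subalgebra k F₀} {d : ℕ} (hdeg : LDeg M v₀ R₀ d) (e : F₀ ≃ₐ[k] F)
    (hv : ∀ a : F₀, a ∈ v₀ ↔ v.Ge 0 ((e a : F) : Ω)) (N : IntermediateField F Ω)
    [FiniteDimensional F N] [IsGalois F N] (H : Subgroup (N ≃ₐ[F] N)) (j : M →+* N)
    (hj : ∀ a : F₀, j (algebraMap F₀ M a) = algebraMap F N (e a))
    (hH : ∀ σ, (∀ m : M, σ (j m) = j m) → σ ∈ H) :
    H.relIndex (decP v (img e R₀) F N) ≤ d := by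
  letI := algF₀ e N
  haveI := tower_F₀ e N
  haveI := fin_F₀ e N
  haveI := gal_F₀ e N
  let j' : M →ₐ[F₀] N := { j with commutes' := hj }
  have h1 := hdeg N j' (vsN v N) (by
    ext a
    exact (hv a).symm)
  rw [← map_decP (v := v) e N R₀] at h1
  refine le_trans ?_ h1
  have h2 : j'.fieldRange.fixingSubgroup ≤ H.map (trG e N : (N ≃ₐ[F] N) →* (N ≃ₐ[F₀] N)) := by
    intro τ hτ
    refine ⟨(trG e N).symm τ, hH _ fun m => ?_, (trG e N).apply_symm_apply τ⟩
    rw [IntermediateField.mem_fixingSubgroup_iff] at hτ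
    exact hτ (j m) ⟨m, rfl⟩
  have hfin : Finite (N ≃ₐ[F₀] N) := inferInstance
  rw [← Subgroup.relIndex_map_map_of_injective (f := (trG e N : (N ≃ₐ[F] N) →* (N ≃ₐ[F₀] N))) H
    (decP v (img e R₀) F N) (trG e N).injective]
  exact Subgroup.relIndex_le_of_le_left h2 (Pool.Agent.TG.relIndex_ne_zero_of_finite _ _)

/-- (H3): the orbits in both languages. -/
theorem ncard_orbit_stab (e : F₀ ≃ₐ[k] F) (N : IntermediateField F Ω) (R₀ : Subalgebra k F₀)
    (a : N) :
    letI := algF₀ e N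
    haveI := tower_F₀ e N
    (MulAction.orbit (decP v (img e R₀) F N) a).ncard =
      (MulAction.orbit (stab (vsN v N) R₀) a).ncard := by
  letI := algF₀ e N
  haveI := tower_F₀ e N
  congr 1
  ext b
  constructor
  · rintro ⟨σ, rfl⟩
    exact ⟨⟨trG e N σ, (trG_mem_stab e N R₀ _).2 σ.2⟩, rfl⟩
  · rintro ⟨τ, rfl⟩
    refine ⟨⟨(trG e N).symm τ, (trG_mem_stab e N R₀ _).1 ?_⟩, rfl⟩
    rw [(trG e N).apply_symm_apply]
    exact τ.2

/-- (H3): a bound of the orbits in the language of valuation rings. -/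
theorem ncard_orbit_decP_le_of_stab [IsAlgClosed Ω] {n : ℕ} (h : Ctx0 k v n) {f : F₀[X]}
    {P₀ : Submodule k F₀} {d : ℕ}
    (horb : ∀ (L : Type u) [Field L] [Algebra k L] [Algebra F₀ L] [IsScalarTower k F₀ L]
      [FiniteDimensional F₀ L] [IsGalois F₀ L] (V : ValuationSubring L), ZDim k V →
      ∀ s : L, aeval s f = 0 →
        (MulAction.orbit (stab V (RV (V.comap (algebraMap F₀ L)) P₀)) s).ncard ≤ d)
    (e : F₀ ≃ₐ[k] F) {v₀ : ValuationSubring F₀}
    (hv : ∀ a : F₀, a ∈ v₀ ↔ v.Ge 0 ((e a : F) : Ω)) (N : IntermediateField F Ω)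
    [FiniteDimensional F N] [IsGalois F N] (a : N)
    (ha : (f.map ((algebraMap F Ω).comp (e : F₀ →+* F))).eval (a : Ω) = 0) :
    (MulAction.orbit (decP v (img e (RV v₀ P₀)) F N) a).ncard ≤ d := by
  letI := algF₀ e N
  haveI := tower_F₀ e N
  haveI := fin_F₀ e N
  haveI := gal_F₀ e N
  have hz : ZDim k (vsN v N) := by
    exact zdim_comap (A := N) ((N.val).restrictScalars k) (zdim_vs h)
  have hcomap : (vsN v N).comap (algebraMap F₀ N) = v₀ := by
    ext a
    exact (hv a).symm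
  have h1 := horb N (vsN v N) hz a (by
    refine (algebraMap N Ω).injective ?_
    rw [map_zero, aeval_def, hom_eval₂, ← eval_map]
    exact ha)
  rw [hcomap] at h1
  rw [ncard_orbit_stab]
  exact h1

/-- The local ring of a model of `F₀` in both languages. -/
theorem img_RV (e : F₀ ≃ₐ[k] F) {v₀ : ValuationSubring F₀}
    (hv : ∀ a : F₀, a ∈ v₀ ↔ v.Ge 0 ((e a : F) : Ω)) {n : ℕ} (h : Ctx0 k v n)
    {P₀ : Submodule k F₀} (hP : IsModel P₀) :
    img e (RV v₀ P₀) =
      Lim v (P₀.map ((IntermediateField.val F).comp (e : F₀ →ₐ[k] F)).toLinearMap) ∅ := by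
  letI : Algebra F₀ Ω := ((algebraMap F Ω).comp (e : F₀ →+* F)).toAlgebra
  haveI : IsScalarTower k F₀ Ω := IsScalarTower.of_algebraMap_eq fun c => by
    change algebraMap k Ω c = ((e (algebraMap k F₀ c) : F) : Ω)
    rw [e.commutes]
    rfl
  have h1 := Pool.Agent.TG.RV_upm (N := Ω) (F := F₀) (vs v) (ov_vs h) hP
  have h2 : (vs v).comap (algebraMap F₀ Ω) = v₀ := by
    ext a
    exact (hv a).symm
  rw [h2] at h1
  rw [lim_empty]
  exact h1.symm

end Dict

end Pool.Agent.TGL
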