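import Pool.Agent.Lib.TGL.Dec
import Pool.Agent.Lib.TG_h81.Proj
import Pool.Agent.Lib.TGE_h58.Basic

/-!
# TANK G, TRACK L: the bounds of PROJ over `OVal`

`ι : K →ₐ[k] Ω`; `F`, `L₀` the images of `k(b, z)`, `k(b)`.
* `Proj.relIndex_le`: the local degrees of `K` over every ring `R ≤ F` containing the local ring of
  `P^(m+1)`;
* `Proj.orbit_le`: the orbits on the roots of `f` over every ring containing the local ring of `P^m`;
* `not_dvd_card_of_orbit`: orbits `< p` on generators imply order prime to `p`.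
-/

set_option autoImplicit false

open Polynomial

namespace Pool.Agent.TGL

open Pool.Agent.TAO (OVal VPos Ctx0)
open Pool.Agent.LU1 (FracIs fixO mem_fixO)
open Pool.Agent.ALLO (locv icl ICl decP)
open Pool.Agent.TG (RV ZDim Ov IsModel stab LDeg LB KB PB PP spn Proj)

universe u w

section

variable {k K Ω : Type u} [Field k] [Field K] [Field Ω] [Algebra k K] [Algebra k Ω]
  {𝕂 : Type w} [Field 𝕂] [LinearOrder 𝕂] [IsStrictOrderedRing 𝕂] {v : OVal 𝕂 Ω} {n : ℕ}

/-- `E` and its image. -/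
noncomputable def eqMap (ι : K →ₐ[k] Ω) {E : IntermediateField k K} {F : IntermediateField k Ω}
    (h : F = E.map ι) : E ≃ₐ[k] F :=
  (IntermediateField.equivMap E ι).trans (IntermediateField.equivOfEq h.symm)

theorem eqMap_coe (ι : K →ₐ[k] Ω) {E : IntermediateField k K} {F : IntermediateField k Ω}
    (h : F = E.map ι) (a : E) : ((eqMap ι h a : F) : Ω) = ι a := rfl

/-- The valuation ring of `E` defined by `v`. -/
def vE (v : OVal 𝕂 Ω) (ι : K →ₐ[k] Ω) (E : IntermediateField k K) : ValuationSubring E :=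
  (vs v).comap ((ι.comp E.val : E →ₐ[k] Ω) : E →+* Ω)

theorem mem_vE {ι : K →ₐ[k] Ω} {E : IntermediateField k K} {a : E} :
    a ∈ vE v ι E ↔ v.Ge 0 (ι a) := Iff.rfl

theorem zdim_vE [IsAlgClosed Ω] (h : Ctx0 k v n) (ι : K →ₐ[k] Ω) (E : IntermediateField k K) :
    ZDim k (vE v ι E) := zdim_comap (ι.comp E.val) (zdim_vs h)

/-- The image of the local ring of a model of `E`. -/
theorem img_RV' (h : Ctx0 k v n) (ι : K →ₐ[k] Ω) {E : IntermediateField k K}
    {F : IntermediateField k Ω} (hF : F = E.map ι) {P₀ : Submodule k E} (hP : IsModel P₀) :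
    img (eqMap ι hF) (RV (vE v ι E) P₀) = Lim v (P₀.map (ι.comp E.val).toLinearMap) ∅ :=
  img_RV (eqMap ι hF) (fun _ => Iff.rfl) h hP

/-- (P1): the local degrees. -/
theorem relIndex_le_of_deg [IsAlgClosed Ω] (h : Ctx0 k v n) (ι : K →ₐ[k] Ω)
    {E : IntermediateField k K} {F : IntermediateField k Ω} (hF : F = E.map ι)
    {P₀ : Submodule k E} (hP : IsModel P₀) {d : ℕ}
    (hdeg : ∀ v₀ : ValuationSubring E, ZDim k v₀ → LDeg K v₀ (RV v₀ P₀) d)
    (N : IntermediateField F Ω) [FiniteDimensional F N] [IsGalois F N]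
    (H : Subgroup (N ≃ₐ[F] N)) (hH : fixO F N H = ι.fieldRange) {R : Subalgebra k Ω}
    (hR : Lim v (P₀.map (ι.comp E.val).toLinearMap) ∅ ≤ R) (hRF : ∀ x ∈ R, x ∈ F) :
    H.relIndex (decP v R F N) ≤ d := by
  have hmem : ∀ x : K, ∃ m : N, (m : Ω) = ι x ∧ ∀ σ ∈ H, σ m = m := by
    intro x
    have h1 : ι x ∈ fixO F N H := by
      rw [hH]
      exact ⟨x, rfl⟩
    exact (mem_fixO F N H _).1 h1
  let j : K →+* N :=
    { toFun := fun x => ⟨ι x, by obtain ⟨m, hm, -⟩ := hmem x; rw [← hm]; exact m.2⟩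
      map_one' := Subtype.ext (map_one ι)
      map_mul' := fun x y => Subtype.ext (map_mul ι x y)
      map_zero' := Subtype.ext (map_zero ι)
      map_add' := fun x y => Subtype.ext (map_add ι x y) }
  have hj : ∀ x : K, ((j x : N) : Ω) = ι x := fun _ => rfl
  have hfix : ∀ σ : N ≃ₐ[F] N, (∀ m : K, σ (j m) = j m) → σ ∈ H := by
    intro σ hσ
    rw [← IntermediateField.fixingSubgroup_fixedField H, IntermediateField.mem_fixingSubgroup_iff]
    intro m hm
    have h1 : (m : Ω) ∈ fixO F N H := (mem_fixO F N H _).2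
      ⟨m, rfl, fun s hs => (IntermediateField.mem_fixedField_iff H m).1 hm s hs⟩
    rw [hH] at h1
    obtain ⟨x, hx⟩ := h1
    have h2 : m = j x := Subtype.ext (by rw [hj]; exact hx.symm)
    rw [h2]
    exact hσ x
  have h1 := relIndex_decP_le_of_LDeg (v := v) (hdeg _ (zdim_vE h ι E)) (eqMap ι hF)
    (fun _ => Iff.rfl) N H j (fun a => Subtype.ext rfl) hfix
  rw [img_RV' h ι hF hP] at h1
  exact (relIndex_decP_le hR hRF H).trans h1

/-- (P2): the orbits on the roots. -/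
theorem ncard_orbit_le_of_orb [IsAlgClosed Ω] (h : Ctx0 k v n) (ι : K →ₐ[k] Ω)
    {E : IntermediateField k K} {L₀ : IntermediateField k Ω} (hL₀ : L₀ = E.map ι)
    {P₀ : Submodule k E} (hP : IsModel P₀) {f : E[X]} {d : ℕ}
    (horb : ∀ (L : Type u) [Field L] [Algebra k L] [Algebra E L] [IsScalarTower k E L]
      [FiniteDimensional E L] [IsGalois E L] (V : ValuationSubring L), ZDim k V →
      ∀ s : L, aeval s f = 0 →
        (MulAction.orbit (stab V (RV (V.comap (algebraMap E L)) P₀)) s).ncard ≤ d)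
    (L : IntermediateField L₀ Ω) [FiniteDimensional L₀ L] [IsGalois L₀ L] {R : Subalgebra k Ω}
    (hR : Lim v (P₀.map (ι.comp E.val).toLinearMap) ∅ ≤ R) (hRF : ∀ x ∈ R, x ∈ L₀) (a : L)
    (ha : (f.map ((ι.comp E.val : E →ₐ[k] Ω) : E →+* Ω)).eval (a : Ω) = 0) :
    (MulAction.orbit (decP v R L₀ L) a).ncard ≤ d := by
  have h1 := ncard_orbit_decP_le_of_stab h horb (eqMap ι hL₀) (v₀ := vE v ι E)
    (fun _ => Iff.rfl) L a ha
  rw [img_RV' h ι hL₀ hP] at h1
  exact (ncard_orbit_decP_le hR hRF a).trans h1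

/-- A finite group with orbits of length `< p` on a set of generators has order prime to `p`. -/
theorem not_dvd_card_of_orbit {p : ℕ} [Fact p.Prime] {L₀ : IntermediateField k Ω}
    {L : IntermediateField L₀ Ω} [FiniteDimensional L₀ L] {Rt : Set Ω}
    (hRt : IntermediateField.adjoin L₀ Rt = L) (D : Subgroup (L ≃ₐ[L₀] L))
    (hstab : ∀ σ ∈ D, ∀ a : L, (a : Ω) ∈ Rt → ((σ a : L) : Ω) ∈ Rt)
    (horb : ∀ a : L, (a : Ω) ∈ Rt → (MulAction.orbit D a).ncard < p) :
    ¬ p ∣ Nat.card D := by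
  classical
  let X : Type u := {a : L // (a : Ω) ∈ Rt}
  letI : MulAction D X :=
    { smul := fun σ a => ⟨(σ : L ≃ₐ[L₀] L) a.1, hstab σ σ.2 a.1 a.2⟩
      one_smul := fun a => Subtype.ext rfl
      mul_smul := fun σ τ a => Subtype.ext rfl }
  have hsm : ∀ (σ : D) (a : X), ((σ • a : X) : L) = (σ : L ≃ₐ[L₀] L) a.1 := fun _ _ => rfl
  haveI : FaithfulSMul D X := by
    refine ⟨fun {σ τ} hστ => ?_⟩
    have h1 : ∀ a : L, (a : Ω) ∈ Rt → (σ : L ≃ₐ[L₀] L) a = (τ : L ≃ₐ[L₀] L) a := by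
      intro a ha
      have h2 := congrArg Subtype.val (hστ ⟨a, ha⟩)
      exact h2
    let ρ : L ≃ₐ[L₀] L := (τ : L ≃ₐ[L₀] L)⁻¹ * σ
    have hρ : ∀ a : L, (a : Ω) ∈ Rt → ρ a = a := by
      intro a ha
      change (τ : L ≃ₐ[L₀] L)⁻¹ ((σ : L ≃ₐ[L₀] L) a) = a
      rw [h1 a ha, ← AlgEquiv.mul_apply, inv_mul_cancel, AlgEquiv.one_apply]
    let Fx : IntermediateField L₀ Ω :=
      (IntermediateField.fixedField (Subgroup.zpowers ρ)).map L.val
    have hmem : ∀ a : L, (a : Ω) ∈ Fx ↔ a ∈ IntermediateField.fixedField (Subgroup.zpowers ρ) := by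
      intro a
      rw [IntermediateField.mem_map]
      constructor
      · rintro ⟨c, hc, hca⟩
        have h8 : c = a := Subtype.ext hca
        rwa [← h8]
      · exact fun ha => ⟨a, ha, rfl⟩
    have hfixρ : ∀ a : L, ρ a = a → a ∈ IntermediateField.fixedField (Subgroup.zpowers ρ) := by
      intro a ha
      rw [IntermediateField.mem_fixedField_iff]
      intro g hg
      obtain ⟨i, rfl⟩ := Subgroup.mem_zpowers_iff.1 hg
      have h3 : ρ ∈ MulAction.stabilizer (L ≃ₐ[L₀] L) a := ha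
      exact (MulAction.stabilizer (L ≃ₐ[L₀] L) a).zpow_mem h3 i
    have hle : L ≤ Fx := by
      rw [← hRt, IntermediateField.adjoin_le_iff]
      intro x hx
      have hxL : x ∈ L := by
        rw [← hRt]
        exact IntermediateField.subset_adjoin _ _ hx
      exact (hmem ⟨x, hxL⟩).2 (hfixρ _ (hρ ⟨x, hxL⟩ hx))
    have hρ1 : ρ = 1 := by
      ext a
      have h4 := (hmem a).1 (hle a.2)
      rw [IntermediateField.mem_fixedField_iff] at h4
      rw [h4 ρ (Subgroup.mem_zpowers ρ)]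
      rfl
    apply Subtype.ext
    have h5 : (τ : L ≃ₐ[L₀] L) * ρ = σ := mul_inv_cancel_left _ _
    rw [hρ1, mul_one] at h5
    exact h5.symm
  have hfin : Finite (L ≃ₐ[L₀] L) := inferInstance
  have h6 := Pool.Agent.TGE58.coprime_of_orbits (G := D) (R := X) p (fun a => by
    have h7 : (MulAction.orbit D a).ncard ≤ (MulAction.orbit D (a : L)).ncard := by
      have hf : (MulAction.orbit D (a : L)).Finite := Set.finite_range _
      refine (Set.ncard_image_of_injective _ Subtype.val_injective).symm.le.trans ?_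
      refine Set.ncard_le_ncard ?_ hf
      rintro _ ⟨_, ⟨σ, rfl⟩, rfl⟩
      exact ⟨σ, rfl⟩
    exact h7.trans_lt (horb a.1 a.2))
  rw [Nat.coprime_comm, (Fact.out : p.Prime).coprime_iff_not_dvd] at h6
  exact h6

end

/-! ## PROJ -/

section Proj

variable {k K Ω : Type u} [Field k] [Field K] [Field Ω] [Algebra k K] [Algebra k Ω]
  {𝕂 : Type w} [Field 𝕂] [LinearOrder 𝕂] [IsStrictOrderedRing 𝕂] {v : OVal 𝕂 Ω} {n m : ℕ}
  {b : Fin m → K} {z : K}

/-- The image of the span of `S` in `E`. -/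
theorem map_spn (ι : K →ₐ[k] Ω) {E : IntermediateField k K} {S : Set K} (hS : S ⊆ E) :
    (spn E S).map (ι.comp E.val).toLinearMap = Submodule.span k (ι '' S) := by
  have h1 : (ι.comp E.val).toLinearMap = ι.toLinearMap.comp E.val.toLinearMap := rfl
  rw [h1, Submodule.map_comp, spn, Submodule.map_comap_eq_of_le, Submodule.map_span]
  · rfl
  · rw [Submodule.span_le]
    intro x hx
    exact ⟨⟨x, hS hx⟩, rfl⟩

theorem fg_spn {E : IntermediateField k K} {S : Set K} (hS : S ⊆ E) (hfin : S.Finite) :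
    (spn E S).FG := by
  classical
  have h1 : spn E S = Submodule.span k (Subtype.val ⁻¹' S : Set E) := by
    apply Submodule.map_injective_of_injective (f := E.val.toLinearMap) E.val.injective
    rw [spn, Submodule.map_comap_eq_of_le, Submodule.map_span]
    · congr 1
      ext x
      constructor
      · intro hx
        exact ⟨⟨x, hS hx⟩, hx, rfl⟩
      · rintro ⟨y, hy, rfl⟩
        exact hy
    · rw [Submodule.span_le]
      intro x hx
      exact ⟨⟨x, hS hx⟩, rfl⟩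
  rw [h1]
  exact Submodule.fg_span (hfin.preimage Subtype.val_injective.injOn)

theorem isModel_spn {E : IntermediateField k K} {S : Set K} (hS : S ⊆ E) (hfin : S.Finite)
    (h1 : (1 : K) ∈ S) : IsModel (spn E S) := by
  refine ⟨fg_spn hS hfin, fun h => ?_⟩
  have h2 : (1 : E) ∈ spn E S := by
    change E.val (1 : E) ∈ Submodule.span k S
    rw [map_one]
    exact Submodule.subset_span h1
  rw [h, Submodule.mem_bot] at h2
  exact one_ne_zero h2

theorem subset_LB : insert 1 (Set.range b) ⊆ (LB k b : Set K) := by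
  rintro x (rfl | hx)
  · exact one_mem _
  · exact IntermediateField.subset_adjoin _ _ hx

theorem subset_KB : insert 1 (insert z (Set.range b)) ⊆ (KB k b z : Set K) := by
  rintro x (rfl | hx)
  · exact one_mem _
  · exact IntermediateField.subset_adjoin _ _ hx

theorem isModel_PB : IsModel (PB k b) :=
  isModel_spn subset_LB ((Set.finite_range b).insert 1) (Set.mem_insert _ _)

theorem isModel_PP : IsModel (PP k b z) :=
  isModel_spn subset_KB (((Set.finite_range b).insert z).insert 1) (Set.mem_insert _ _)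

theorem map_PB (ι : K →ₐ[k] Ω) : (PB k b).map (ι.comp (LB k b).val).toLinearMap =
    Submodule.span k (insert 1 (Set.range fun i => ι (b i))) := by
  rw [PB, map_spn ι subset_LB, Set.image_insert_eq, map_one, ← Set.range_comp]
  rfl

theorem map_PP (ι : K →ₐ[k] Ω) : (PP k b z).map (ι.comp (KB k b z).val).toLinearMap =
    Submodule.span k (insert 1 (insert (ι z) (Set.range fun i => ι (b i)))) := by
  rw [PP, map_spn ι subset_KB, Set.image_insert_eq, Set.image_insert_eq, map_one,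
    ← Set.range_comp]
  rfl

variable {A₀ : Subalgebra k K} {d : ℕ} {f : (LB k b)[X]} {C : Finset K}

/-- (P1) for PROJ. `R` contains the local ring of `P^(m+1)`. -/
theorem proj_relIndex_le [IsAlgClosed Ω] (hP : Proj A₀ d b z f C) (h : Ctx0 k v n)
    (ι : K →ₐ[k] Ω) {F : IntermediateField k Ω} (hF : F = (KB k b z).map ι)
    (N : IntermediateField F Ω) [FiniteDimensional F N] [IsGalois F N]
    (H : Subgroup (N ≃ₐ[F] N)) (hH : fixO F N H = ι.fieldRange) {R : Subalgebra k Ω}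
    (hR : Lim v (Submodule.span k (insert 1 (insert (ι z) (Set.range fun i => ι (b i))))) ∅ ≤ R)
    (hRF : ∀ x ∈ R, x ∈ F) : H.relIndex (decP v R F N) ≤ d :=
  relIndex_le_of_deg h ι hF isModel_PP hP.deg N H hH (by rw [map_PP]; exact hR) hRF

/-- (P2) for PROJ. `R` contains the local ring of `P^m`. -/
theorem proj_orbit_le [IsAlgClosed Ω] (hP : Proj A₀ d b z f C) (h : Ctx0 k v n)
    (ι : K →ₐ[k] Ω) {L₀ : IntermediateField k Ω} (hL₀ : L₀ = (LB k b).map ι)
    (L : IntermediateField L₀ Ω) [FiniteDimensional L₀ L] [IsGalois L₀ L] {R : Subalgebra k Ω}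
    (hR : Lim v (Submodule.span k (insert 1 (Set.range fun i => ι (b i)))) ∅ ≤ R)
    (hRF : ∀ x ∈ R, x ∈ L₀) (a : L)
    (ha : (f.map ((ι.comp (LB k b).val : (LB k b) →ₐ[k] Ω) : (LB k b) →+* Ω)).eval (a : Ω) = 0) :
    (MulAction.orbit (decP v R L₀ L) a).ncard ≤ d :=
  ncard_orbit_le_of_orb h ι hL₀ isModel_PB hP.orb L (by rw [map_PB]; exact hR) hRF a ha

/-- (P3) for PROJ: the decomposition groups of the splitting field have order prime to `p`. -/
theorem proj_not_dvd_card [IsAlgClosed Ω] {p : ℕ} [Fact p.Prime] (hd : d < p)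
    (hP : Proj A₀ d b z f C) (h : Ctx0 k v n)
    (ι : K →ₐ[k] Ω) {L₀ : IntermediateField k Ω} (hL₀ : L₀ = (LB k b).map ι)
    (L : IntermediateField L₀ Ω) [FiniteDimensional L₀ L] [IsGalois L₀ L]
    (hL : IntermediateField.adjoin L₀ {x : Ω | (f.map ((ι.comp (LB k b).val :
      (LB k b) →ₐ[k] Ω) : (LB k b) →+* Ω)).eval x = 0} = L) {R : Subalgebra k Ω}
    (hR : Lim v (Submodule.span k (insert 1 (Set.range fun i => ι (b i)))) ∅ ≤ R)
    (hRF : ∀ x ∈ R, x ∈ L₀) : ¬ p ∣ Nat.card (decP v R L₀ L) := by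
  refine not_dvd_card_of_orbit hL _ ?_ fun a ha =>
    (proj_orbit_le hP h ι hL₀ L hR hRF a ha).trans_lt hd
  intro σ _ a ha
  let g : (LB k b) →+* L₀ := ((eqMap ι hL₀ : (LB k b) ≃ₐ[k] L₀) : (LB k b) →+* L₀)
  have hg : ((ι.comp (LB k b).val : (LB k b) →ₐ[k] Ω) : (LB k b) →+* Ω) =
      (algebraMap L Ω).comp ((algebraMap L₀ L).comp g) := RingHom.ext fun x => rfl
  have key : ∀ c : L, (f.map ((ι.comp (LB k b).val : (LB k b) →ₐ[k] Ω) :
      (LB k b) →+* Ω)).eval (c : Ω) = (((f.map g).aeval c : L) : Ω) := by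
    intro c
    have h3 := Polynomial.hom_eval₂ f ((algebraMap L₀ L).comp g) (algebraMap L Ω) c
    rw [hg, eval_map, aeval_def, eval₂_map]
    exact h3.symm
  change _ = _
  change _ = _ at ha
  rw [key] at ha ⊢
  have h1 : (f.map g).aeval a = 0 := Subtype.ext ha
  have h2 : (f.map g).aeval (σ a) = σ ((f.map g).aeval a) := aeval_algHom_apply σ.toAlgHom a (f.map g)
  rw [h2, h1, map_zero]
  rfl

end Proj

/-! ## The forms used by IND -/

section IND

variable {k K Ω : Type u} [Field k] [Field K] [Field Ω] [Algebra k K] [Algebra k Ω]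
  {𝕂 : Type w} [Field 𝕂] [LinearOrder 𝕂] [IsStrictOrderedRing 𝕂] {v : OVal 𝕂 Ω} {n : ℕ}

theorem img_le_of {ι : K →ₐ[k] Ω} {F₀ : IntermediateField k K} {F : IntermediateField k Ω}
    (hF : F = F₀.map ι) {R₀ : Subalgebra k F₀} {R : Subalgebra k Ω}
    (hR : ∀ x : F₀, x ∈ R₀ → ι x ∈ R) : img (eqMap ι hF) R₀ ≤ R := by
  rintro _ ⟨a, ha, rfl⟩
  exact hR a ha

/-- (D1): the local degrees. -/
theorem D1 (ι : K →ₐ[k] Ω) {F₀ : IntermediateField k K} {F : IntermediateField k Ω}
    (hF : F₀.map ι = F) (N : IntermediateField F Ω) [FiniteDimensional F N] [IsGalois F N]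
    (hN : ∀ x : K, ι x ∈ N) (H : Subgroup (N ≃ₐ[F] N))
    (mem_H : ∀ σ : N ≃ₐ[F] N, (∀ x : K, ∀ a : N, (a : Ω) = ι x → σ a = a) → σ ∈ H)
    {v₀ : ValuationSubring F₀} (hv₀ : ∀ x : F₀, x ∈ v₀ ↔ v.Ge 0 (ι x)) {R₀ : Subalgebra k F₀}
    {d : ℕ} (hdeg : LDeg K v₀ R₀ d) {R : Subalgebra k Ω} (hR : ∀ x : F₀, x ∈ R₀ → ι x ∈ R)
    (hRF : ∀ x ∈ R, x ∈ F) : H.relIndex (decP v R F N) ≤ d := by
  let j : K →+* N :=
    { toFun := fun x => ⟨ι x, hN x⟩
      map_one' := Subtype.ext (map_one ι)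
      map_mul' := fun x y => Subtype.ext (map_mul ι x y)
      map_zero' := Subtype.ext (map_zero ι)
      map_add' := fun x y => Subtype.ext (map_add ι x y) }
  have h1 := relIndex_decP_le_of_LDeg (v := v) hdeg (eqMap ι hF.symm) hv₀ N H j
    (fun a => Subtype.ext rfl) (fun σ hσ => mem_H σ fun x a ha => by
      have h2 : a = j x := Subtype.ext ha
      rw [h2]
      exact hσ x)
  exact (relIndex_decP_le (img_le_of hF.symm hR) hRF H).trans h1

/-- (D2): the orbits on the roots. -/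
theorem D2 [IsAlgClosed Ω] (h : Ctx0 k v n) (ι : K →ₐ[k] Ω) {L₀ : IntermediateField k K}
    {F : IntermediateField k Ω} (hF : L₀.map ι = F) {P₀ : Submodule k L₀} {f : L₀[X]} {d : ℕ}
    (horb : ∀ (L : Type u) [Field L] [Algebra k L] [Algebra L₀ L] [IsScalarTower k L₀ L]
      [FiniteDimensional L₀ L] [IsGalois L₀ L] (V : ValuationSubring L), ZDim k V →
      ∀ s : L, aeval s f = 0 →
        (MulAction.orbit (stab V (RV (V.comap (algebraMap L₀ L)) P₀)) s).ncard ≤ d)
    {v₀ : ValuationSubring L₀} (hv₀ : ∀ x : L₀, x ∈ v₀ ↔ v.Ge 0 (ι x))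
    (L : IntermediateField F Ω) [FiniteDimensional F L] [IsGalois F L] {R : Subalgebra k Ω}
    (hR : ∀ x : L₀, x ∈ RV v₀ P₀ → ι x ∈ R) (hRF : ∀ x ∈ R, x ∈ F) (a : L)
    (ha : (f.map ((ι.comp L₀.val : L₀ →ₐ[k] Ω) : L₀ →+* Ω)).eval (a : Ω) = 0) :
    (MulAction.orbit (decP v R F L) a).ncard ≤ d := by
  have h1 := ncard_orbit_decP_le_of_stab h horb (eqMap ι hF.symm) (v₀ := v₀) hv₀ L a ha
  exact (ncard_orbit_decP_le (img_le_of hF.symm hR) hRF a).trans h1

/-- (D3): order prime to `p`, `L = F(roots of f)`. -/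
theorem D3 [IsAlgClosed Ω] {p : ℕ} [Fact p.Prime] (ι : K →ₐ[k] Ω) {L₀ : IntermediateField k K}
    {F : IntermediateField k Ω} (hF : L₀.map ι = F) {f : L₀[X]}
    (L : IntermediateField F Ω) [FiniteDimensional F L]
    (hL : IntermediateField.adjoin F {x : Ω | (f.map ((ι.comp L₀.val : L₀ →ₐ[k] Ω) :
      L₀ →+* Ω)).eval x = 0} = L) (D : Subgroup (L ≃ₐ[F] L))
    (horb : ∀ a : L, (f.map ((ι.comp L₀.val : L₀ →ₐ[k] Ω) : L₀ →+* Ω)).eval (a : Ω) = 0 →
      (MulAction.orbit D a).ncard < p) : ¬ p ∣ Nat.card D := by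
  refine not_dvd_card_of_orbit hL _ ?_ fun a ha => horb a ha
  intro σ _ a ha
  let g : L₀ →+* F := ((eqMap ι hF.symm : L₀ ≃ₐ[k] F) : L₀ →+* F)
  have hg : ((ι.comp L₀.val : L₀ →ₐ[k] Ω) : L₀ →+* Ω) =
      (algebraMap L Ω).comp ((algebraMap F L).comp g) := RingHom.ext fun x => rfl
  have key : ∀ c : L, (f.map ((ι.comp L₀.val : L₀ →ₐ[k] Ω) : L₀ →+* Ω)).eval (c : Ω) =
      (((f.map g).aeval c : L) : Ω) := by
    intro c
    have h3 := Polynomial.hom_eval₂ f ((algebraMap F L).comp g) (algebraMap L Ω) c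
    rw [hg, eval_map, aeval_def, eval₂_map]
    exact h3.symm
  change _ = _
  change _ = _ at ha
  rw [key] at ha ⊢
  have h1 : (f.map g).aeval a = 0 := Subtype.ext ha
  have h2 : (f.map g).aeval (σ a) = σ ((f.map g).aeval a) := aeval_algHom_apply σ.toAlgHom a (f.map g)
  rw [h2, h1, map_zero]
  rfl

end IND

end Pool.Agent.TGL
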