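import Pool.Agent.Lib.TGB_h61.Row34b
import Pool.Agent.Lib.TGL_h44.LFT
import Pool.Agent.Lib.ALLG.Cont

/-!
# TANK G, TRACK L, row 3.4b: from the decomposition field down to `F`
-/

set_option autoImplicit false

namespace Pool.Agent.TGL

open Pool.Agent.TAO (OVal VPos Ctx0)
open Pool.Agent.LU1 (FracIs fixO mem_fixO)
open Pool.Agent.ALLO (locv icl ICl decP)
open Pool.Agent.ALLZO (NRing CN RD FD DP decP_eq ICl_eq_CN RD_nring)
open Pool.Agent.TGB61 (IsW exists_isW_zero descend_of_w)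
open Pool.Agent.TGL44

universe u w

variable {k Ω : Type u} [Field k] [Field Ω] [Algebra k Ω]
  {𝕂 : Type w} [Field 𝕂] [LinearOrder 𝕂] [IsStrictOrderedRing 𝕂] {v : OVal 𝕂 Ω} {r D n : ℕ}

theorem infinite_of_isAlgClosed (k : Type u) [Field k] [IsAlgClosed k] : Infinite k :=
  inferInstance

/-- Content valuations for limit frames of positive rank in an algebraic extension. -/
theorem exists_isW [Infinite k] (h : Ctx0 k v n) (hr : 0 < r) (hn : n = r + D)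
    (B : LF k v r D) (halg : ∀ g : Ω, IsAlgebraic B.R g) {K : IntermediateField k Ω}
    (hK : FracIs B.R K) : ∃ w : OVal 𝕂 Ω, IsW B w := by
  obtain ⟨w, hw⟩ := ALLG.exists_isCont h hr hn (B.toFR hr halg) hK
  exact ⟨w, fun γ hγ => hw.χ hγ, fun f hf => hw.ge h hr hn hf,
    fun b γ hγ h1 h2 => hw.cut h hr hn hγ h1 h2⟩

/-- Normal rings inside `W`. -/
theorem nring_dn {W : IntermediateField k Ω} {F : IntermediateField k Ω} {R : Subalgebra k Ω}
    (hW : F ≤ W) (hR : NRing v F R) : NRing (rv v W) (F.comap W.val) (dn W R) where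
  frac := frac_dn hW hR.frac
  nonneg := fun f hf => ge_rv.2 (hR.nonneg _ hf)
  loc := fun f hf h0 h1 => hR.loc _ hf (coe_ne.2 h0) h1
  normal := fun f hf hi => hR.normal _ hf
    ((isIntegral_dn fun g hg => hW (hR.frac.1 g hg)).1 hi)

/-- ROW 3.4b: from the decomposition field down to `F`. -/
theorem descend_dec_full [IsAlgClosed k] [IsAlgClosed Ω]
    (h : Ctx0 k v n) {F : IntermediateField k Ω} {N : IntermediateField F Ω}
    [FiniteDimensional F N] [IsGalois F N] {R : Subalgebra k Ω} (hR : NRing v F R)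
    (htr : Algebra.trdeg k F = ((r + D : ℕ))) (B : LF k v r D)
    (hB : ∀ f, f ∈ B.R ↔ f ∈ ICl v R (N.restrictScalars k) ∧ f ∈ fixO F N (decP v R F N))
    (hM : ∀ γ ∈ B.Γ, ∃ e : ℕ, 0 < e ∧ ∃ m ∈ F, B.Un (m / B.χ (e * γ))) :
    ∃ C : LF k v r D, C.R = R ∧ C.Γ = B.Γ ∧ (∀ γ ∈ B.Γ, B.Un (C.χ γ / B.χ γ)) ∧
      (∀ γ ∈ B.Γ, C.χ γ ∈ F) ∧ ∀ x ∈ F, B.Mono x → C.Mono x := by
  have hB' : B.R = RD v R N hR.frac.1 := by
    ext f
    rw [hB, ICl_eq_CN, decP_eq hR.frac.1]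
    exact Iff.rfl
  rcases Nat.eq_zero_or_pos r with hr | hr
  · subst hr
    obtain ⟨w, hw⟩ := exists_isW_zero B
    obtain ⟨C, h1, h2, h3, h4, h5, -⟩ := descend_of_w h hR B hB' hw hM
    exact ⟨C, h1, h2, h3, h4, h5⟩
  -- transfer to the algebraic closure of `F` in `Ω`
  set W := Wc F with hWdef
  have hFW : F ≤ W := le_Wc
  have hNW : ∀ a ∈ N, a ∈ W := N_le_Wc
  have hRW : ∀ f ∈ R, f ∈ W := fun f hf => hFW (hR.frac.1 f hf)
  have hBW : ∀ f ∈ B.R, f ∈ W := by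
    intro f hf
    obtain ⟨a, rfl, -⟩ := (mem_fixO F N _ f).1 ((hB f).1 hf).2
    exact hNW _ a.2
  have hRB : R ≤ B.R := by
    rw [hB']
    exact ALLZO.le_RD
  have hNR : NRing (rv v W) (F.comap W.val) (dn W R) := nring_dn hFW hR
  have _ : FiniteDimensional (F.comap W.val) (dnN W N) := finiteDimensional_dnN hNW
  have _ : IsGalois (F.comap W.val) (dnN W N) := isGalois_dnN hNW
  have hctx : Ctx0 k (rv v W) (r + D) := ctx_Wc h htr
  set B' : LF k (rv v W) r D := lfDn B hBW with hB'def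
  have hNr : (dnN W N).restrictScalars k = (N.restrictScalars k).comap W.val := by
    ext a
    exact Iff.rfl
  have hB1 : B'.R = RD (rv v W) (dn W R) (dnN W N) hNR.frac.1 := by
    ext a
    change (a : Ω) ∈ B.R ↔ a ∈ CN (rv v W) (dn W R) (dnN W N) ∧
      a ∈ fixO (F.comap W.val) (dnN W N) (DP (rv v W) (dn W R) (dnN W N) hNR.frac.1)
    rw [hB, ← ICl_eq_CN, hNr, ← dn_ICl hRW (fun a ha => hNW a ha), ← decP_eq hNR.frac.1,
      decP_dn hRW hNW, fixO_dn hNW]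
    exact Iff.rfl
  have halg : ∀ g : W, IsAlgebraic B'.R g := by
    intro g
    obtain ⟨P, hP, hPg⟩ := alg_dn hR.frac g
    have hle : dn W R ≤ B'.R := fun a ha => hRB ha
    let i : dn W R →+* B'.R := (Subalgebra.inclusion hle : dn W R →ₐ[k] B'.R)
    have hi : Function.Injective i := Subalgebra.inclusion_injective hle
    refine ⟨P.map i, (Polynomial.map_ne_zero_iff hi).2 hP, ?_⟩
    rw [Polynomial.aeval_def, Polynomial.eval₂_map]
    rw [Polynomial.aeval_def] at hPg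
    exact hPg
  have hfr : FracIs B'.R (FD (rv v W) (dn W R) (dnN W N) hNR.frac.1) := by
    rw [hB1]
    exact (RD_nring (N := dnN W N) hNR).frac
  obtain ⟨w, hw⟩ := exists_isW hctx hr rfl B' halg hfr
  obtain ⟨C, h1, h2, h3, h4, h5, -⟩ := descend_of_w hctx hNR B' hB1 hw (by
    intro γ hγ
    obtain ⟨e, he, m, hm, hu⟩ := hM γ hγ
    refine ⟨e, he, ⟨m, hFW hm⟩, hm, ?_⟩
    have h8 := TGB61.LF.nsmul_mem B hγ e
    have h9 : (((⟨m, hFW hm⟩ : W) / B'.χ ((e : 𝕂) * γ) : W) : Ω) = m / B.χ ((e : 𝕂) * γ) := by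
      rw [← χW_coe B hBW h8]
      rfl
    refine ⟨?_, ?_, ?_⟩
    · change (((⟨m, hFW hm⟩ : W) / B'.χ ((e : 𝕂) * γ) : W) : Ω) ∈ B.R
      rw [h9]
      exact hu.1
    · rw [← coe_ne, h9]
      exact hu.2.1
    · rw [rv_apply, h9]
      exact hu.2.2)
  have hun : ∀ a : W, B'.Un a ↔ B.Un (a : Ω) := fun a =>
    ⟨fun h => ⟨h.1, coe_ne.2 h.2.1, h.2.2⟩, fun h => ⟨h.1, coe_ne.1 h.2.1, h.2.2⟩⟩
  refine ⟨lfUp C, ?_, h2, fun γ hγ => ?_, fun γ hγ => h4 γ hγ, fun x hx hm => ?_⟩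
  · change up W C.R = R
    rw [h1, up_dn hRW]
  · have h6 := (hun _).1 (h3 γ hγ)
    have h7 : ((C.χ γ / B'.χ γ : W) : Ω) = (C.χ γ : Ω) / B.χ γ := by
      rw [← χW_coe B hBW hγ]
      rfl
    rwa [h7] at h6
  · have h6 : B'.Mono (⟨x, hFW hx⟩ : W) := by
      refine ⟨coe_ne.1 hm.1, hm.2.1, (hun _).2 ?_⟩
      have h7 : (((⟨x, hFW hx⟩ : W) / B'.χ (rv v W ⟨x, hFW hx⟩) : W) : Ω) = x / B.χ (v x) := by
        rw [← χW_coe B hBW hm.2.1]
        rfl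
      rw [h7]
      exact hm.2.2
    obtain ⟨h7, h8, h9, h10, h11⟩ := h5 _ hx h6
    exact ⟨hm.1, h8, ⟨TGL44.mem_up.2 ⟨_, h9, rfl⟩, coe_ne.2 h10, h11⟩⟩

/-- ROW 3.4b: the statement of `tgl_rows_h23.lean`. -/
theorem descend_dec {p : ℕ} [Fact p.Prime] [CharP Ω p] [IsAlgClosed k] [IsAlgClosed Ω]
    (h : Ctx0 k v n) {F : IntermediateField k Ω} {N : IntermediateField F Ω}
    [FiniteDimensional F N] [IsGalois F N] {R : Subalgebra k Ω} (hR : NRing v F R)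
    (htr : Algebra.trdeg k F = ((r + D : ℕ))) (B : LF k v r D)
    (hB : ∀ f, f ∈ B.R ↔ f ∈ ICl v R (N.restrictScalars k) ∧ f ∈ fixO F N (decP v R F N))
    (hM : ∀ γ ∈ B.Γ, ∃ e : ℕ, 0 < e ∧ ∃ m ∈ F, B.Un (m / B.χ (e * γ))) :
    ∃ C : LF k v r D, C.R = R ∧ C.Γ = B.Γ ∧ ∀ γ ∈ B.Γ, B.Un (C.χ γ / B.χ γ) := by
  obtain ⟨C, h1, h2, h3, -⟩ := descend_dec_full h hR htr B hB hM
  exact ⟨C, h1, h2, h3⟩

end Pool.Agent.TGL
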