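import Pool.Agent.Lib.TGL.Defs
import Pool.Agent.Lib.TGL_h17.Nfd
import Pool.Agent.Lib.TGB_h34.Row32
import Pool.Agent.Lib.ALLZO.Z2c

/-!
# TANK G, TRACK L: fields of fractions of limit frames

`fracIs_ICl`: the field of fractions of `ICl v R E` is `E`.  `LF.ess`: `E` is finitely generated
over `k`.  `LF.algInd`: the monomials of a good basis and the free parameters are algebraically
independent.
-/

set_option autoImplicit false

namespace Pool.Agent.TGL

open Pool.Agent.TAO (OVal VPos Ctx0)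
open Pool.Agent.LU1 (FracIs fixO)
open Pool.Agent.ALLO (locv icl ICl decP)
open Pool.Agent.ALLZO (GoodBasis PExp)
open Pool.Agent.ALLh94 (mon)

universe u w

variable {k Ω : Type u} [Field k] [Field Ω] [Algebra k Ω]
  {𝕂 : Type w} [Field 𝕂] [LinearOrder 𝕂] [IsStrictOrderedRing 𝕂] {v : OVal 𝕂 Ω} {r D n : ℕ}

/-! ### Integral closures -/

/-- Every element algebraic over the field of fractions becomes integral after multiplication by
an element of the ring. -/
theorem exists_mul_isIntegral {R : Subalgebra k Ω} {K : IntermediateField k Ω} (hR : FracIs R K)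
    {g : Ω} (hg : IsAlgebraic K g) : ∃ b ∈ R, b ≠ 0 ∧ IsIntegral R (b * g) := by
  have h2 : IsAlgebraic R g := LU1.isAlgebraic_of_frac hR hg
  obtain ⟨y, hy0, hy⟩ := h2.exists_integral_multiple
  refine ⟨y, y.2, fun h0 => hy0 (Subtype.ext h0), ?_⟩
  have : (y : Ω) * g = y • g := rfl
  rw [this]
  exact hy

theorem fracIs_icl {R : Subalgebra k Ω} {K E : IntermediateField k Ω} (hR : FracIs R K)
    (hKE : K ≤ E) (halg : ∀ g ∈ E, IsAlgebraic K g) : FracIs (icl R E) E := by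
  refine ⟨fun f hf => hf.1, fun g hg => ?_⟩
  obtain ⟨b, hb, hb0, hi⟩ := exists_mul_isIntegral hR (halg g hg)
  have hbE : b ∈ E := hKE (hR.1 b hb)
  refine ⟨b * g, ⟨mul_mem hbE hg, hi⟩, b, ⟨hbE, ?_⟩, hb0, by field_simp⟩
  exact isIntegral_algebraMap (R := R) (x := ⟨b, hb⟩)

/-- **Row FRAC (i).** -/
theorem fracIs_ICl (v : OVal 𝕂 Ω) {R : Subalgebra k Ω} {K E : IntermediateField k Ω}
    (hR : FracIs R K) (hKE : K ≤ E) (halg : ∀ g ∈ E, IsAlgebraic K g) :
    FracIs (ICl v R E) E := by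
  have h := fracIs_icl hR hKE halg
  refine ⟨fun f hf => ?_, fun g hg => ?_⟩
  · obtain ⟨a, ha, b, hb, -, -, rfl⟩ := hf
    exact div_mem ha.1 hb.1
  · obtain ⟨a, ha, b, hb, hb0, e⟩ := h.2 g hg
    exact ⟨a, ALLO.le_locv _ ha, b, ALLO.le_locv _ hb, hb0, e⟩

/-! ### Monomials -/

theorem LF.χ_mem_E (B : LF k v r D) {E : IntermediateField k Ω} (hE : FracIs B.R E) {γ : 𝕂}
    (hγ : γ ∈ B.Γ) : B.χ γ ∈ E := by
  rcases le_total 0 γ with h | h
  · exact hE.1 _ (B.χ_mem γ hγ h)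
  · have h1 : (B.χ (-γ))⁻¹ = B.χ γ := by
      rw [(TGBh34.isFr_of_LF B).mon.neg hγ, inv_inv]
    rw [← h1]
    exact inv_mem (hE.1 _ (B.χ_mem _ (B.Γ.neg_mem hγ) (by linarith)))

theorem LF.y_mem_E (B : LF k v r D) {E : IntermediateField k Ω} (hE : FracIs B.R E) (j : Fin D) :
    B.y j ∈ E := hE.1 _ (B.y_mem j)

theorem LF.χ_prod (B : LF k v r D) {u : Fin r → 𝕂} {S : Set 𝕂} (hu : GoodBasis B.Γ S u)
    (m : Fin r → ℤ) : (∑ i, (m i : 𝕂) * u i) ∈ B.Γ ∧
      B.χ (∑ i, (m i : 𝕂) * u i) = ∏ i, B.χ (u i) ^ m i :=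
  TGL17.chi_sum (TGBh34.isFr_of_LF B).toPre0 Finset.univ u hu.mem m

/-- The parameters of a basis `u` of the group. -/
def LF.t (B : LF k v r D) (u : Fin r → 𝕂) : Fin r ⊕ Fin D → Ω :=
  Sum.elim (fun i => B.χ (u i)) B.y

theorem LF.t_mem_E (B : LF k v r D) {E : IntermediateField k Ω} (hE : FracIs B.R E)
    {u : Fin r → 𝕂} {S : Set 𝕂} (hu : GoodBasis B.Γ S u) (i : Fin r ⊕ Fin D) : B.t u i ∈ E := by
  rcases i with i | j
  · exact B.χ_mem_E hE (hu.mem i)
  · exact B.y_mem_E hE j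

/-! ### Finite generation -/

/-- **Row FRAC (ii), first half.** -/
theorem LF.exists_fg (B : LF k v r D) {E : IntermediateField k Ω} (hE : FracIs B.R E) :
    ∃ G : Finset Ω, E = IntermediateField.adjoin k (G : Set Ω) := by
  classical
  obtain ⟨u, hu⟩ := ALLZO.perron B.Γ B.fg B.rk ∅ (by simp)
  obtain ⟨F, hF⟩ := B.fgen
  have hFR : ∀ f ∈ F, f ∈ B.R := fun f hf => by
    rw [hF]; exact ALLO.le_locv _ (Algebra.subset_adjoin (Or.inl hf))
  refine ⟨F ∪ Finset.univ.image fun i => B.χ (u i), le_antisymm ?_ ?_⟩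
  · intro g hg
    obtain ⟨a, ha, b, hb, -, rfl⟩ := hE.2 g hg
    have h0 : Algebra.adjoin k ((F : Set Ω) ∪ B.χ '' {γ | γ ∈ B.Γ ∧ 0 ≤ γ}) ≤
        (IntermediateField.adjoin k ((F ∪ Finset.univ.image fun i => B.χ (u i) :
          Finset Ω) : Set Ω)).toSubalgebra := by
      refine Algebra.adjoin_le ?_
      rintro f (hf | ⟨δ, ⟨hδ, -⟩, rfl⟩)
      · exact IntermediateField.subset_adjoin _ _ (by simpa using Or.inl hf)
      · obtain ⟨m, hm⟩ := hu.gen δ hδ
        have h1 := (B.χ_prod hu m).2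
        rw [← hm] at h1
        rw [SetLike.mem_coe, h1]
        exact prod_mem fun i _ => zpow_mem (IntermediateField.subset_adjoin _ _ (by simp)) _
    have h1 : ∀ f ∈ B.R, f ∈ IntermediateField.adjoin k
        ((F ∪ Finset.univ.image fun i => B.χ (u i) : Finset Ω) : Set Ω) := by
      intro f hf
      rw [hF] at hf
      obtain ⟨a, ha, b, hb, -, -, rfl⟩ := hf
      exact div_mem (h0 ha) (h0 hb)
    exact div_mem (h1 a ha) (h1 b hb)
  · rw [IntermediateField.adjoin_le_iff]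
    intro f hf
    rw [Finset.coe_union, Finset.coe_image, Finset.coe_univ, Set.image_univ] at hf
    rcases hf with hf | ⟨i, rfl⟩
    · exact hE.1 f (hFR f hf)
    · exact B.χ_mem_E hE (hu.mem i)

/-- **Row FRAC (ii).** `E` is finitely generated over `k`. -/
theorem LF.ess (B : LF k v r D) {E : IntermediateField k Ω} (hE : FracIs B.R E) :
    Algebra.EssFiniteType k E := by
  obtain ⟨G, hG⟩ := B.exists_fg hE
  rw [IntermediateField.essFiniteType_iff, hG]
  exact ⟨G, rfl⟩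

/-! ### `p`-expansions -/

section Char

variable {p : ℕ} [hp : Fact p.Prime] [CharP Ω p]

omit [CharP Ω p] in
/-- The `p`-expansion passes from a local ring to its field of fractions. -/
theorem pexp_frac {ι : Type} [Fintype ι] [DecidableEq ι] {t : ι → Ω} {N : Subalgebra k Ω}
    (hN : PExp p t (N : Set Ω)) {E : IntermediateField k Ω} (hE : FracIs N E) :
    PExp p t (E : Set Ω) := by
  intro f hf
  obtain ⟨a, ha, b, hb, hb0, rfl⟩ := hE.2 f hf
  obtain ⟨c, hc, e⟩ := hN (a * b ^ (p - 1)) (N.mul_mem ha (N.pow_mem hb _))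
  refine ⟨fun α => c α / b, fun α => E.div_mem (hE.1 _ (hc α)) (hE.1 _ hb), ?_⟩
  have h1 : b ^ p = b ^ (p - 1) * b := by
    rw [← pow_succ]
    congr 1
    have := hp.out.pos
    omega
  have h2 : a / b = (a * b ^ (p - 1)) / b ^ p := by
    rw [h1]
    have h3 : b ^ (p - 1) ≠ 0 := pow_ne_zero _ hb0
    field_simp
  rw [h2, e, Finset.sum_div]
  refine Finset.sum_congr rfl fun α _ => ?_
  rw [div_pow, mul_div_assoc]

/-- Every finite set of a limit frame lies in a level with `p`-expansions. -/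
theorem LF.exists_pexp [IsAlgClosed k] (h : Ctx0 k v n) (B : LF k v r D)
    {E : IntermediateField k Ω} (hE : FracIs B.R E) (T : Finset Ω) (hT : ∀ f ∈ T, f ∈ B.R)
    (S : Finset 𝕂) (hS : ∀ γ ∈ S, γ ∈ B.Γ ∧ 0 < γ) :
    ∃ (u : Fin r → 𝕂) (N : Subalgebra k Ω), GoodBasis B.Γ (S : Set 𝕂) u ∧
      TGL17.NR v E N (B.t u) ∧ N ≤ B.R ∧ (∀ f ∈ T, f ∈ N) ∧ PExp p (B.t u) (N : Set Ω) := by
  obtain ⟨u, N, hu, hN, hle, hTN⟩ := TGL17.exists_level' h (TGBh34.isFr_of_LF B) B.rk hE T hT S hS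
  refine ⟨u, N, hu, hN, hle, hTN, ?_⟩
  obtain ⟨F, hF⟩ := hN.fgen
  exact ALLZO.pexp_locv (fun c => IsAlgClosed.exists_pow_nat_eq c hp.out.pos) v F N hF
    (fun f hf h0 h1 => hN.inv_mem hf h0 h1)
    (fun f hf => ALLZO.ctx_residue h (hN.nonneg f hf)) hN.nonneg _ hN.mem hN.pos hN.gen

omit [CharP Ω p] in
theorem mon_single {ι : Type} [Fintype ι] [DecidableEq ι] (t : ι → Ω) (E : IntermediateField k Ω)
    (β : ι → Fin p) {d : Ω} (hd : d ∈ E) :
    ∃ c : (ι → Fin p) → Ω, (∀ α, c α ∈ (E : Set Ω)) ∧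
      ALLh94.mon t β * d ^ p = ∑ α, ALLh94.mon t α * c α ^ p := by
  classical
  refine ⟨fun α => if α = β then d else 0, fun α => ?_, ?_⟩
  · dsimp only
    split_ifs
    · exact hd
    · exact E.zero_mem
  · rw [Finset.sum_eq_single β]
    · simp only [if_true]
    · intro α _ hα
      simp only [if_neg hα]
      rw [zero_pow hp.out.ne_zero, mul_zero]
    · intro hβ
      exact absurd (Finset.mem_univ β) hβ

/-- Change of the parameters in a `p`-expansion. -/
theorem pexp_change {ι ι' : Type} [Fintype ι] [DecidableEq ι] [Fintype ι'] [DecidableEq ι']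
    {t : ι → Ω} {t' : ι' → Ω} {E : IntermediateField k Ω} (h : PExp p t (E : Set Ω))
    (h' : ∀ α : ι → Fin p, ∃ β : ι' → Fin p, ∃ c ∈ E,
      ALLh94.mon t α = ALLh94.mon t' β * c ^ p) : PExp p t' (E : Set Ω) := by
  classical
  intro f hf
  obtain ⟨c, hc, rfl⟩ := h f hf
  have key : ∀ s : Finset (ι → Fin p), ∃ e : (ι' → Fin p) → Ω, (∀ α, e α ∈ (E : Set Ω)) ∧
      ∑ α ∈ s, ALLh94.mon t α * c α ^ p = ∑ β, ALLh94.mon t' β * e β ^ p := by
    intro s
    induction s using Finset.induction_on with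
    | empty =>
      refine ⟨fun _ => 0, fun _ => E.zero_mem, ?_⟩
      simp [zero_pow hp.out.ne_zero]
    | insert α s hα ih =>
      rw [Finset.sum_insert hα]
      refine ALLZO.PExp.add_aux t' (fun a ha b hb => E.add_mem ha hb) ?_ ih
      obtain ⟨β, d, hd, e⟩ := h' α
      rw [e, mul_assoc, ← mul_pow]
      exact mon_single t' E β (E.mul_mem hd (hc α))
  exact key Finset.univ

omit hp [CharP Ω p] in
theorem zpow_mod {x : Ω} (hx : x ≠ 0) (p : ℕ) (hp : 0 < p) (m : ℤ) :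
    x ^ m = x ^ ((m % p).toNat) * (x ^ (m / p)) ^ p := by
  have h1 : 0 ≤ m % p := Int.emod_nonneg _ (by exact_mod_cast hp.ne')
  have h2 : ((m % p).toNat : ℤ) = m % p := Int.toNat_of_nonneg h1
  rw [← zpow_natCast x, ← zpow_natCast (x ^ (m / (p : ℤ))), ← zpow_mul, ← zpow_add₀ hx, h2]
  congr 1
  have := Int.emod_add_mul_ediv m p
  linarith

omit [CharP Ω p] in
theorem LF.mon_change (B : LF k v r D) {E : IntermediateField k Ω} (hE : FracIs B.R E)
    {u u' : Fin r → 𝕂} {S S' : Set 𝕂} (hu : GoodBasis B.Γ S u) (hu' : GoodBasis B.Γ S' u')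
    (α : Fin r ⊕ Fin D → Fin p) : ∃ β : Fin r ⊕ Fin D → Fin p, ∃ c ∈ E,
      ALLh94.mon (B.t u') α = ALLh94.mon (B.t u) β * c ^ p := by
  have e1 := B.χ_prod hu' fun i => ((α (Sum.inl i) : ℕ) : ℤ)
  obtain ⟨m, hm⟩ := hu.gen _ e1.1
  have e2 := B.χ_prod hu m
  have hp0 : 0 < p := hp.out.pos
  have hlt : ∀ i, (m i % p).toNat < p := fun i => by
    have h1 : 0 ≤ m i % p := Int.emod_nonneg _ (by exact_mod_cast hp0.ne')
    have h2 : m i % p < p := Int.emod_lt_of_pos _ (by exact_mod_cast hp0)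
    omega
  refine ⟨Sum.elim (fun i => ⟨(m i % p).toNat, hlt i⟩) (fun j => α (Sum.inr j)),
    ∏ i, B.χ (u i) ^ (m i / p), prod_mem fun i _ => zpow_mem (B.χ_mem_E hE (hu.mem i)) _, ?_⟩
  unfold ALLh94.mon LF.t
  rw [Fintype.prod_sum_type, Fintype.prod_sum_type]
  simp only [Sum.elim_inl, Sum.elim_inr]
  have e3 : ∏ i, B.χ (u' i) ^ (α (Sum.inl i) : ℕ) =
      (∏ i, B.χ (u i) ^ (m i % p).toNat) * (∏ i, B.χ (u i) ^ (m i / p)) ^ p := by
    have e4 := e1.2
    simp only [zpow_natCast] at e4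
    rw [← e4, hm, e2.2, ← Finset.prod_pow, ← Finset.prod_mul_distrib]
    exact Finset.prod_congr rfl fun i _ => zpow_mod (B.χ_ne _ (hu.mem i)) p hp0 (m i)
  rw [e3]
  ring

/-- `E = E^p[χ(u), y]` for every basis `u` of the group. -/
theorem LF.pexp [IsAlgClosed k] (h : Ctx0 k v n) (B : LF k v r D) {E : IntermediateField k Ω}
    (hE : FracIs B.R E) {u : Fin r → 𝕂} {S : Set 𝕂} (hu : GoodBasis B.Γ S u) :
    PExp p (B.t u) (E : Set Ω) := by
  obtain ⟨u', N, hu', hN, -, -, hexp⟩ := B.exists_pexp (p := p) h hE ∅ (by simp) ∅ (by simp)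
  exact pexp_change (pexp_frac hexp hN.frac) fun α => B.mon_change hE hu hu' α

/-- The parameters as elements of `E`. -/
def LF.tE (B : LF k v r D) {E : IntermediateField k Ω} (hE : FracIs B.R E) {u : Fin r → 𝕂}
    {S : Set 𝕂} (hu : GoodBasis B.Γ S u) (i : Fin r ⊕ Fin D) : E := ⟨B.t u i, B.t_mem_E hE hu i⟩

theorem LF.pexp_E [IsAlgClosed k] (h : Ctx0 k v n) (B : LF k v r D) {E : IntermediateField k Ω}
    (hE : FracIs B.R E) {u : Fin r → 𝕂} {S : Set 𝕂} (hu : GoodBasis B.Γ S u) :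
    PExp p (B.tE hE hu) (Set.univ : Set E) := by
  intro f _
  obtain ⟨c, hc, e⟩ := B.pexp h hE hu (f : Ω) f.2
  refine ⟨fun α => ⟨c α, hc α⟩, fun _ => trivial, Subtype.ext ?_⟩
  rw [e]
  simp only [ALLh94.mon, LF.tE, AddSubmonoidClass.coe_finsetSum, MulMemClass.coe_mul,
    SubmonoidClass.coe_finsetProd, SubmonoidClass.coe_pow]

end Char

/-- `E` is separable over `k(χ(u), y)`. -/
theorem LF.sep (p : ℕ) [Fact p.Prime] [CharP Ω p] [IsAlgClosed k] (h : Ctx0 k v n) (B : LF k v r D) {E : IntermediateField k Ω}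
    (hE : FracIs B.R E) {u : Fin r → 𝕂} {S : Set 𝕂} (hu : GoodBasis B.Γ S u) :
    Algebra.IsSeparable (IntermediateField.adjoin k (Set.range (B.tE hE hu))) E := by
  have hchar : CharP E p := (algebraMap E Ω).charP (algebraMap E Ω).injective p
  have hess : Algebra.EssFiniteType k E := B.ess hE
  exact ALLZO.sep_of_pexp (k := k) (p := p) _ (B.pexp_E h hE hu)

/-- The derivations dual to the parameters of a limit frame. -/
theorem LF.exists_dual (p : ℕ) [Fact p.Prime] [CharP Ω p] [IsAlgClosed k] (h : Ctx0 k v n) (B : LF k v r D)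
    {E : IntermediateField k Ω} (hE : FracIs B.R E) (htr : Algebra.trdeg k E = ((r + D : ℕ)))
    {u : Fin r → 𝕂} {S : Set 𝕂} (hu : GoodBasis B.Γ S u) :
    ∃ d : Fin r ⊕ Fin D → Derivation k E E,
      (∀ i j, d i (B.tE hE hu j) = if i = j then 1 else 0) ∧
        ∀ (δ : Derivation k E E) (z : E), δ z = ∑ i, δ (B.tE hE hu i) * d i z := by
  have hchar : CharP E p := (algebraMap E Ω).charP (algebraMap E Ω).injective p
  have hess : Algebra.EssFiniteType k E := B.ess hE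
  exact ALLZO.exists_dual_of_pexp (p := p) (by
    rw [htr, Fintype.card_sum, Fintype.card_fin, Fintype.card_fin]) _ (B.pexp_E h hE hu)

/-- **Row FRAC (ii), second half.** The parameters of a limit frame are algebraically
independent. -/
theorem LF.algInd (p : ℕ) [Fact p.Prime] [CharP Ω p] [IsAlgClosed k] (h : Ctx0 k v n) (B : LF k v r D)
    {E : IntermediateField k Ω} (hE : FracIs B.R E) (htr : Algebra.trdeg k E = ((r + D : ℕ)))
    {u : Fin r → 𝕂} {S : Set 𝕂} (hu : GoodBasis B.Γ S u) :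
    AlgebraicIndependent k (B.t u) := by
  have hsep := B.sep p h hE hu
  have h1 : Algebra.IsAlgebraic (Algebra.adjoin k (Set.range (B.tE hE hu))) E := by
    have h2 : Algebra.IsAlgebraic
      (IntermediateField.adjoin k (Set.range (B.tE hE hu))) E := inferInstance
    constructor
    intro x
    rw [← IntermediateField.isAlgebraic_adjoin_iff]
    exact h2.isAlgebraic x
  have h3 : AlgebraicIndependent k (B.tE hE hu) := by
    refine (Algebra.IsAlgebraic.isTranscendenceBasis_of_lift_le_trdeg_of_finite k _ ?_).1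
    rw [htr]
    simp
  exact h3.map' (f := E.val) E.val.injective

end Pool.Agent.TGL
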