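import Pool.Agent.Lib.TGL.Step
import Pool.Agent.Lib.TG.Defs

/-!
# TANK G, TRACK L: the statement of the induction, over `OVal`

`GLO k n`: one model `P` and one finite family of labels `S` such that for every embedding of `K`
into an algebraically closed field `Ω` and every valuation `v` of `Ω` (any rank) with residue field
`k` the normalised limit ring is a limit frame ring.
-/

set_option autoImplicit false

namespace Pool.Agent.TGL

open Pool.Agent.TAO (OVal VPos Ctx0)
open Pool.Agent.LU1 (FracIs fixO)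
open Pool.Agent.ALLO (locv icl ICl decP)
open Pool.Agent.TG (IsModel Fin')

universe u

section

variable {k : Type u} [Field k]

/-- The local statement: at `v` the normalised limit ring in `ι(K)` of the model `P` with the labels
`S` is the ring of a limit frame, and the elements of `Z` are monomials. -/
def AtV {K Ω 𝕂 : Type u} [Field K] [Algebra k K] [Field Ω] [Algebra k Ω] [Field 𝕂]
    [LinearOrder 𝕂] [IsStrictOrderedRing 𝕂] (v : OVal 𝕂 Ω) (n : ℕ) (ι : K →ₐ[k] Ω)
    (P : Submodule k K) (S : Set K) (Z : Set K) : Prop :=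
  ∃ (r D : ℕ) (C : LF k v r D), r + D = n ∧
    C.R = ICl v (Lim v (P.map ι.toLinearMap) (ι '' S)) ι.fieldRange ∧ FracIs C.R ι.fieldRange ∧
    C.Tors (ι '' S) ∧ C.Lab (ι '' S) ∧ ∀ z ∈ Z, C.Mono (ι z)

/-- The statement of the induction. -/
def GLO (k : Type u) [Field k] (n : ℕ) : Prop :=
  ∀ (K : Type u) [Field K] [Algebra k K], (⊤ : IntermediateField k K).FG →
    Algebra.trdeg k K = n → ∀ Z : Finset K, (∀ z ∈ Z, z ≠ 0) →
      ∃ (P : Submodule k K) (S : Finset K), IsModel P ∧ Fin' P ∧ (∀ s ∈ S, s ≠ 0) ∧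
        ∀ (Ω : Type u) [Field Ω] [Algebra k Ω] [IsAlgClosed Ω] (ι : K →ₐ[k] Ω) (𝕂 : Type u)
          [Field 𝕂] [LinearOrder 𝕂] [IsStrictOrderedRing 𝕂] (v : OVal 𝕂 Ω) (n' : ℕ),
          Ctx0 k v n' → AtV v n ι P (S : Set K) (Z : Set K)

end

end Pool.Agent.TGL
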