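import Pool.Agent.Lib.TGL.Step
import Pool.Agent.Lib.LU1_h15.Base_G0s

/-!
# TANK G, TRACK L, row GAL: field theory of `L(z) / L₀(z)`
-/

set_option autoImplicit false

namespace Pool.Agent.TGL

open Pool.Agent.TAO (OVal VPos Ctx0)

universe u w

variable {k Ω : Type u} [Field k] [Field Ω] [Algebra k Ω]

namespace Gal

variable {L₀ : IntermediateField k Ω} {L : IntermediateField L₀ Ω} {z : Ω}

theorem le_FZ (L₀ : IntermediateField k Ω) (z : Ω) : L₀ ≤ FZ L₀ z := fun _ ha =>
  IntermediateField.subset_adjoin _ _ (Or.inl ha)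

theorem z_mem_FZ (L₀ : IntermediateField k Ω) (z : Ω) : z ∈ FZ L₀ z :=
  IntermediateField.subset_adjoin _ _ (Or.inr rfl)

theorem FZ_mem_NZ {a : Ω} (ha : a ∈ FZ L₀ z) : a ∈ NZ L₀ L z :=
  (NZ L₀ L z).algebraMap_mem ⟨a, ha⟩

theorem L_mem_NZ {a : Ω} (ha : a ∈ L) : a ∈ NZ L₀ L z :=
  IntermediateField.subset_adjoin _ _ ha

theorem z_mem_NZ : z ∈ NZ L₀ L z := FZ_mem_NZ (z_mem_FZ L₀ z)

/-- The inclusion of `L₀` in `L₀(z)`. -/
noncomputable def inc (L₀ : IntermediateField k Ω) (z : Ω) : L₀ →+* FZ L₀ z :=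
  (IntermediateField.inclusion (le_FZ L₀ z)).toRingHom

theorem inc_val (a : L₀) : ((inc L₀ z a : FZ L₀ z) : Ω) = a := rfl

theorem map_map_inc (P : Polynomial L₀) :
    (P.map (inc L₀ z)).map (algebraMap (FZ L₀ z) Ω) = P.map (algebraMap L₀ Ω) := by
  rw [Polynomial.map_map]
  rfl

theorem isSplitting (P : Polynomial L₀) (hP : P.IsSplittingField L₀ L) :
    (P.map (inc L₀ z)).IsSplittingField (FZ L₀ z) (NZ L₀ L z) := by
  have hroot : (P.map (inc L₀ z)).rootSet Ω = P.rootSet Ω := by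
    classical
    rw [Polynomial.rootSet_def, Polynomial.rootSet_def, Polynomial.aroots_def,
      Polynomial.aroots_def, map_map_inc]
  rw [IntermediateField.isSplittingField_iff] at hP
  obtain ⟨h1, h2⟩ := hP
  have hsplit : (P.map (algebraMap L₀ Ω)).Splits := by
    have h3 : P.map (algebraMap L₀ Ω) = (P.map (algebraMap L₀ L)).map (algebraMap L Ω) := by
      rw [Polynomial.map_map]
      rfl
    rw [h3]
    exact h1.map _
  rw [IntermediateField.isSplittingField_iff]
  refine ⟨IntermediateField.splits_of_splits ?_ ?_, ?_⟩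
  · rw [map_map_inc]
    exact hsplit
  · intro x hx
    rw [hroot] at hx
    apply L_mem_NZ
    rw [h2]
    exact IntermediateField.subset_adjoin _ _ hx
  · rw [hroot]
    apply le_antisymm
    · rw [NZ, IntermediateField.adjoin_le_iff]
      intro x hx
      rw [SetLike.mem_coe, h2] at hx
      refine IntermediateField.adjoin_induction L₀ (p := fun x _ => x ∈
        IntermediateField.adjoin (FZ L₀ z) (P.rootSet Ω)) ?_ ?_ ?_ ?_ ?_ hx
      · exact fun x hx => IntermediateField.subset_adjoin _ _ hx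
      · exact fun a => (IntermediateField.adjoin (FZ L₀ z) (P.rootSet Ω)).algebraMap_mem
          (inc L₀ z a)
      · exact fun a b _ _ ha hb => add_mem ha hb
      · exact fun a _ ha => inv_mem ha
      · exact fun a b _ _ ha hb => mul_mem ha hb
    · rw [IntermediateField.adjoin_le_iff]
      intro x hx
      apply L_mem_NZ
      rw [h2]
      exact IntermediateField.subset_adjoin _ _ hx

theorem finiteDimensional [FiniteDimensional L₀ L] [IsGalois L₀ L] :
    FiniteDimensional (FZ L₀ z) (NZ L₀ L z) ∧ IsGalois (FZ L₀ z) (NZ L₀ L z) := by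
  obtain ⟨P, hs, hP⟩ := IsGalois.is_separable_splitting_field L₀ L
  have hP' := isSplitting (z := z) P hP
  exact ⟨Polynomial.IsSplittingField.finiteDimensional (NZ L₀ L z) (P.map (inc L₀ z)),
    IsGalois.of_separable_splitting_field (p := P.map (inc L₀ z)) (hs.map)⟩

theorem restrictScalars_eq :
    (NZ L₀ L z).restrictScalars k = FZ (L.restrictScalars k) z := by
  apply le_antisymm
  · intro x hx
    rw [IntermediateField.mem_restrictScalars] at hx
    refine IntermediateField.adjoin_induction (FZ L₀ z) (p := fun x _ => x ∈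
      FZ (L.restrictScalars k) z) ?_ ?_ ?_ ?_ ?_ hx
    · exact fun x hx => le_FZ _ _ hx
    · intro a
      have h1 : FZ L₀ z ≤ FZ (L.restrictScalars k) z := by
        rw [FZ, IntermediateField.adjoin_le_iff]
        rintro x (hx | hx)
        · exact le_FZ _ _ (L.algebraMap_mem ⟨x, hx⟩)
        · rw [Set.mem_singleton_iff] at hx
          rw [hx]
          exact z_mem_FZ _ _
      exact h1 a.2
    · exact fun a b _ _ ha hb => add_mem ha hb
    · exact fun a _ ha => inv_mem ha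
    · exact fun a b _ _ ha hb => mul_mem ha hb
  · rw [FZ, IntermediateField.adjoin_le_iff]
    rintro x (hx | hx)
    · exact L_mem_NZ hx
    · rw [Set.mem_singleton_iff] at hx
      rw [hx]
      exact z_mem_NZ

theorem trdeg_FZ (hz : Transcendental L₀ z) :
    Algebra.trdeg k (FZ L₀ z) = Algebra.trdeg k L₀ + 1 := by
  let M : IntermediateField L₀ Ω := IntermediateField.extendScalars (le_FZ L₀ z)
  have hM : ∀ x, x ∈ M ↔ x ∈ FZ L₀ z := fun x => Iff.rfl
  let z' : M := ⟨z, z_mem_FZ L₀ z⟩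
  have hz' : Transcendental L₀ z' := by
    intro h
    obtain ⟨P, hP, h0⟩ := h
    refine hz ⟨P, hP, ?_⟩
    have h1 := congrArg (algebraMap M Ω) h0
    rw [map_zero] at h1
    rw [← h1, Polynomial.aeval_def, Polynomial.aeval_def, Polynomial.hom_eval₂]
    rfl
  have h1 : Algebra.trdeg L₀ M = 1 := by
    apply le_antisymm
    · have h2 : IntermediateField.adjoin L₀ ({z'} : Set M) = ⊤ := by
        rw [eq_top_iff]
        rintro ⟨x, hx⟩ -
        have h3 : x ∈ (IntermediateField.adjoin L₀ ({z'} : Set M)).map M.val := by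
          have h4 : FZ L₀ z ≤ ((IntermediateField.adjoin L₀ ({z'} : Set M)).map
              M.val).restrictScalars k := by
            rw [FZ, IntermediateField.adjoin_le_iff]
            rintro y (hy | hy)
            · exact ((IntermediateField.adjoin L₀ ({z'} : Set M)).map M.val).algebraMap_mem
                ⟨y, hy⟩
            · rw [Set.mem_singleton_iff] at hy
              rw [hy]
              exact ⟨z', IntermediateField.subset_adjoin _ _ rfl, rfl⟩
          exact h4 ((hM x).1 hx)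
        obtain ⟨y, hy, hyx⟩ := h3
        have h5 : y = ⟨x, hx⟩ := Subtype.ext hyx
        rw [← h5]
        exact hy
      have h6 := LU1.trdeg_le_of_isAlgebraic (k := L₀) (L := M) {z'} (by
        rw [h2]
        exact ⟨fun x => isAlgebraic_algebraMap (⟨x, trivial⟩ :
          (⊤ : IntermediateField L₀ M))⟩)
      simpa using h6
    · have h7 : AlgebraicIndependent L₀ (fun _ : Unit => z') :=
        algebraicIndependent_unique_type_iff.2 hz'
      have h8 := h7.lift_cardinalMk_le_trdeg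
      simpa using h8
  have h2 : Algebra.trdeg k L₀ + Algebra.trdeg L₀ M = Algebra.trdeg k M :=
    trdeg_add_eq k L₀
  rw [h1] at h2
  rw [h2]
  rfl

end Gal

variable {L₀ : IntermediateField k Ω} {L : IntermediateField L₀ Ω} {z : Ω}

open Gal in
/-- ROW GAL: field theory of `L(z) / L₀(z)`. -/
theorem galois_NZ [FiniteDimensional L₀ L] [IsGalois L₀ L]
    (hz : Transcendental (L.restrictScalars k) z) :
    FiniteDimensional (FZ L₀ z) (NZ L₀ L z) ∧ IsGalois (FZ L₀ z) (NZ L₀ L z) ∧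
      (NZ L₀ L z).restrictScalars k = FZ (L.restrictScalars k) z ∧
      Algebra.trdeg k (FZ L₀ z) = Algebra.trdeg k L₀ + 1 := by
  refine ⟨finiteDimensional.1, finiteDimensional.2, restrictScalars_eq, trdeg_FZ ?_⟩
  intro h
  refine hz ?_
  obtain ⟨P, hP, h0⟩ := h
  let φ : L₀ →+* L.restrictScalars k := algebraMap L₀ L
  refine ⟨P.map φ, (Polynomial.map_ne_zero_iff φ.injective).2 hP, ?_⟩
  rw [Polynomial.aeval_def, Polynomial.eval₂_map]
  exact h0

namespace Gal

section restrict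

variable [FiniteDimensional L₀ L] [IsGalois L₀ L]

/-- The restriction of `σ` to `L`, with values in `Ω`. -/
noncomputable def resΩ (σ : NZ L₀ L z ≃ₐ[FZ L₀ z] NZ L₀ L z) : L →ₐ[L₀] Ω where
  toFun b := ((σ ⟨b, L_mem_NZ b.2⟩ : NZ L₀ L z) : Ω)
  map_one' := by
    have h : (⟨((1 : L) : Ω), L_mem_NZ (1 : L).2⟩ : NZ L₀ L z) = 1 := rfl
    rw [h, map_one]
    rfl
  map_mul' a b := by
    have h : (⟨((a * b : L) : Ω), L_mem_NZ (a * b).2⟩ : NZ L₀ L z) =
        ⟨a, L_mem_NZ a.2⟩ * ⟨b, L_mem_NZ b.2⟩ := rfl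
    rw [h, map_mul]
    rfl
  map_zero' := by
    have h : (⟨((0 : L) : Ω), L_mem_NZ (0 : L).2⟩ : NZ L₀ L z) = 0 := rfl
    rw [h, map_zero]
    rfl
  map_add' a b := by
    have h : (⟨((a + b : L) : Ω), L_mem_NZ (a + b).2⟩ : NZ L₀ L z) =
        ⟨a, L_mem_NZ a.2⟩ + ⟨b, L_mem_NZ b.2⟩ := rfl
    rw [h, map_add]
    rfl
  commutes' c := by
    have h := σ.commutes (inc L₀ z c)
    have h2 := congrArg (fun x : NZ L₀ L z => (x : Ω)) h
    exact h2

omit [FiniteDimensional L₀ L] [IsGalois L₀ L] in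
theorem resΩ_apply (σ : NZ L₀ L z ≃ₐ[FZ L₀ z] NZ L₀ L z) (b : L) :
    resΩ σ b = ((σ ⟨b, L_mem_NZ b.2⟩ : NZ L₀ L z) : Ω) := rfl

omit [FiniteDimensional L₀ L] in
theorem resΩ_mem (σ : NZ L₀ L z ≃ₐ[FZ L₀ z] NZ L₀ L z) (b : L) : resΩ σ b ∈ L := by
  have h := AlgHom.fieldRange_of_normal (E := L) (resΩ σ)
  exact (SetLike.ext_iff.1 h _).1 ⟨b, rfl⟩

/-- The restriction of `σ` to `L`. -/
noncomputable def resL (σ : NZ L₀ L z ≃ₐ[FZ L₀ z] NZ L₀ L z) : L ≃ₐ[L₀] L :=
  AlgEquiv.ofBijective ((resΩ σ).codRestrict L.toSubalgebra (resΩ_mem σ))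
    (AlgHom.bijective _)

theorem resL_val (σ : NZ L₀ L z ≃ₐ[FZ L₀ z] NZ L₀ L z) (b : L) :
    ((resL σ b : L) : Ω) = ((σ ⟨b, L_mem_NZ b.2⟩ : NZ L₀ L z) : Ω) := rfl

end restrict

end Gal

open Gal in
/-- ROW GAL: restriction to `L`. -/
theorem exists_restrict [FiniteDimensional L₀ L] [IsGalois L₀ L]
    (_hz : Transcendental (L.restrictScalars k) z) :
    ∃ φ : (NZ L₀ L z ≃ₐ[FZ L₀ z] NZ L₀ L z) →* (L ≃ₐ[L₀] L), Function.Injective φ ∧
      ∀ σ, ∀ a : NZ L₀ L z, ∀ b : L, (a : Ω) = b → ((σ a : NZ L₀ L z) : Ω) = (φ σ b : L) := by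
  refine ⟨MonoidHom.mk' resL ?_, ?_, ?_⟩
  · intro σ τ
    ext b
    rw [resL_val, AlgEquiv.mul_apply, AlgEquiv.mul_apply, resL_val]
    congr 2
  · intro σ τ hστ
    have h1 : ∀ b : L, ((σ ⟨b, L_mem_NZ b.2⟩ : NZ L₀ L z) : Ω) =
        ((τ ⟨b, L_mem_NZ b.2⟩ : NZ L₀ L z) : Ω) := by
      intro b
      have h2 : resL σ b = resL τ b := DFunLike.congr_fun hστ b
      rw [← resL_val, ← resL_val, h2]
    have h3 : σ.toAlgHom = τ.toAlgHom := by
      refine IntermediateField.algHom_ext_of_eq_adjoin _ (s := (L : Set Ω)) rfl ?_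
      intro x hx
      exact Subtype.ext (h1 ⟨x, hx⟩)
    ext a
    have h4 := DFunLike.congr_fun h3 a
    exact congrArg (fun x : NZ L₀ L z => (x : Ω)) h4
  · intro σ a b hab
    have h1 : a = ⟨b, L_mem_NZ b.2⟩ := Subtype.ext hab
    rw [h1]
    rfl

section Fz

variable {𝕂 : Type w} [Field 𝕂] [LinearOrder 𝕂] [IsStrictOrderedRing 𝕂] {v : OVal 𝕂 Ω} {r D p : ℕ}
  {PB : Submodule k Ω} {SB : Set Ω} {S : AddSubgroup Ω} {B₀ B : LF k v r D}

theorem Gal.Fz_mem [FiniteDimensional L₀ L] [IsGalois L₀ L]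
    (tr : Transcendental (L.restrictScalars k) z) (S_fin : (S : Set Ω).Finite)
    (S_mem : ∀ s ∈ S, s ∈ L)
    (S_gal : ∀ σ : L ≃ₐ[L₀] L, ∀ a : L, (a : Ω) ∈ S → ((σ a : L) : Ω) ∈ S) :
    Fz S z ∈ FZ L₀ z ∧ Fz S z ≠ 0 := by
  classical
  have hfin : Finite {a : L // (a : Ω) ∈ S} := by
    have := S_fin.to_subtype
    exact Finite.of_injective (fun a : {a : L // (a : Ω) ∈ S} => (⟨a.1, a.2⟩ : (S : Set Ω)))
      fun a b hab => Subtype.ext (Subtype.ext (congrArg (fun x : (S : Set Ω) => (x : Ω)) hab))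
  let _ : Fintype {a : L // (a : Ω) ∈ S} := Fintype.ofFinite _
  have hFz : Fz S z = ∏ a : {a : L // (a : Ω) ∈ S}, (z - ((a : L) : Ω)) := by
    rw [Fz]
    have h1 : (∏ᶠ s ∈ S, (z - s)) = ∏ s ∈ S_fin.toFinset, (z - s) :=
      finprod_mem_eq_finite_toFinset_prod (fun s => z - s) S_fin
    rw [h1]
    symm
    refine Finset.prod_bij (fun a _ => ((a : L) : Ω)) ?_ ?_ ?_ ?_
    · intro a _
      exact S_fin.mem_toFinset.2 a.2
    · intro a _ b _ hab
      exact Subtype.ext (Subtype.ext hab)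
    · intro b hb
      have hb' : b ∈ S := S_fin.mem_toFinset.1 hb
      exact ⟨⟨⟨b, S_mem b hb'⟩, hb'⟩, Finset.mem_univ _, rfl⟩
    · intro a _
      rfl
  -- the polynomial
  let Q : Polynomial L := ∏ a : {a : L // (a : Ω) ∈ S}, (Polynomial.X - Polynomial.C (a : L))
  have hQσ : ∀ σ : L ≃ₐ[L₀] L, Q.map (σ : L →+* L) = Q := by
    intro σ
    let e : {a : L // (a : Ω) ∈ S} → {a : L // (a : Ω) ∈ S} := fun a => ⟨σ a, S_gal σ a a.2⟩
    have he : Function.Injective e := fun a b hab => Subtype.ext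
      (σ.injective (congrArg (fun x : {a : L // (a : Ω) ∈ S} => (x : L)) hab))
    have he' : Function.Bijective e := Finite.injective_iff_bijective.1 he
    simp only [Q, Polynomial.map_prod, Polynomial.map_sub, Polynomial.map_X, Polynomial.map_C]
    exact Function.Bijective.prod_comp he' (fun a => Polynomial.X - Polynomial.C (a : L))
  have hcoef : ∀ i, ∃ c : L₀, algebraMap L₀ L c = Q.coeff i := by
    intro i
    have h1 : Q.coeff i ∈ Set.range (algebraMap L₀ L) := by
      rw [IsGalois.mem_range_algebraMap_iff_fixed]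
      intro σ
      have h2 := congrArg (fun P : Polynomial L => P.coeff i) (hQσ σ)
      rw [Polynomial.coeff_map] at h2
      exact h2
    exact h1
  have hev : Fz S z = (Q.map (algebraMap L Ω)).eval z := by
    rw [hFz]
    simp only [Q, Polynomial.map_prod, Polynomial.map_sub, Polynomial.map_X, Polynomial.map_C,
      Polynomial.eval_prod, Polynomial.eval_sub, Polynomial.eval_X, Polynomial.eval_C]
    rfl
  constructor
  · rw [hev, Polynomial.eval_eq_sum_range]
    refine sum_mem fun i _ => mul_mem ?_ (pow_mem (z_mem_FZ L₀ z) i)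
    obtain ⟨c, hc⟩ := hcoef i
    rw [Polynomial.coeff_map, ← hc]
    exact le_FZ L₀ z c.2
  · rw [hFz]
    refine Finset.prod_ne_zero_iff.2 fun a _ => ?_
    intro h0
    refine tr ?_
    have h1 : z = ((⟨((a : L) : Ω), (a : L).2⟩ : L.restrictScalars k) : Ω) := sub_eq_zero.1 h0
    rw [h1]
    exact isAlgebraic_algebraMap _

/-- ROW GAL. -/
theorem SD.Fz_mem [FiniteDimensional L₀ L] [IsGalois L₀ L]
    (sd : SD (v := v) p L₀ L z PB SB S B₀ B) : Fz S z ∈ FZ L₀ z ∧ Fz S z ≠ 0 :=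
  Gal.Fz_mem sd.tr sd.S_fin sd.S_mem sd.S_gal

end Fz

end Pool.Agent.TGL
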