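import Pool.Agent.Lib.TGL.Defs

/-!
# TANK G, TRACK L, row UNIT: units of `C[1 / χ]` are monomials, integrality of `s` and `1 / s`
-/

set_option autoImplicit false

open Polynomial

namespace Pool.Agent.TGL

open Pool.Agent.TAO (OVal VPos Ctx0)
open Pool.Agent.LU1 (FracIs fixO)
open Pool.Agent.ALLO (locv icl ICl decP)

universe u w

section

variable {k Ω : Type u} [Field k] [Field Ω] [Algebra k Ω]
  {𝕂 : Type w} [Field 𝕂] [LinearOrder 𝕂] [IsStrictOrderedRing 𝕂]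
  {v : OVal 𝕂 Ω} {r D : ℕ}

/-! ### Monomials -/

theorem LF.χ_zero (B : LF k v r D) : B.χ 0 = 1 := by
  have h1 := B.χ_add 0 B.Γ.zero_mem 0 B.Γ.zero_mem
  rw [add_zero] at h1
  exact mul_left_cancel₀ (B.χ_ne 0 B.Γ.zero_mem) (by rw [mul_one]; exact h1.symm)

theorem LF.χ_neg (B : LF k v r D) {γ : 𝕂} (hγ : γ ∈ B.Γ) : B.χ (-γ) = (B.χ γ)⁻¹ := by
  have h1 := B.χ_add γ hγ (-γ) (B.Γ.neg_mem hγ)
  rw [add_neg_cancel, B.χ_zero] at h1
  exact eq_inv_of_mul_eq_one_right h1.symm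

theorem LF.χ_sub (B : LF k v r D) {γ δ : 𝕂} (hγ : γ ∈ B.Γ) (hδ : δ ∈ B.Γ) :
    B.χ (γ - δ) = B.χ γ / B.χ δ := by
  rw [sub_eq_add_neg, B.χ_add γ hγ _ (B.Γ.neg_mem hδ), B.χ_neg hδ, div_eq_mul_inv]

theorem LF.χ_nsmul (B : LF k v r D) {γ : 𝕂} (hγ : γ ∈ B.Γ) (m : ℕ) :
    (m : 𝕂) * γ ∈ B.Γ ∧ B.χ ((m : 𝕂) * γ) = B.χ γ ^ m := by
  induction m with
  | zero =>
    rw [Nat.cast_zero, zero_mul, pow_zero]
    exact ⟨B.Γ.zero_mem, B.χ_zero⟩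
  | succ m ih =>
    have e : ((m + 1 : ℕ) : 𝕂) * γ = (m : 𝕂) * γ + γ := by push_cast; ring
    rw [e, pow_succ]
    exact ⟨B.Γ.add_mem ih.1 hγ, by rw [B.χ_add _ ih.1 _ hγ, ih.2]⟩

theorem LF.abs_mem (B : LF k v r D) {γ : 𝕂} (hγ : γ ∈ B.Γ) : |γ| ∈ B.Γ := by
  rcases abs_choice γ with h | h <;> rw [h]
  · exact hγ
  · exact B.Γ.neg_mem hγ

/-- For `Γ = 0`. -/
theorem LF.eq_zero_of_rk (B : LF k v 0 D) {γ : 𝕂} (hγ : γ ∈ B.Γ) : γ = 0 := by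
  obtain ⟨X, -, -, h⟩ := B.rk
  have h1 := h γ hγ
  rw [Set.range_eq_empty, Submodule.span_empty, Submodule.mem_bot] at h1
  exact h1

theorem LF.val_nonneg (B : LF k v r D) {f : Ω} (hf : f ∈ B.R) (h0 : f ≠ 0) : 0 ≤ v f :=
  B.nonneg f hf h0

theorem LF.un_of_inv (B : LF k v r D) {f : Ω} (h0 : f ≠ 0) (hf : f ∈ B.R) (hf' : f⁻¹ ∈ B.R) :
    B.Un f := by
  refine ⟨hf, h0, le_antisymm ?_ (B.val_nonneg hf h0)⟩
  have h1 := B.val_nonneg hf' (inv_ne_zero h0)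
  rw [v.map_inv h0] at h1
  linarith

theorem LF.Un.inv {B : LF k v r D} {f : Ω} (h : B.Un f) : B.Un f⁻¹ :=
  ⟨B.loc f h.1 h.2.1 h.2.2, inv_ne_zero h.2.1, by rw [v.map_inv h.2.1, h.2.2, neg_zero]⟩

theorem LF.Un.mul {B : LF k v r D} {f g : Ω} (h : B.Un f) (h' : B.Un g) : B.Un (f * g) :=
  ⟨B.R.mul_mem h.1 h'.1, mul_ne_zero h.2.1 h'.2.1, by
    rw [v.map_mul h.2.1 h'.2.1, h.2.2, h'.2.2, add_zero]⟩

/-! ### `A[1 / χ]` -/

theorem LF.InX.of_mem {B : LF k v r D} {A : Subalgebra k Ω} {f : Ω} (hf : f ∈ A) : B.InX A f :=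
  ⟨0, B.Γ.zero_mem, by rw [B.χ_zero, one_mul]; exact hf⟩

theorem LF.InX.mono {B : LF k v r D} {A A' : Subalgebra k Ω} (h : A ≤ A') {f : Ω}
    (hf : B.InX A f) : B.InX A' f := by
  obtain ⟨γ, hγ, h1⟩ := hf
  exact ⟨γ, hγ, h h1⟩

theorem LF.InX.mul {B : LF k v r D} {A : Subalgebra k Ω} {f g : Ω} (hf : B.InX A f)
    (hg : B.InX A g) : B.InX A (f * g) := by
  obtain ⟨γ, hγ, h1⟩ := hf
  obtain ⟨δ, hδ, h2⟩ := hg
  refine ⟨γ + δ, B.Γ.add_mem hγ hδ, ?_⟩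
  rw [B.χ_add γ hγ δ hδ]
  have e : B.χ γ * B.χ δ * (f * g) = (B.χ γ * f) * (B.χ δ * g) := by ring
  rw [e]
  exact A.mul_mem h1 h2

/-- One may enlarge the exponent. -/
theorem LF.inX_le {B : LF k v r D} {A : Subalgebra k Ω} (hA : B.R ≤ A) {f : Ω} {γ δ : 𝕂}
    (hγ : γ ∈ B.Γ) (hδ : δ ∈ B.Γ) (h : γ ≤ δ) (hf : B.χ γ * f ∈ A) : B.χ δ * f ∈ A := by
  have h1 := B.Γ.sub_mem hδ hγ
  have e : B.χ δ * f = B.χ (δ - γ) * (B.χ γ * f) := by
    rw [← mul_assoc, ← B.χ_add _ h1 _ hγ, sub_add_cancel]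
  rw [e]
  exact A.mul_mem (hA (B.χ_mem _ h1 (sub_nonneg.2 h))) hf

theorem LF.InX.exists_nonneg {B : LF k v r D} {A : Subalgebra k Ω} (hA : B.R ≤ A) {f : Ω}
    (hf : B.InX A f) : ∃ γ ∈ B.Γ, 0 ≤ γ ∧ B.χ γ * f ∈ A := by
  obtain ⟨γ, hγ, h1⟩ := hf
  exact ⟨|γ|, B.abs_mem hγ, abs_nonneg γ, LF.inX_le hA hγ (B.abs_mem hγ) (le_abs_self γ) h1⟩

theorem LF.InX.add {B : LF k v r D} {A : Subalgebra k Ω} (hA : B.R ≤ A) {f g : Ω}
    (hf : B.InX A f) (hg : B.InX A g) : B.InX A (f + g) := by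
  obtain ⟨γ, hγ, h0, h1⟩ := hf.exists_nonneg hA
  obtain ⟨δ, hδ, h0', h2⟩ := hg.exists_nonneg hA
  have h3 := B.Γ.add_mem hγ hδ
  refine ⟨γ + δ, h3, ?_⟩
  rw [mul_add]
  exact A.add_mem (LF.inX_le hA hγ h3 (by linarith) h1) (LF.inX_le hA hδ h3 (by linarith) h2)

theorem LF.InX.χ {B : LF k v r D} {A : Subalgebra k Ω} {γ : 𝕂} (hγ : γ ∈ B.Γ) :
    B.InX A (B.χ γ) :=
  ⟨-γ, B.Γ.neg_mem hγ, by
    rw [← B.χ_add _ (B.Γ.neg_mem hγ) _ hγ, neg_add_cancel, B.χ_zero]; exact A.one_mem⟩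

/-- The ring `A[1 / χ]`. -/
def LF.XR (B : LF k v r D) (A : Subalgebra k Ω) (hA : B.R ≤ A) : Subalgebra k Ω where
  carrier := {f | B.InX A f}
  mul_mem' := fun hf hg => LF.InX.mul hf hg
  add_mem' := fun hf hg => LF.InX.add hA hf hg
  algebraMap_mem' := fun c => LF.InX.of_mem (A.algebraMap_mem c)

theorem LF.mem_XR {B : LF k v r D} {A : Subalgebra k Ω} {hA : B.R ≤ A} {f : Ω} :
    f ∈ B.XR A hA ↔ B.InX A f := Iff.rfl

/-- A common exponent. -/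
theorem LF.exists_common {B : LF k v r D} {A : Subalgebra k Ω} (hA : B.R ≤ A) (S : Finset Ω)
    (hS : ∀ f ∈ S, B.InX A f) : ∃ γ ∈ B.Γ, 0 ≤ γ ∧ ∀ f ∈ S, B.χ γ * f ∈ A := by
  classical
  induction S using Finset.induction_on with
  | empty => exact ⟨0, B.Γ.zero_mem, le_rfl, fun f hf => absurd hf (Finset.notMem_empty f)⟩
  | insert a S _ ih =>
    obtain ⟨γ, hγ, h0, h1⟩ := ih fun f hf => hS f (Finset.mem_insert_of_mem hf)
    obtain ⟨δ, hδ, h0', h2⟩ := (hS a (Finset.mem_insert_self a S)).exists_nonneg hA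
    have h3 := B.Γ.add_mem hγ hδ
    refine ⟨γ + δ, h3, by linarith, fun f hf => ?_⟩
    rcases Finset.mem_insert.1 hf with rfl | hf
    · exact LF.inX_le hA hδ h3 (by linarith) h2
    · exact LF.inX_le hA hγ h3 (by linarith) (h1 f hf)

/-! ### Monomials and units of `A[1 / χ]` -/

theorem LF.Mono.unX {B : LF k v r D} {A : Subalgebra k Ω} (hA : B.R ≤ A) {f : Ω}
    (h : B.Mono f) : B.UnX A f := by
  obtain ⟨h0, hγ, hu⟩ := h
  have hne := B.χ_ne _ hγ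
  refine ⟨h0, ⟨-v f, B.Γ.neg_mem hγ, ?_⟩, ⟨v f, hγ, ?_⟩⟩
  · rw [B.χ_neg hγ, inv_mul_eq_div]
    exact hA hu.1
  · have h1 := hA hu.inv.1
    rw [inv_div] at h1
    rw [← div_eq_mul_inv]
    exact h1

theorem LF.Mono.inX {B : LF k v r D} {A : Subalgebra k Ω} (hA : B.R ≤ A) {f : Ω}
    (h : B.Mono f) : B.InX A f := (h.unX hA).2.1

/-- A unit of `A[1 / χ]` of the bigger frame. -/
theorem LF.Ext.inX {B C : LF k v r D} (h : B.Ext C) {f : Ω} {A : Subalgebra k Ω} (hA : C.R ≤ A)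
    (hf : B.InX A f) : C.InX A f := by
  obtain ⟨γ, hγ, h1⟩ := hf
  refine ⟨γ, h.Γ_le γ hγ, ?_⟩
  have hu := (h.χ_un γ hγ).inv
  rw [inv_div] at hu
  have e : C.χ γ * f = C.χ γ / B.χ γ * (B.χ γ * f) := by
    rw [← mul_assoc, div_mul_cancel₀ _ (B.χ_ne γ hγ)]
  rw [e]
  exact A.mul_mem (hA hu.1) h1

theorem LF.Ext.unX {B C : LF k v r D} (h : B.Ext C) {f : Ω} {A : Subalgebra k Ω} (hA : C.R ≤ A)
    (hf : B.UnX A f) : C.UnX A f := ⟨hf.1, h.inX hA hf.2.1, h.inX hA hf.2.2⟩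

/-! ### Units of `R[1 / χ]` are monomials -/

/-- Row UNIT for `r = 0`. -/
theorem LF.UnX.mono_zero {B : LF k v 0 D} {f : Ω} (h : B.UnX B.R f) : B.Mono f := by
  obtain ⟨h0, ⟨γ, hγ, h1⟩, ⟨δ, hδ, h2⟩⟩ := h
  rw [B.eq_zero_of_rk hγ, B.χ_zero, one_mul] at h1
  rw [B.eq_zero_of_rk hδ, B.χ_zero, one_mul] at h2
  have hu := B.un_of_inv h0 h1 h2
  refine ⟨h0, by rw [hu.2.2]; exact B.Γ.zero_mem, ?_⟩
  rw [hu.2.2, B.χ_zero, div_one]
  exact hu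

/-- `w` is a content valuation of the frame. -/
structure LF.IsCont (B : LF k v r D) (w : OVal 𝕂 Ω) : Prop where
  χ : ∀ γ ∈ B.Γ, w (B.χ γ) = γ
  nonneg : ∀ f ∈ B.R, w.Ge 0 f
  val : ∀ f ∈ B.R, f ≠ 0 → w f ∈ B.Γ
  div : ∀ f ∈ B.R, f ≠ 0 → f / B.χ (w f) ∈ B.R

theorem LF.IsCont.val_inX {B : LF k v r D} {w : OVal 𝕂 Ω} (hw : B.IsCont w) {f : Ω}
    (h0 : f ≠ 0) (hf : B.InX B.R f) : w f ∈ B.Γ ∧ f / B.χ (w f) ∈ B.R := by
  obtain ⟨γ, hγ, h1⟩ := hf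
  have hne := B.χ_ne γ hγ
  have h2 := mul_ne_zero hne h0
  have h3 := hw.val _ h1 h2
  have h4 := hw.div _ h1 h2
  rw [w.map_mul hne h0, hw.χ γ hγ] at h3 h4
  have h5 : w f ∈ B.Γ := by
    have h6 := B.Γ.sub_mem h3 hγ
    rwa [add_sub_cancel_left] at h6
  refine ⟨h5, ?_⟩
  rw [B.χ_add γ hγ _ h5, mul_div_mul_left _ _ hne] at h4
  exact h4

/-- Row UNIT, with a content valuation. -/
theorem LF.IsCont.mono {B : LF k v r D} {w : OVal 𝕂 Ω} (hw : B.IsCont w) {f : Ω}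
    (h : B.UnX B.R f) : B.Mono f := by
  obtain ⟨h0, h1, h2⟩ := h
  obtain ⟨h3, h4⟩ := hw.val_inX h0 h1
  obtain ⟨-, h6⟩ := hw.val_inX (inv_ne_zero h0) h2
  rw [w.map_inv h0, B.χ_neg h3] at h6
  have hne := B.χ_ne _ h3
  have h7 : (f / B.χ (w f))⁻¹ ∈ B.R := by
    rw [inv_div]
    have e : B.χ (w f) / f = f⁻¹ / (B.χ (w f))⁻¹ := by
      rw [div_inv_eq_mul, inv_mul_eq_div]
    rw [e]
    exact h6
  have hu := B.un_of_inv (div_ne_zero h0 hne) h4 h7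
  have h8 : v f = w f := by
    have h9 := hu.2.2
    rw [v.map_div h0 hne, B.χ_val _ h3] at h9
    linarith
  exact ⟨h0, by rw [h8]; exact h3, by rw [h8]; exact hu⟩

/-- Row UNIT, with contents. -/
theorem LF.UnX.mono_of_content {B : LF k v r D}
    (hc : ∀ f ∈ B.R, f ≠ 0 → ∃ κ ∈ B.Γ, ∃ f0 ∈ B.R, ¬ B.Hi f0 ∧ f = B.χ κ * f0)
    (hp : ∀ a ∈ B.R, ∀ b ∈ B.R, B.Hi (a * b) → B.Hi a ∨ B.Hi b) {f : Ω}
    (h : B.UnX B.R f) : B.Mono f := by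
  obtain ⟨h0, ⟨γ, hγ, h1⟩, ⟨δ, hδ, h2⟩⟩ := h
  have hγ0 := B.χ_ne γ hγ
  have hδ0 := B.χ_ne δ hδ
  obtain ⟨κ, hκ, a, ha, ha0, e⟩ := hc _ h1 (mul_ne_zero hγ0 h0)
  obtain ⟨μ, hμ, b, hb, hb0, e'⟩ := hc _ h2 (mul_ne_zero hδ0 (inv_ne_zero h0))
  have hκ0 := B.χ_ne κ hκ
  have hμ0 := B.χ_ne μ hμ
  -- `a b = χ(γ + δ - κ - μ)`
  have hm : γ + δ - (κ + μ) ∈ B.Γ :=
    B.Γ.sub_mem (B.Γ.add_mem hγ hδ) (B.Γ.add_mem hκ hμ)
  have e1 : a * b = B.χ (γ + δ - (κ + μ)) := by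
    rw [B.χ_sub (B.Γ.add_mem hγ hδ) (B.Γ.add_mem hκ hμ), B.χ_add γ hγ δ hδ,
      B.χ_add κ hκ μ hμ, eq_div_iff (mul_ne_zero hκ0 hμ0)]
    have e2 : a * b * (B.χ κ * B.χ μ) = (B.χ κ * a) * (B.χ μ * b) := by ring
    rw [e2, ← e, ← e']
    field_simp
  have hle : 0 ≤ γ + δ - (κ + μ) := by
    have h3 := B.val_nonneg (B.R.mul_mem ha hb) (by rw [e1]; exact B.χ_ne _ hm)
    rw [e1, B.χ_val _ hm] at h3
    exact h3
  have hz : γ + δ - (κ + μ) = 0 := by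
    rcases hle.lt_or_eq with h3 | h3
    · exfalso
      rcases hp a ha b hb ⟨_, hm, 1, B.R.one_mem, Or.inl h3, by rw [mul_one]; exact e1⟩
        with h4 | h4
      · exact ha0 h4
      · exact hb0 h4
    · exact h3.symm
  rw [hz, B.χ_zero] at e1
  have hane : a ≠ 0 := left_ne_zero_of_mul (by rw [e1]; exact one_ne_zero)
  have hinv : a⁻¹ ∈ B.R := by
    rw [inv_eq_of_mul_eq_one_right e1]
    exact hb
  have hu := B.un_of_inv hane ha hinv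
  have hs := B.Γ.sub_mem hκ hγ
  have ef : f = B.χ (κ - γ) * a := by
    rw [B.χ_sub hκ hγ, div_mul_eq_mul_div, eq_div_iff hγ0, mul_comm f, e]
  have hv : v f = κ - γ := by
    rw [ef, v.map_mul (B.χ_ne _ hs) hane, B.χ_val _ hs, hu.2.2, add_zero]
  refine ⟨h0, by rw [hv]; exact hs, ?_⟩
  rw [hv]
  have e3 : f / B.χ (κ - γ) = a := by
    rw [ef, mul_div_cancel_left₀ _ (B.χ_ne _ hs)]
  rw [e3]
  exact hu

/-! ### Integrality -/

/-- An element which is integral over `A[1 / χ]` is, up to a monomial, integral over `A`. -/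
theorem LF.inX_of_isIntegral {B : LF k v r D} {A : Subalgebra k Ω} (hA : B.R ≤ A) {s : Ω}
    (hs : IsIntegral (B.XR A hA) s) : ∃ γ ∈ B.Γ, 0 ≤ γ ∧ IsIntegral A (B.χ γ * s) := by
  classical
  obtain ⟨P, hP, hPs⟩ := hs
  set Q : Polynomial Ω := P.map (algebraMap (B.XR A hA) Ω) with hQ
  have hQm : Q.Monic := hP.map _
  have hQs : Q.eval s = 0 := by
    rw [hQ, eval_map]
    exact hPs
  have hQc : ∀ i, B.InX A (Q.coeff i) := by
    intro i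
    rw [hQ, coeff_map]
    exact (P.coeff i).2
  obtain ⟨γ, hγ, h0, h1⟩ := LF.exists_common hA ((Finset.range (Q.natDegree + 1)).image Q.coeff)
    (by
      intro f hf
      obtain ⟨i, -, rfl⟩ := Finset.mem_image.1 hf
      exact hQc i)
  refine ⟨γ, hγ, h0, ?_⟩
  set T : Polynomial Ω := Q.scaleRoots (B.χ γ) with hT
  have hTm : T.Monic := (monic_scaleRoots_iff _).2 hQm
  have hTe : T.eval (B.χ γ * s) = 0 := by
    rw [hT]
    have h2 := scaleRoots_eval₂_mul (p := Q) (f := RingHom.id Ω) (r := s) (s := B.χ γ)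
    rw [RingHom.id_apply, ← eval, ← eval, hQs, mul_zero] at h2
    exact h2
  have hχ : B.χ γ ∈ A := hA (B.χ_mem γ hγ h0)
  have hTc : ∀ i, T.coeff i ∈ A := by
    intro i
    rw [hT, coeff_scaleRoots]
    rcases lt_trichotomy i Q.natDegree with h2 | h2 | h2
    · obtain ⟨j, hj⟩ := Nat.exists_eq_add_of_lt h2
      have e : Q.natDegree - i = j + 1 := by omega
      rw [e, pow_succ, mul_left_comm, mul_comm (Q.coeff i)]
      exact A.mul_mem (A.pow_mem hχ j) (h1 _ (Finset.mem_image_of_mem _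
        (Finset.mem_range.2 (by omega))))
    · have e : Q.natDegree - i = 0 := by omega
      rw [e, pow_zero, mul_one, h2, hQm.coeff_natDegree]
      exact A.one_mem
    · rw [coeff_eq_zero_of_natDegree_lt h2, zero_mul]
      exact A.zero_mem
  have hlift : T ∈ lifts (algebraMap A Ω) := by
    rw [lifts_iff_coeff_lifts]
    intro i
    exact ⟨⟨T.coeff i, hTc i⟩, rfl⟩
  obtain ⟨U, hU, -, hUm⟩ := lifts_and_degree_eq_and_monic hlift hTm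
  refine ⟨U, hUm, ?_⟩
  rw [← eval_map, hU]
  exact hTe

/-- If the nonzero `s` is a root of a monic polynomial with coefficients in `A[1 / χ]` whose
constant coefficient is a unit there, then `s` and `1 / s` are integral over `A[1 / χ]`. -/
theorem LF.integral_and_inv {B : LF k v r D} {A : Subalgebra k Ω} (hA : B.R ≤ A) {s : Ω}
    {P : Polynomial Ω} (hP : P.Monic) (hs : P.eval s = 0) (hc : ∀ i, B.InX A (P.coeff i))
    (h0 : P.coeff 0 ≠ 0) (h0' : B.InX A (P.coeff 0)⁻¹) :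
    s ≠ 0 ∧ IsIntegral (B.XR A hA) s ∧ IsIntegral (B.XR A hA) s⁻¹ := by
  classical
  have hne : s ≠ 0 := by
    rintro rfl
    apply h0
    rw [coeff_zero_eq_eval_zero]
    exact hs
  have hlift : P ∈ lifts (algebraMap (B.XR A hA) Ω) := by
    rw [lifts_iff_coeff_lifts]
    intro i
    exact ⟨⟨P.coeff i, hc i⟩, rfl⟩
  obtain ⟨U, hU, -, hUm⟩ := lifts_and_degree_eq_and_monic hlift hP
  have hi : IsIntegral (B.XR A hA) s := ⟨U, hUm, by rw [← eval_map, hU]; exact hs⟩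
  refine ⟨hne, hi, ?_⟩
  have hcoe : ∀ f : Ω, B.InX A f → IsIntegral (B.XR A hA) f := fun f hf =>
    isIntegral_algebraMap (R := B.XR A hA) (A := Ω) (x := ⟨f, hf⟩)
  have h1 : IsIntegral (B.XR A hA) (P.divX.eval s) := by
    rw [eval_eq_sum_range]
    refine IsIntegral.sum _ fun i _ => ?_
    refine IsIntegral.mul (hcoe _ ?_) (hi.pow i)
    rw [coeff_divX]
    exact hc _
  have h2 : P.divX.eval s * s = - P.coeff 0 := by
    have h3 := congrArg (eval s) P.divX_mul_X_add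
    rw [eval_add, eval_mul, eval_X, eval_C, hs] at h3
    exact eq_neg_of_add_eq_zero_left h3
  have h4 : s⁻¹ = -((P.coeff 0)⁻¹ * P.divX.eval s) := by
    have h5 : P.divX.eval s = -P.coeff 0 * s⁻¹ := by
      rw [← h2, mul_assoc, mul_inv_cancel₀ hne, mul_one]
    rw [h5, neg_mul, mul_neg, neg_neg, ← mul_assoc, inv_mul_cancel₀ h0, one_mul]
  rw [h4]
  exact ((hcoe _ h0').mul h1).neg

/-- `IsIntegral` over `A[1 / χ]` in terms of `icl`. -/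
theorem LF.inX_icl {B : LF k v r D} {A : Subalgebra k Ω} (hA : B.R ≤ A)
    {E : IntermediateField k Ω} (hE : ∀ f ∈ B.R, f ∈ E) {s : Ω} (hsE : s ∈ E)
    (hs : IsIntegral (B.XR A hA) s) : B.InX (icl A E) s := by
  obtain ⟨γ, hγ, h0, h1⟩ := LF.inX_of_isIntegral hA hs
  exact ⟨γ, hγ, mul_mem (hE _ (B.χ_mem γ hγ h0)) hsE, h1⟩

theorem icl_le_ICl (v : OVal 𝕂 Ω) (R : Subalgebra k Ω) (E : IntermediateField k Ω) :
    icl R E ≤ ICl v R E := fun f hf => ⟨f, hf, 1, (icl R E).one_mem, one_ne_zero, v.map_one, by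
  rw [div_one]⟩

/-- Row UNIT, second part: a root `s ∈ E` of a monic polynomial whose nonzero coefficients are
monomials, the constant coefficient not `0`, is a unit of `ICl v B.R E [1 / χ]`. -/
theorem LF.unX_of_coeff {B : LF k v r D} {E : IntermediateField k Ω} (hE : ∀ f ∈ B.R, f ∈ E)
    {s : Ω} (hsE : s ∈ E) {P : Polynomial Ω} (hP : P.Monic) (hs : P.eval s = 0)
    (hc : ∀ i, P.coeff i ≠ 0 → B.Mono (P.coeff i)) (h0 : P.coeff 0 ≠ 0) :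
    B.UnX (icl B.R E) s ∧ B.UnX (ICl v B.R E) s := by
  have hA : B.R ≤ B.R := le_rfl
  have hc' : ∀ i, B.InX B.R (P.coeff i) := by
    intro i
    by_cases h1 : P.coeff i = 0
    · rw [h1]
      exact LF.InX.of_mem B.R.zero_mem
    · exact (hc i h1).inX hA
  obtain ⟨hne, h1, h2⟩ := LF.integral_and_inv hA hP hs hc' h0 ((hc 0 h0).unX hA).2.2
  have h3 : B.UnX (icl B.R E) s :=
    ⟨hne, LF.inX_icl hA hE hsE h1, LF.inX_icl hA hE (inv_mem hsE) h2⟩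
  exact ⟨h3, h3.1, h3.2.1.mono (icl_le_ICl v _ _), h3.2.2.mono (icl_le_ICl v _ _)⟩

/-- Row UNIT, second part, for minimal polynomials: `s ≠ 0` in `E`, algebraic over `L₀`, all nonzero
coefficients of its minimal polynomial over `L₀` monomials. -/
theorem LF.unX_of_minpoly {B : LF k v r D} {L₀ E : IntermediateField k Ω}
    (hE : ∀ f ∈ B.R, f ∈ E) {s : Ω} (hsE : s ∈ E) (h0 : s ≠ 0) (hs : IsIntegral L₀ s)
    (hc : ∀ i, (minpoly L₀ s).coeff i ≠ 0 → B.Mono (((minpoly L₀ s).coeff i : L₀) : Ω)) :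
    B.UnX (icl B.R E) s ∧ B.UnX (ICl v B.R E) s := by
  refine LF.unX_of_coeff (P := (minpoly L₀ s).map (algebraMap L₀ Ω)) hE hsE
    ((minpoly.monic hs).map _) ?_ ?_ ?_
  · rw [eval_map, ← aeval_def, minpoly.aeval]
  · intro i hi
    rw [coeff_map] at hi ⊢
    refine hc i fun h1 => hi ?_
    rw [h1, map_zero]
  · rw [coeff_map]
    exact (_root_.map_ne_zero _).2 (minpoly.coeff_zero_ne_zero hs h0)

end

end Pool.Agent.TGL
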