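import Pool.Agent.Lib.TGL.Step
import Pool.Agent.Lib.TGL.Unit_h5

/-!
# TANK G, TRACK L, row INTX
-/

set_option autoImplicit false

open Polynomial

namespace Pool.Agent.TGL

open Pool.Agent.TAO (OVal VPos Ctx0)
open Pool.Agent.ALLO (locv icl ICl decP)

universe u w

variable {k Ω : Type u} [Field k] [Field Ω] [Algebra k Ω]
  {𝕂 : Type w} [Field 𝕂] [LinearOrder 𝕂] [IsStrictOrderedRing 𝕂]
  {v : OVal 𝕂 Ω} {r D : ℕ}

/-- ROW INTX: a root of a monic polynomial with coefficients `0` or monomials, constant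
term `≠ 0`. -/
theorem LF.unI_of_root (B : LF k v r D) (P : Polynomial Ω) (hP : P.Monic)
    (hc : ∀ i, P.coeff i = 0 ∨ B.Mono (P.coeff i)) (h0 : P.coeff 0 ≠ 0) {s : Ω}
    (hs : P.eval s = 0) : B.UnI s := by
  have hA : B.R ≤ B.R := le_rfl
  have hc' : ∀ i, B.InX B.R (P.coeff i) := by
    intro i
    rcases hc i with h1 | h1
    · rw [h1]
      exact LF.InX.of_mem B.R.zero_mem
    · exact h1.inX hA
  have h0m : B.Mono (P.coeff 0) := (hc 0).resolve_left h0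
  obtain ⟨hne, h1, h2⟩ := LF.integral_and_inv hA hP hs hc' h0 (h0m.unX hA).2.2
  obtain ⟨γ, hγ, -, h3⟩ := LF.inX_of_isIntegral hA h1
  obtain ⟨δ, hδ, -, h4⟩ := LF.inX_of_isIntegral hA h2
  exact ⟨hne, ⟨γ, hγ, h3⟩, ⟨δ, hδ, h4⟩⟩

theorem LF.UnI.unX {B : LF k v r D} {E : IntermediateField k Ω} (hE : ∀ f ∈ B.R, f ∈ E) {f : Ω}
    (hf : f ∈ E) (h : B.UnI f) : B.UnX (icl B.R E) f ∧ B.UnX (ICl v B.R E) f := by
  obtain ⟨h0, ⟨γ, hγ, h1⟩, ⟨δ, hδ, h2⟩⟩ := h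
  have hχ : ∀ γ ∈ B.Γ, B.χ γ ∈ E := by
    intro γ hγ
    rcases le_total 0 γ with h3 | h3
    · exact hE _ (B.χ_mem γ hγ h3)
    · have h4 := hE _ (B.χ_mem (-γ) (B.Γ.neg_mem hγ) (by linarith))
      rw [B.χ_neg hγ] at h4
      have h5 := inv_mem h4
      rwa [inv_inv] at h5
  have h3 : B.UnX (icl B.R E) f :=
    ⟨h0, ⟨γ, hγ, mul_mem (hχ γ hγ) hf, h1⟩, ⟨δ, hδ, mul_mem (hχ δ hδ) (inv_mem hf), h2⟩⟩
  exact ⟨h3, h3.1, h3.2.1.mono (icl_le_ICl v _ _), h3.2.2.mono (icl_le_ICl v _ _)⟩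

end Pool.Agent.TGL
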