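import Pool.Agent.Lib.TGL.Icl

/-!
# TANK G, TRACK L: two lemmas for the row LEVELS

`mem_of_mem_icl`: a normal local ring `R` of `F` is the intersection of `F` with its localised
integral closure in any field.  `LF.Ext.tors_unif`: a uniform exponent for `LF.Ext.tors`.
-/

set_option autoImplicit false

namespace Pool.Agent.TGL

open Pool.Agent.TAO (OVal VPos Ctx0 ge_of_isIntegral)
open Pool.Agent.LU1 (FracIs fixO)
open Pool.Agent.ALLO (locv icl ICl)
open Pool.Agent.ALLZO (NRing)
open Polynomial

universe u w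

variable {k Ω : Type u} [Field k] [Field Ω] [Algebra k Ω]
  {𝕂 : Type w} [Field 𝕂] [LinearOrder 𝕂] [IsStrictOrderedRing 𝕂] {v : OVal 𝕂 Ω}

/-- The coefficients of the minimal polynomials of integral elements over a normal ring. -/
theorem minpoly_coeff_mem {F : IntermediateField k Ω} {R : Subalgebra k Ω} (hRF : ∀ f ∈ R, f ∈ F)
    (hn : ∀ f ∈ F, IsIntegral R f → f ∈ R) {s : Ω} (hs : IsIntegral R s) (j : ℕ) :
    ((minpoly F s).coeff j : Ω) ∈ R := by
  let _ : Algebra R F := RingHom.toAlgebra
    { toFun := fun a => (⟨(a : Ω), hRF _ a.2⟩ : F)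
      map_one' := rfl
      map_mul' := fun _ _ => rfl
      map_zero' := rfl
      map_add' := fun _ _ => rfl }
  have : IsScalarTower R F Ω := IsScalarTower.of_algebraMap_eq fun a => rfl
  obtain ⟨f, hf, hfs⟩ := hs
  have hd : minpoly F s ∣ f.map (algebraMap R F) := by
    refine minpoly.dvd _ _ ?_
    rw [aeval_def, eval₂_map, ← IsScalarTower.algebraMap_eq]
    exact hfs
  have hsF : IsIntegral F s := by
    refine ⟨f.map (algebraMap R F), hf.map _, ?_⟩
    rw [eval₂_map, ← IsScalarTower.algebraMap_eq]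
    exact hfs
  have h1 := integralClosure.mem_lifts_of_monic_of_dvd_map F hf (minpoly.monic hsF) hd
  rw [lifts_iff_coeff_lifts] at h1
  obtain ⟨c, hc⟩ := h1 j
  have h2 : IsIntegral R ((minpoly F s).coeff j) := by
    rw [← hc]
    exact c.2
  refine hn _ ((minpoly F s).coeff j).2 ?_
  have h3 := h2.map (IsScalarTower.toAlgHom R F Ω)
  exact h3

/-- A normal local ring of `F` is `F ∩` its localised integral closure. -/
theorem mem_of_mem_icl {F E : IntermediateField k Ω} {R : Subalgebra k Ω} (hR : NRing v F R)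
    {x : Ω} (hx : x ∈ F) (hx' : x ∈ ICl v R E) : x ∈ R := by
  by_cases hx0 : x = 0
  · rw [hx0]; exact R.zero_mem
  obtain ⟨a, ⟨-, ha⟩, s, ⟨-, hs⟩, hs0, hvs, hxas⟩ := hx'
  have hax : a = x * s := by rw [hxas]; field_simp
  set xF : F := ⟨x, hx⟩ with hxF
  have hxF0 : xF ≠ 0 := fun h => hx0 (congrArg Subtype.val h)
  have hintF : ∀ {y : Ω}, IsIntegral R y → IsIntegral F y := by
    intro y hy
    obtain ⟨f, hf, hfy⟩ := hy
    refine ⟨f.map ({ toFun := fun a => (⟨(a : Ω), hR.frac.1 _ a.2⟩ : F)
                     map_one' := rfl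
                     map_mul' := fun _ _ => rfl
                     map_zero' := rfl
                     map_add' := fun _ _ => rfl } : R →+* F), hf.map _, ?_⟩
    rw [eval₂_map]
    exact hfy
  have hsF := hintF hs
  set P := minpoly F s with hP
  have hPm : P.Monic := minpoly.monic hsF
  -- the minimal polynomial of `a = x s`
  have hPa : P.scaleRoots xF = minpoly F a := by
    refine minpoly.unique F a ((monic_scaleRoots_iff xF).2 hPm) ?_ ?_
    · have h1 : a = algebraMap F Ω xF * s := hax
      rw [h1]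
      exact scaleRoots_aeval_eq_zero (minpoly.aeval F s)
    · intro q hq hqa
      rw [degree_scaleRoots]
      have h1 : s = algebraMap F Ω xF⁻¹ * a := by
        rw [map_inv₀, hax]
        change s = x⁻¹ * (x * s)
        rw [← mul_assoc, inv_mul_cancel₀ hx0, one_mul]
      have h2 : aeval s (q.scaleRoots xF⁻¹) = 0 := by
        rw [h1]
        exact scaleRoots_aeval_eq_zero hqa
      have h3 := minpoly.min F s ((monic_scaleRoots_iff xF⁻¹).2 hq) h2
      rwa [degree_scaleRoots] at h3
  have hcP : ∀ j, (P.coeff j : Ω) ∈ R := minpoly_coeff_mem hR.frac.1 hR.normal hs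
  have hcQ : ∀ j, ((P.coeff j : Ω)) * x ^ (P.natDegree - j) ∈ R := by
    intro j
    have h1 := minpoly_coeff_mem hR.frac.1 hR.normal ha j
    rw [← hPa, coeff_scaleRoots] at h1
    exact h1
  -- a unit coefficient
  obtain ⟨j, hj, hcj0, hvj⟩ : ∃ j < P.natDegree, (P.coeff j : Ω) ≠ 0 ∧ v (P.coeff j : Ω) = 0 := by
    by_contra hcon
    push Not at hcon
    have hpos : ∀ j < P.natDegree, VPos v (P.coeff j : Ω) := by
      intro j hj h0
      exact lt_of_le_of_ne (hR.nonneg _ (hcP j) h0) (Ne.symm (hcon j hj h0))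
    have h0 : aeval s P = 0 := minpoly.aeval F s
    rw [aeval_eq_sum_range, Finset.sum_range_succ, hPm.coeff_natDegree, one_smul] at h0
    have hsge : v.Ge 0 s := fun _ => hvs.ge
    have h1 : VPos v (∑ i ∈ Finset.range P.natDegree, P.coeff i • s ^ i) := by
      have h2 : ∀ S : Finset ℕ, (∀ i ∈ S, i < P.natDegree) →
          VPos v (∑ i ∈ S, P.coeff i • s ^ i) := by
        intro S
        induction S using Finset.induction_on with
        | empty => intro _; rw [Finset.sum_empty]; exact VPos.zero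
        | insert i S hi ih =>
          intro hS
          rw [Finset.sum_insert hi]
          refine VPos.add ?_ (ih fun l hl => hS l (Finset.mem_insert_of_mem hl))
          rw [Algebra.smul_def]
          refine VPos.mul (hpos i (hS i (Finset.mem_insert_self _ _))) ?_
          intro _
          rw [v.map_pow hs0, hvs, mul_zero]
      exact h2 _ fun i hi => Finset.mem_range.1 hi
    have h3 : s ^ P.natDegree = -∑ i ∈ Finset.range P.natDegree, P.coeff i • s ^ i :=
      eq_neg_of_add_eq_zero_right h0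
    have h4 : VPos v (s ^ P.natDegree) := by
      rw [h3]
      exact h1.neg
    have h5 := h4 (pow_ne_zero _ hs0)
    rw [v.map_pow hs0, hvs, mul_zero] at h5
    exact lt_irrefl _ h5
  have h1 : x ^ (P.natDegree - j) ∈ R := by
    have h2 := R.mul_mem (hR.loc _ (hcP j) hcj0 hvj) (hcQ j)
    rwa [← mul_assoc, inv_mul_cancel₀ hcj0, one_mul] at h2
  refine hR.normal x hx (IsIntegral.of_pow (n := P.natDegree - j) (by omega) ?_)
  exact int_of_mem h1

variable {r D : ℕ}

/-- A uniform exponent. -/
theorem LF.Ext.tors_unif {B C : LF k v r D} (h : B.Ext C) :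
    ∃ e : ℕ, 0 < e ∧ ∀ γ ∈ C.Γ, (e : 𝕂) * γ ∈ B.Γ := by
  classical
  obtain ⟨S, hS⟩ := C.fg
  have hSC : ∀ γ ∈ S, γ ∈ C.Γ := fun γ hγ => hS ▸ AddSubgroup.subset_closure hγ
  choose! e he0 he using h.tors
  refine ⟨∏ γ ∈ S, e γ, Finset.prod_pos fun γ hγ => he0 γ (hSC γ hγ), ?_⟩
  intro γ hγ
  rw [← hS] at hγ
  induction hγ using AddSubgroup.closure_induction with
  | mem γ hγ =>
    have h1 : (∏ δ ∈ S, e δ) = (∏ δ ∈ S.erase γ, e δ) * e γ :=
      (Finset.prod_erase_mul S e hγ).symm
    rw [h1, Nat.cast_mul, mul_assoc, ← nsmul_eq_mul]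
    exact B.Γ.nsmul_mem (he γ (hSC γ hγ)) _
  | zero => rw [mul_zero]; exact B.Γ.zero_mem
  | add a b _ _ ha hb => rw [mul_add]; exact B.Γ.add_mem ha hb
  | neg a _ ha => rw [mul_neg]; exact B.Γ.neg_mem ha

end Pool.Agent.TGL
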