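import Pool.Agent.Lib.TGL.Step
import Pool.Agent.Lib.TGB_h66.PDer

/-!
# TANK G, TRACK L: the data of the last step (final form, helper18)
-/

set_option autoImplicit false

namespace Pool.Agent.TGL

open Pool.Agent.TAO (OVal VPos Ctx0)
open Pool.Agent.LU1 (FracIs fixO)
open Pool.Agent.ALLO (locv icl ICl decP)
open Pool.Agent.TGBh66 (PR DER invS)

universe u w

variable {k Ω : Type u} [Field k] [Field Ω] [Algebra k Ω]
  {𝕂 : Type w} [Field 𝕂] [LinearOrder 𝕂] [IsStrictOrderedRing 𝕂]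

/-- The data of the last step: `E = N^H` over `F = L₀(z)`, `k[tt] = k[b, z]`, étale outside `w`. -/
structure LastData' (v : OVal 𝕂 Ω) (p m : ℕ) (F : IntermediateField k Ω)
    (N : IntermediateField F Ω) (H : Subgroup (N ≃ₐ[F] N)) (R : Subalgebra k Ω) (tt : Fin m → Ω)
    (w : Ω) (Z : Set Ω) : Prop where
  idx : H.relIndex (decP v R F N) < p
  ind : AlgebraicIndependent k tt
  frac : FracIs (PR k tt) F
  w_mem : w ∈ F
  w_ne : w ≠ 0
  der : DER k tt w (fixO F N H)
  Z_unit : ∀ a ∈ Z, a ∈ fixO F N H ∧ a ≠ 0 ∧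
    IsIntegral (invS (PR k tt) (Submonoid.powers w)) a ∧
    IsIntegral (invS (PR k tt) (Submonoid.powers w)) a⁻¹

end Pool.Agent.TGL
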