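import Pool.Agent.Lib.TGL.Defs
import Pool.Agent.Lib.TGL_h44.Wc
import Pool.Agent.Lib.ALLZO.Reg
import Pool.Agent.Lib.LU2_h15z.Normal
import Pool.Agent.Lib.TAO.CentreA

/-!
# TANK G, TRACK L, row Z0: limit frames with `Γ = 0`

The ring of a limit frame with `Γ = 0` is a regular local ring, hence integrally closed. If the
localised integral closure `ICl v B.R E` in a finite separable extension has `p`-coordinates with
respect to the parameters of `B`, it is the ring of a limit frame with the same parameters.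
-/

set_option autoImplicit false

namespace Pool.Agent.TGL48

open Pool.Agent.TAO (OVal VPos Ctx0)
open Pool.Agent.LU1 (FracIs)
open Pool.Agent.ALLO (locv icl ICl)
open Pool.Agent.ALLZO (GoodBasis le_locv locv_mono locv_le locv_inv locv_isNoetherian)
open Pool.Agent.TGL (LF mon)
open Pool.Agent.TGL44 (Wc dn mem_dn up_dn dn_locv up_adjoin le_Wc ctx_Wc alg_dn rv vpos_rv ge_rv
  mem_up_coe)

universe u w

variable {k Ω : Type u} [Field k] [Field Ω] [Algebra k Ω]
  {𝕂 : Type w} [Field 𝕂] [LinearOrder 𝕂] [IsStrictOrderedRing 𝕂] {v : OVal 𝕂 Ω} {D n : ℕ}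

/-! ### `Γ = 0` -/

theorem Γ_zero (B : LF k v 0 D) {γ : 𝕂} (hγ : γ ∈ B.Γ) : γ = 0 := by
  obtain ⟨X, -, -, hX⟩ := B.rk
  have h1 := hX γ hγ
  rw [Set.range_eq_empty, Submodule.span_empty] at h1
  exact (Submodule.mem_bot ℚ).1 h1

theorem chi_zero {r : ℕ} (B : LF k v r D) : B.χ 0 = 1 := by
  have h := B.χ_add 0 B.Γ.zero_mem 0 B.Γ.zero_mem
  rw [add_zero] at h
  exact (mul_left_cancel₀ (B.χ_ne 0 B.Γ.zero_mem) (by rw [mul_one]; exact h)).symm

theorem fgen0 (B : LF k v 0 D) : ∃ F : Finset Ω, B.R = locv v (Algebra.adjoin k (F : Set Ω)) := by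
  classical
  obtain ⟨F, hF⟩ := B.fgen
  refine ⟨insert 1 F, ?_⟩
  have h1 : B.χ '' {γ | γ ∈ B.Γ ∧ 0 ≤ γ} = {1} := by
    ext x
    constructor
    · rintro ⟨γ, ⟨hγ, -⟩, rfl⟩
      rw [Γ_zero B hγ]
      exact chi_zero B
    · rintro rfl
      exact ⟨0, ⟨B.Γ.zero_mem, le_rfl⟩, chi_zero B⟩
  rw [hF, h1, Finset.coe_insert, Set.union_singleton]

theorem gen0 (B : LF k v 0 D) {f : Ω} (hf : f ∈ B.R) (h0 : VPos v f) :
    ∃ b : Fin D → Ω, (∀ i, b i ∈ B.R) ∧ f = ∑ i, B.y i * b i := by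
  obtain ⟨γ, hγ, a, -, h1, b, hb, e⟩ := B.gen f hf h0
  refine ⟨b, hb, ?_⟩
  rcases h1 with h1 | h1
  · rw [Γ_zero B hγ] at h1
    exact absurd h1 (lt_irrefl _)
  · rw [e, h1, mul_zero, zero_add]

/-! ### The ring of a limit frame with `Γ = 0` is integrally closed -/

theorem lr_dn {K : IntermediateField k Ω} (B : LF k v 0 D) (hB : FracIs B.R K) :
    ALLZO.LR (rv v (Wc K)) (dn (Wc K) B.R)
      (fun i : Fin D => (⟨B.y i, le_Wc (hB.1 _ (B.y_mem i))⟩ : Wc K)) := by
  classical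
  have hW : ∀ f ∈ B.R, f ∈ Wc K := fun f hf => le_Wc (hB.1 f hf)
  refine ⟨?_, fun f hf => ge_rv.2 (B.nonneg _ hf), fun i => B.y_mem i,
    fun i => vpos_rv.2 fun _ => B.y_pos i, ?_, fun g => alg_dn hB g⟩
  · obtain ⟨F, hF⟩ := fgen0 B
    have hFR : ∀ f ∈ F, f ∈ B.R := fun f hf => by
      rw [hF]
      exact le_locv _ (Algebra.subset_adjoin (Finset.mem_coe.2 hf))
    refine ⟨F.attach.image fun f : {x // x ∈ F} => (⟨f.1, hW _ (hFR f.1 f.2)⟩ : Wc K), ?_⟩
    have h1 : ∀ f ∈ Algebra.adjoin k (F : Set Ω), f ∈ Wc K := fun f hf =>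
      hW f (by rw [hF]; exact le_locv _ hf)
    rw [hF, dn_locv h1]
    congr 1
    have h2 : Algebra.adjoin k (F : Set Ω) = TGL44.up (Wc K) (Algebra.adjoin k
        ((F.attach.image fun f : {x // x ∈ F} => (⟨f.1, hW _ (hFR f.1 f.2)⟩ : Wc K) : Finset (Wc K)) :
          Set (Wc K))) := by
      rw [up_adjoin]
      congr 1
      ext x
      constructor
      · intro hx
        exact ⟨⟨x, hW x (hFR x hx)⟩, Finset.mem_coe.2 (Finset.mem_image.2 ⟨⟨x, hx⟩,
          Finset.mem_attach _ _, rfl⟩), rfl⟩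
      · rintro ⟨y, hy, rfl⟩
        obtain ⟨z, -, rfl⟩ := Finset.mem_image.1 (Finset.mem_coe.1 hy)
        exact z.2
    rw [h2, TGL44.dn_up]
  · intro f hf h0
    obtain ⟨b, hb, e⟩ := gen0 B (f := (f : Ω)) hf (vpos_rv.1 h0)
    refine ⟨fun i => ⟨b i, hW _ (hb i)⟩, hb, Subtype.ext ?_⟩
    rw [e]
    push_cast
    rfl

/-- The ring of a limit frame with `Γ = 0` is isomorphic to its copy in `W`. -/
def equivDn {W : IntermediateField k Ω} {R : Subalgebra k Ω} (hW : ∀ f ∈ R, f ∈ W) :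
    dn W R ≃+* R where
  toFun a := ⟨(a : W), a.2⟩
  invFun a := ⟨⟨a, hW a a.2⟩, a.2⟩
  left_inv _ := rfl
  right_inv _ := rfl
  map_mul' _ _ := rfl
  map_add' _ _ := rfl

theorem regular0 (h : Ctx0 k v n) {K : IntermediateField k Ω} (hK : Algebra.trdeg k K = D)
    (B : LF k v 0 D) (hB : FracIs B.R K) :
    IsRegularLocalRing B.R ∧ ringKrullDim B.R = D := by
  classical
  have L := lr_dn B hB
  have h' : Ctx0 k (rv v (Wc K)) D := ctx_Wc h hK
  have h1 := L.isNoetherian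
  have h2 := L.isLocalRing
  have h3 := L.dim_ge h'
  have h4 : (IsLocalRing.maximalIdeal (dn (Wc K) B.R)).spanFinrank ≤ D := by
    rw [L.maximalIdeal_eq]
    refine (Submodule.spanFinrank_span_le_ncard_of_finite (Set.finite_range _)).trans ?_
    rw [← Set.image_univ]
    refine (Set.ncard_image_le Set.finite_univ).trans ?_
    rw [Set.ncard_univ, Nat.card_fin]
  have h5 : ringKrullDim (dn (Wc K) B.R) = D := by
    refine le_antisymm ((ringKrullDim_le_spanFinrank_maximalIdeal _).trans ?_) h3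
    exact_mod_cast h4
  have h6 : IsRegularLocalRing (dn (Wc K) B.R) := by
    apply IsRegularLocalRing.of_spanFinrank_maximalIdeal_le
    rw [h5]
    exact_mod_cast h4
  have e := equivDn (R := B.R) (W := Wc K) fun f hf => le_Wc (hB.1 f hf)
  exact ⟨IsRegularLocalRing.of_ringEquiv e, by rw [← ringKrullDim_eq_of_ringEquiv e, h5]⟩

/-- The ring of a limit frame with `Γ = 0` is integrally closed. -/
theorem normal0 (h : Ctx0 k v n) {K : IntermediateField k Ω} (hK : Algebra.trdeg k K = D)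
    (B : LF k v 0 D) (hB : FracIs B.R K) : IsIntegrallyClosed B.R := by
  obtain ⟨h1, h2⟩ := regular0 h hK B hB
  exact LU2Z.isIntegrallyClosed_of_regular D B.R h2

/-! ### Finiteness of the integral closure -/

section Fin

variable {K : IntermediateField k Ω} {N : IntermediateField K Ω}

/-- The elements of `E ⊂ N` integral over the noetherian integrally closed ring `R` with field of
fractions `K` form a finitely generated `R`-module, if `N / K` is finite and separable. -/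
theorem exists_fin (R : Subalgebra k Ω) [IsNoetherianRing R] [IsIntegrallyClosed R]
    (hR : FracIs R K) [FiniteDimensional K N] [Algebra.IsSeparable K N]
    (E : IntermediateField k Ω) (hE : ∀ f ∈ E, f ∈ N) (hRE : ∀ f ∈ R, f ∈ E) :
    ∃ T : Finset Ω, (∀ t ∈ T, t ∈ icl R E) ∧
      ∀ f ∈ icl R E, f ∈ Submodule.span R (T : Set Ω) := by
  classical
  let φ : R →+* K :=
    { toFun := fun a => ⟨a, hR.1 a a.2⟩
      map_one' := rfl
      map_mul' := fun _ _ => rfl
      map_zero' := rfl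
      map_add' := fun _ _ => rfl }
  let _ : Algebra R K := φ.toAlgebra
  let _ : Algebra R N := ((algebraMap K N).comp φ).toAlgebra
  have _ : IsScalarTower R K N := IsScalarTower.of_algebraMap_eq fun _ => rfl
  have hfr : IsFractionRing R K := by
    rw [IsFractionRing, isLocalization_iff]
    refine ⟨?_, ?_, ?_⟩
    · rintro ⟨a, ha⟩
      have h1 : a ≠ 0 := nonZeroDivisors.ne_zero ha
      have h2 : φ a ≠ 0 := fun h3 => h1 (Subtype.ext (congrArg (fun x : K => (x : Ω)) h3))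
      exact IsUnit.mk0 (φ a) h2
    · intro g
      obtain ⟨a, ha, b, hb, hb0, hab⟩ := hR.2 g g.2
      refine ⟨(⟨a, ha⟩, ⟨⟨b, hb⟩, mem_nonZeroDivisors_of_ne_zero fun h0 =>
        hb0 (congrArg Subtype.val h0)⟩), Subtype.ext ?_⟩
      change (g : Ω) * b = a
      rw [hab, div_mul_cancel₀ _ hb0]
    · intro a b hab
      refine ⟨1, ?_⟩
      have h1 : (a : Ω) = b := congrArg (fun x : K => (x : Ω)) hab
      rw [Subtype.ext h1]
  let ψ : N →ₐ[R] Ω := { (N.val : N →+* Ω) with commutes' := fun _ => rfl }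
  have hψ : ∀ a : N, ψ a = (a : Ω) := fun _ => rfl
  have hψi : Function.Injective ψ := fun a b hab => Subtype.ext hab
  have hfin : Module.Finite R (integralClosure R N) :=
    IsIntegralClosure.finite R K N (integralClosure R N)
  have hnoe : IsNoetherian R (Subalgebra.toSubmodule (integralClosure R N)) :=
    isNoetherian_of_isNoetherianRing_of_finite R (integralClosure R N)
  let M : Submodule R N :=
    { carrier := {a | IsIntegral R a ∧ (a : Ω) ∈ E}
      add_mem' := fun ha hb => ⟨ha.1.add hb.1, add_mem ha.2 hb.2⟩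
      zero_mem' := ⟨isIntegral_zero, E.zero_mem⟩
      smul_mem' := fun c a ha => by
        refine ⟨ha.1.smul c, ?_⟩
        have h1 : ((c • a : N) : Ω) = (c : Ω) * a := by
          rw [Algebra.smul_def]
          rfl
        rw [h1]
        exact mul_mem (hRE c c.2) ha.2 }
  have hMfg : M.FG := isNoetherian_submodule.1 hnoe M fun a ha => ha.1
  obtain ⟨T, hT⟩ := hMfg
  refine ⟨T.image fun a : N => (a : Ω), ?_, ?_⟩
  · intro t ht
    obtain ⟨a, ha, rfl⟩ := Finset.mem_image.1 ht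
    have h1 : a ∈ M := by
      rw [← hT]
      exact Submodule.subset_span (Finset.mem_coe.2 ha)
    exact ⟨h1.2, (isIntegral_algHom_iff ψ hψi).2 h1.1⟩
  · intro f hf
    have h1 : (⟨f, hE f hf.1⟩ : N) ∈ M :=
      ⟨(isIntegral_algHom_iff ψ hψi (x := (⟨f, hE f hf.1⟩ : N))).1 hf.2, hf.1⟩
    rw [← hT] at h1
    have h2 := Submodule.mem_map_of_mem (f := ψ.toLinearMap) h1
    rw [Submodule.map_span] at h2
    rw [Finset.coe_image]
    exact h2

/-- The localised integral closure is the localisation of a finitely generated algebra. -/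
theorem ICl_fgen (R : Subalgebra k Ω) [IsNoetherianRing R] [IsIntegrallyClosed R]
    (hR : FracIs R K) [FiniteDimensional K N] [Algebra.IsSeparable K N]
    (E : IntermediateField k Ω) (hE : ∀ f ∈ E, f ∈ N) (hRE : ∀ f ∈ R, f ∈ E) {F : Finset Ω}
    (hF : R = locv v (Algebra.adjoin k (F : Set Ω))) :
    ∃ G : Finset Ω, ICl v R E = locv v (Algebra.adjoin k (G : Set Ω)) := by
  classical
  obtain ⟨T, hT, hspan⟩ := exists_fin R hR E hE hRE
  refine ⟨F ∪ T, le_antisymm ?_ ?_⟩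
  · refine locv_le ?_ fun f hf h0 h1 => locv_inv hf h0 h1
    intro f hf
    have h1 := hspan f hf
    have hRle : R ≤ locv v (Algebra.adjoin k ((F ∪ T : Finset Ω) : Set Ω)) := by
      rw [hF]
      refine locv_mono (Algebra.adjoin_mono ?_)
      rw [Finset.coe_union]
      exact Set.subset_union_left
    clear hf
    induction h1 using Submodule.span_induction with
    | mem x hx =>
      refine le_locv _ (Algebra.subset_adjoin ?_)
      rw [Finset.coe_union]
      exact Or.inr hx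
    | zero => exact Subalgebra.zero_mem _
    | add x y _ _ hx hy => exact Subalgebra.add_mem _ hx hy
    | smul c x _ hx =>
      have h2 : c • x = (c : Ω) * x := rfl
      rw [h2]
      exact Subalgebra.mul_mem _ (hRle c.2) hx
  · refine locv_mono (Algebra.adjoin_le ?_)
    intro x hx
    rw [Finset.coe_union] at hx
    rcases hx with hx | hx
    · have h1 : x ∈ R := by
        rw [hF]
        exact le_locv _ (Algebra.subset_adjoin hx)
      exact ⟨hRE x h1, isIntegral_algebraMap (R := R) (A := Ω) (x := ⟨x, h1⟩)⟩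
    · exact hT x hx

end Fin

/-! ### Nakayama -/

theorem icl_ge {R : Subalgebra k Ω} (hR : ∀ f ∈ R, v.Ge 0 f) {E : IntermediateField k Ω} :
    ∀ f ∈ icl R E, v.Ge 0 f := fun _ hf =>
  TAO.ge_of_isIntegral (fun a : R => hR a.1 a.2) hf.2

/-- `g` is in the ideal `(y) A`. -/
def InY (A : Subalgebra k Ω) (y : Fin D → Ω) (g : Ω) : Prop :=
  ∃ b : Fin D → Ω, (∀ i, b i ∈ A) ∧ g = ∑ i, y i * b i

theorem InY.sum {A : Subalgebra k Ω} {y : Fin D → Ω} {ι : Type*} (s : Finset ι) (g : ι → Ω)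
    (h : ∀ i ∈ s, InY A y (g i)) : InY A y (∑ i ∈ s, g i) := by
  choose! b hb e using h
  refine ⟨fun i => ∑ j ∈ s, b j i, fun i => Subalgebra.sum_mem _ fun j hj => hb j hj i, ?_⟩
  rw [Finset.sum_congr rfl e, Finset.sum_comm]
  exact Finset.sum_congr rfl fun i _ => (Finset.mul_sum _ _ _).symm

theorem InY.single {A : Subalgebra k Ω} {y : Fin D → Ω} (j : Fin D) {a : Ω} (ha : a ∈ A) :
    InY A y (y j * a) := by
  classical
  refine ⟨Pi.single j a, fun i => ?_, ?_⟩
  · by_cases h : i = j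
    · subst h
      rw [Pi.single_eq_same]
      exact ha
    · rw [Pi.single_eq_of_ne h]
      exact A.zero_mem
  · rw [Finset.sum_eq_single j (fun i _ h => by rw [Pi.single_eq_of_ne h, mul_zero])
      (fun h => absurd (Finset.mem_univ j) h), Pi.single_eq_same]

/-- If `m ⊂ (y) + m²` for the maximal ideal `m` of the noetherian ring `A` centred by `v`, then
`m = (y)`. -/
theorem gen_of_sq {A : Subalgebra k Ω} [IsNoetherianRing A] (hA : ∀ f ∈ A, v.Ge 0 f)
    (hinv : ∀ f ∈ A, f ≠ 0 → v f = 0 → f⁻¹ ∈ A) {y : Fin D → Ω} (hy : ∀ i, y i ∈ A)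
    (h : ∀ f ∈ A, VPos v f → ∃ b : Fin D → Ω, (∀ i, b i ∈ A) ∧ ∃ c d : Ω, c ∈ A ∧ d ∈ A ∧
      VPos v c ∧ VPos v d ∧ f = ∑ i, y i * b i + c * d) :
    ∀ f ∈ A, VPos v f → ∃ b : Fin D → Ω, (∀ i, b i ∈ A) ∧ f = ∑ i, y i * b i := by
  let m : Ideal A :=
    { carrier := {a | VPos v (a : Ω)}
      add_mem' := fun {a b} ha hb => VPos.add ha hb
      zero_mem' := VPos.zero
      smul_mem' := fun c a ha => VPos.mul' (hA c c.2) ha }
  have hm : ∀ a : A, a ∈ m ↔ VPos v (a : Ω) := fun a => Iff.rfl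
  have hjac : m ≤ Ideal.jacobson ⊥ := by
    intro a ha
    rw [Ideal.mem_jacobson_bot]
    intro b
    have h1 : VPos v ((a * b : A) : Ω) := (hm _).1 (m.mul_mem_right b ha)
    have h2 : ((a * b + 1 : A) : Ω) = 1 + (a * b : A) := by
      rw [add_comm (a * b) 1]
      rfl
    have h3 := TAO.val_add_vpos (v := v) one_ne_zero v.map_one h1
    rw [← h2] at h3
    exact IsUnit.of_mul_eq_one ⟨_, hinv _ (a * b + 1 : A).2 h3.1 h3.2⟩
      (Subtype.ext (mul_inv_cancel₀ h3.1))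
  have hle : m ≤ Ideal.span (Set.range fun i => (⟨y i, hy i⟩ : A)) := by
    refine Submodule.le_of_le_smul_of_le_jacobson_bot (I := m) (IsNoetherian.noetherian m) hjac ?_
    intro a ha
    obtain ⟨b, hb, c, d, hc, hd, hc0, hd0, e⟩ := h a a.2 ha
    have h1 : a = (∑ i, (⟨y i, hy i⟩ : A) * ⟨b i, hb i⟩) + ⟨c, hc⟩ * ⟨d, hd⟩ := by
      apply Subtype.ext
      rw [e]
      push_cast
      rfl
    rw [h1]
    refine Submodule.add_mem_sup ?_ ?_
    · exact Ideal.sum_mem _ fun i _ => Ideal.mul_mem_right _ _ (Ideal.subset_span ⟨i, rfl⟩)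
    · exact Submodule.smul_mem_smul (I := m) (N := m) hc0 hd0
  intro f hf h0
  have h1 : (⟨f, hf⟩ : A) ∈ Ideal.span (Set.range fun i => (⟨y i, hy i⟩ : A)) := hle h0
  obtain ⟨b, hb⟩ := (Ideal.mem_span_range_iff_exists_fun).1 h1
  refine ⟨fun i => b i, fun i => (b i).2, ?_⟩
  have h2 := congrArg (fun z : A => (z : Ω)) hb
  have h3 : f = ∑ i, (b i : Ω) * y i := by
    rw [← show ((∑ i, b i * (⟨y i, hy i⟩ : A) : A) : Ω) = f from h2]
    push_cast
    rfl
  rw [h3]
  exact Finset.sum_congr rfl fun i _ => mul_comm _ _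

/-! ### The row -/

/-- **Row Z0.** -/
theorem exists_Z0 (h : Ctx0 k v n) {K : IntermediateField k Ω} {N : IntermediateField K Ω}
    [FiniteDimensional K N] [Algebra.IsSeparable K N] (E : IntermediateField k Ω)
    (hE : ∀ f ∈ E, f ∈ N) (hKE : ∀ f ∈ K, f ∈ E) (hK : Algebra.trdeg k K = D)
    (B : LF k v 0 D) (hB : FracIs B.R K) {p : ℕ} (hp : 2 ≤ p)
    (hc : B.Coord p (ICl v B.R E)) :
    ∃ C : LF k v 0 D, C.R = ICl v B.R E ∧ C.Γ = B.Γ ∧ C.χ = B.χ ∧ C.y = B.y ∧ B.Ext C := by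
  classical
  have hreg := regular0 h hK B hB
  have hreg1 := hreg.1
  have hnoe : IsNoetherianRing B.R := inferInstance
  have hnor : IsIntegrallyClosed B.R := normal0 h hK B hB
  obtain ⟨F, hF⟩ := fgen0 B
  obtain ⟨G, hG⟩ := ICl_fgen (v := v) B.R hB E hE (fun f hf => hKE f (hB.1 f hf)) hF
  have hRA : B.R ≤ ICl v B.R E := fun f hf =>
    le_locv _ ⟨hKE f (hB.1 f hf), isIntegral_algebraMap (R := B.R) (A := Ω) (x := ⟨f, hf⟩)⟩
  have hA0 : ∀ f ∈ ICl v B.R E, v.Ge 0 f := ALLZO.locv_nonneg (icl_ge B.nonneg)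
  have hinv : ∀ f ∈ ICl v B.R E, f ≠ 0 → v f = 0 → f⁻¹ ∈ ICl v B.R E :=
    fun f hf h0 h1 => locv_inv hf h0 h1
  have hAn : IsNoetherianRing (ICl v B.R E) := by
    rw [hG]
    exact locv_isNoetherian _ ⟨G, rfl⟩
  obtain ⟨u, hu0⟩ := ALLZO.perron B.Γ B.fg B.rk ∅ (by simp)
  have hu : GoodBasis B.Γ ∅ u := by simpa using hu0
  have hgen : ∀ f ∈ ICl v B.R E, VPos v f → ∃ b : Fin D → Ω, (∀ i, b i ∈ ICl v B.R E) ∧
      f = ∑ i, B.y i * b i := by
    refine gen_of_sq hA0 hinv (fun i => hRA (B.y_mem i)) ?_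
    intro f hf h0
    obtain ⟨c, hcX, e⟩ := hc u hu f hf
    have hcA : ∀ μ, c μ ∈ ICl v B.R E := by
      intro μ
      obtain ⟨γ, hγ, h1⟩ := hcX μ
      rwa [Γ_zero B hγ, chi_zero B, one_mul] at h1
    have hyA : ∀ i, B.y i ∈ ICl v B.R E := fun i => hRA (B.y_mem i)
    obtain ⟨μ₀, hμ₀⟩ : ∃ μ₀ : (Fin 0 → Fin p) × (Fin D → Fin p), μ₀ =
      (fun i => i.elim0, fun _ => ⟨0, by omega⟩) := ⟨_, rfl⟩
    have hmon0 : mon (fun i => B.χ (u i)) B.y μ₀ = 1 := by
      rw [hμ₀, mon, Finset.univ_eq_empty, Finset.prod_empty, one_mul]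
      exact Finset.prod_eq_one fun j _ => pow_zero _
    have hY : InY (ICl v B.R E) B.y (∑ μ ∈ Finset.univ.erase μ₀,
        mon (fun i => B.χ (u i)) B.y μ * c μ ^ p) := by
      refine InY.sum _ _ fun μ hμ => ?_
      obtain ⟨j, hj⟩ : ∃ j, (μ.2 j : ℕ) ≠ 0 := by
        by_contra hcon
        push Not at hcon
        apply Finset.ne_of_mem_erase hμ
        rw [hμ₀]
        refine Prod.ext (funext fun i => i.elim0) (funext fun j => Fin.ext (hcon j))
      obtain ⟨m, hm⟩ := Nat.exists_eq_succ_of_ne_zero hj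
      have h1 : mon (fun i => B.χ (u i)) B.y μ * c μ ^ p = B.y j * (B.y j ^ m *
          (∏ j' ∈ Finset.univ.erase j, B.y j' ^ (μ.2 j' : ℕ)) * c μ ^ p) := by
        rw [mon, Finset.univ_eq_empty (α := Fin 0), Finset.prod_empty, one_mul,
          ← Finset.mul_prod_erase Finset.univ _ (Finset.mem_univ j), hm, pow_succ]
        ring
      rw [h1]
      refine InY.single j (Subalgebra.mul_mem _ (Subalgebra.mul_mem _ (Subalgebra.pow_mem _
        (hyA j) _) (Subalgebra.prod_mem _ fun j' _ => Subalgebra.pow_mem _ (hyA j') _))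
        (Subalgebra.pow_mem _ (hcA μ) _))
    obtain ⟨b, hb, hbe⟩ := hY
    have h1 : f = ∑ i, B.y i * b i + c μ₀ ^ p := by
      rw [← hbe, e, ← Finset.add_sum_erase Finset.univ _ (Finset.mem_univ μ₀), hmon0, one_mul,
        add_comm]
    have h2 : VPos v (∑ i, B.y i * b i) := by
      refine Finset.sum_induction _ (VPos v) (fun _ _ => VPos.add) VPos.zero fun i _ => ?_
      exact VPos.mul (fun _ => B.y_pos i) (hA0 _ (hb i))
    have h3 : VPos v (c μ₀ ^ p) := by
      have h4 := h0.sub h2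
      rwa [h1, add_sub_cancel_left] at h4
    have h4 : VPos v (c μ₀) := by
      intro h5
      have h6 := h3 (pow_ne_zero p h5)
      rw [v.map_pow h5] at h6
      by_contra h7
      have h8 : (p : 𝕂) * v (c μ₀) ≤ 0 :=
        mul_nonpos_of_nonneg_of_nonpos (Nat.cast_nonneg p) (not_lt.1 h7)
      exact absurd h6 (not_lt.2 h8)
    obtain ⟨m, hm⟩ : ∃ m, p = m + 2 := ⟨p - 2, by omega⟩
    refine ⟨b, hb, c μ₀, c μ₀ ^ (m + 1), hcA _, Subalgebra.pow_mem _ (hcA _) _, h4, ?_, ?_⟩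
    · rw [pow_succ]
      refine VPos.mul' ?_ h4
      exact hA0 _ (Subalgebra.pow_mem _ (hcA _) _)
    · rw [h1, hm, pow_succ' _ (m + 1)]
  refine ⟨{
    Γ := B.Γ
    fg := B.fg
    rk := B.rk
    χ := B.χ
    χ_ne := B.χ_ne
    χ_add := B.χ_add
    χ_val := B.χ_val
    y := B.y
    y_ne := B.y_ne
    y_pos := B.y_pos
    R := ICl v B.R E
    nonneg := hA0
    loc := hinv
    χ_mem := fun γ hγ h0 => hRA (B.χ_mem γ hγ h0)
    y_mem := fun i => hRA (B.y_mem i)
    fgen := ⟨G, ?_⟩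
    gen := fun f hf h0 => ?_ }, rfl, rfl, rfl, rfl, ?_⟩
  · refine le_antisymm ?_ ?_
    · rw [hG]
      exact locv_mono (Algebra.adjoin_mono Set.subset_union_left)
    · refine locv_le (Algebra.adjoin_le ?_) hinv
      rintro x (hx | ⟨γ, ⟨hγ, h0⟩, rfl⟩)
      · rw [hG]
        exact le_locv _ (Algebra.subset_adjoin hx)
      · exact hRA (B.χ_mem γ hγ h0)
  · obtain ⟨b, hb, e⟩ := hgen f hf h0
    exact ⟨0, B.Γ.zero_mem, 0, Subalgebra.zero_mem _, Or.inr rfl, b, hb, by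
      rw [e, mul_zero, zero_add]⟩
  · refine ⟨fun γ hγ => hγ, fun γ hγ => ?_, rfl, hRA, fun γ hγ => ⟨1, one_pos, by
      rw [Nat.cast_one, one_mul]; exact hγ⟩⟩
    have h1 : B.χ γ / B.χ γ = 1 := div_self (B.χ_ne γ hγ)
    change B.χ γ / B.χ γ ∈ ICl v B.R E ∧ B.χ γ / B.χ γ ≠ 0 ∧ v (B.χ γ / B.χ γ) = 0
    rw [h1]
    exact ⟨Subalgebra.one_mem _, one_ne_zero, v.map_one⟩

end Pool.Agent.TGL48

namespace Pool.Agent.TGL

open Pool.Agent.TAO (OVal VPos Ctx0)
open Pool.Agent.LU1 (FracIs fixO mem_fixO)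
open Pool.Agent.ALLO (locv icl ICl)

universe u w

variable {k Ω : Type u} [Field k] [Field Ω] [Algebra k Ω]
  {𝕂 : Type w} [Field 𝕂] [LinearOrder 𝕂] [IsStrictOrderedRing 𝕂] {v : OVal 𝕂 Ω} {D n : ℕ}

/-- ROW Z0 (helper48): the case `Γ = 0`; no condition on the index. -/
theorem z0 {p : ℕ} [Fact p.Prime] (h : Ctx0 k v n)
    (B : LF k v 0 D) {K : IntermediateField k Ω} (hK : FracIs B.R K)
    (htr : Algebra.trdeg k K = ((0 + D : ℕ)))
    {N : IntermediateField K Ω} [FiniteDimensional K N] [IsGalois K N]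
    (H : Subgroup (N ≃ₐ[K] N)) (hco : B.Coord p (ICl v B.R (fixO K N H))) :
    ∃ C : LF k v 0 D, C.R = ICl v B.R (fixO K N H) ∧ B.Ext C := by
  obtain ⟨C, h1, -, -, -, h2⟩ := TGL48.exists_Z0 (N := N) h (fixO K N H)
    (fun f hf => by
      obtain ⟨a, rfl, -⟩ := (mem_fixO K N H f).1 hf
      exact a.2)
    (fun f hf => (mem_fixO K N H f).2 ⟨algebraMap K N ⟨f, hf⟩, rfl, fun σ _ => σ.commutes _⟩)
    (by rw [htr, Nat.zero_add]) B hK (Fact.out : p.Prime).two_le hco
  exact ⟨C, h1, h2⟩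

end Pool.Agent.TGL
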