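import Pool.Agent.Lib.TGL_h66.LFD
import Pool.Agent.Lib.TGL_h44.ZLb
import Pool.Agent.Lib.TGL.Z0

/-!
# TANK G, TRACK L, ROW 3.5: the last step `F ≤ E = N^H`

`F = k(tt)`, and the integral closure of `k[tt][1/w]` in `E` is stable under the derivations
`∂/∂tt_j`; the `tt_j` and `1/w` are in `B.R[1/χ]`.
-/

set_option autoImplicit false

namespace Pool.Agent.TGL

open Pool.Agent.TAO (OVal VPos Ctx0)
open Pool.Agent.LU1 (FracIs fixO mem_fixO)
open Pool.Agent.ALLO (locv icl ICl decP)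
open Pool.Agent.TGBh66 (PR DER invS)

universe u w

variable {k Ω : Type u} [Field k] [Field Ω] [Algebra k Ω]
  {𝕂 : Type w} [Field 𝕂] [LinearOrder 𝕂] [IsStrictOrderedRing 𝕂] {v : OVal 𝕂 Ω} {r D n : ℕ}

/-- **ROW 3.5.** -/
theorem last_step' {p : ℕ} [hp : Fact p.Prime] [CharP Ω p] [IsAlgClosed k] [IsAlgClosed Ω]
    (h : Ctx0 k v n) (B : LF k v r D) {F : IntermediateField k Ω} (hF : FracIs B.R F)
    (htr : Algebra.trdeg k F = ((r + D : ℕ)))
    {N : IntermediateField F Ω} [FiniteDimensional F N] [IsGalois F N]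
    (H : Subgroup (N ≃ₐ[F] N)) (hidx : H.relIndex (decP v B.R F N) < p)
    {m : ℕ} (tt : Fin m → Ω) (htt : AlgebraicIndependent k tt) (hfr : FracIs (PR k tt) F)
    {w : Ω} (hw : w ≠ 0) (hder : DER k tt w (fixO F N H))
    (httX : ∀ j, B.InX B.R (tt j)) (hwX : B.InX B.R w⁻¹) :
    ∃ C : LF k v r D, C.R = ICl v B.R (fixO F N H) ∧ B.Ext C := by
  have hco : B.Coord p (ICl v B.R (fixO F N H)) := by
    refine TGL66.coord_der h B hF htr (N := N) ?_ ?_ htt hfr hw hder httX hwX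
    · intro e he
      obtain ⟨a, rfl, -⟩ := (mem_fixO F N H e).1 he
      exact a.2
    · intro f hf
      exact (mem_fixO F N H f).2 ⟨algebraMap F N ⟨f, hf⟩, rfl, fun σ _ => σ.commutes _⟩
  rcases Nat.eq_zero_or_pos r with rfl | hr
  · exact z0 h B hF htr H hco
  · obtain ⟨C, h1, h2, -⟩ := TGL44.zl_pos h hr B hF htr H hidx hco
    exact ⟨C, h1, h2⟩

end Pool.Agent.TGL
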