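import Pool.Agent.Lib.TGL.Step
import Pool.Agent.Lib.TGB_h34.Row32

/-!
# TANK G, TRACK L, row 3.2: the step `L → L(z)`
-/

set_option autoImplicit false

namespace Pool.Agent.TGL

open Pool.Agent.TAO (OVal VPos Ctx0)
open Pool.Agent.LU1 (FracIs)
open Pool.Agent.ALLO (locv)

universe u w

variable {k Ω : Type u} [Field k] [Field Ω] [Algebra k Ω]
  {𝕂 : Type w} [Field 𝕂] [LinearOrder 𝕂] [IsStrictOrderedRing 𝕂] {v : OVal 𝕂 Ω} {r D n : ℕ}

/-- A monomial of a limit frame of `L` lies in `L`. -/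
theorem LF.Mono.mem_field {B : LF k v r D} {L : IntermediateField k Ω} (hL : FracIs B.R L)
    {s : Ω} (hs : B.Mono s) : s ∈ L := by
  have h1 : B.χ (v s) ∈ L :=
    TGBh34.chi_mem_field (TGBh34.isFr_of_LF B).toPre0 hL.1 hs.2.1
  have h2 := L.mul_mem h1 (hL.1 _ hs.2.2.1)
  rwa [mul_div_cancel₀ _ (B.χ_ne _ hs.2.1)] at h2

/-- ROW 3.2. -/
theorem tstep (h : Ctx0 k v n) (B : LF k v r D)
    {L : IntermediateField k Ω} (hL : FracIs B.R L) {z : Ω} (hz : Transcendental L z)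
    (S : AddSubgroup Ω) (_hS : (S : Set Ω).Finite) (hSm : ∀ s ∈ S, s ≠ 0 → B.Mono s) {s₀ : Ω}
    (hs₀ : s₀ ∈ S) (hmax : ∀ s ∈ S, v (z - s) ≤ v (z - s₀)) :
    ∃ (r' D' : ℕ) (C : LF k v r' D'), TStep B L S z s₀ C := by
  obtain ⟨r', D', C, h1, h2, h3, h4, -, h6, h7, h8⟩ := TGBh34.row32 h.triv h.res B hL hz
    (S := (S : Set Ω)) (fun s hs t ht => by
      by_cases h0 : s - t = 0
      · exact Or.inl h0
      · exact Or.inr (hSm _ (S.sub_mem hs ht) h0))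
    (fun s hs => by
      by_cases h0 : s = 0
      · rw [h0]; exact L.zero_mem
      · exact (hSm s hs h0).mem_field hL)
    hs₀ hmax
  have hFZ : FZ L z = L ⊔ IntermediateField.adjoin k {z} := by
    rw [FZ, IntermediateField.adjoin_union, IntermediateField.adjoin_self]
  refine ⟨r', D', C, h1, by rw [hFZ]; exact h8, h2, fun γ => ?_, fun γ hγ => ?_, h7 s₀ hs₀, h7,
    fun j => ?_⟩
  · rw [h3]
    exact ALLh43.mem_ext_iff
  · have hmem : γ ∈ C.Γ := by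
      rw [h3]
      exact ALLh43.le_ext _ _ hγ
    refine ⟨B.χ_ne γ hγ, ?_, ?_⟩
    · rw [B.χ_val γ hγ]; exact hmem
    · rw [B.χ_val γ hγ]; exact h4 γ hγ
  · rcases h6 j with hj | ⟨q, c, hq, hqv, hc, e⟩
    · exact Or.inl hj
    · exact Or.inr ⟨q, c, hq, hc, hqv, e⟩

end Pool.Agent.TGL
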