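import Pool.Agent.Lib.TGL_h17.LFc
import Pool.Agent.Lib.TGL.TStep
import Pool.Agent.Lib.TGL.Gal
import Pool.Agent.Lib.TGL.Bk
import Pool.Agent.Lib.TGL_h85.Cut

/-!
# TANK G, TRACK L, rows LEVELS and TORS

`SD.levels`: the integral closure of `R₁` in `L(z)` (localised at the centre) is the ring of the
frame `C` of the step `L → L(z)`. `SD.mem_R1`: all monomials of value `≥ 0` in the `z - s` and in
the base monomials which are in `L₀(z)` are in `R₁`. `SD.tors`: labels and monomials.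
-/

set_option autoImplicit false

namespace Pool.Agent.TGL

open Pool.Agent.TAO (OVal VPos Ctx0)
open Pool.Agent.LU1 (FracIs)
open Pool.Agent.ALLO (locv icl ICl decP le_locv locv_le locv_inv)
open Pool.Agent.ALLZO (NRing)
open Pool.Agent.ALLh64 (mem_ICl_of_isIntegral)
open Pool.Agent.TGH17 (LD)
open Pool.Agent.TGL17 (mono_one mono_mul mono_inv mono_div mono_pow mono_zpow mono_mem mono_of_un
  mono_chi un_of_mono un_div_chi mono_of_mo ext_mono icl_mono icl_le le_icl icl_field icl_nonneg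
  lim_field lim_nonneg lim_mul_mono lim_mul_le mo_mem_lim ratio_mem_lim mo_mono lf_normal exists_LD)

universe u w

variable {k Ω : Type u} [Field k] [Field Ω] [Algebra k Ω]
  {𝕂 : Type w} [Field 𝕂] [LinearOrder 𝕂] [IsStrictOrderedRing 𝕂] {v : OVal 𝕂 Ω} {r D n : ℕ}

/-! ### Fields -/

theorem l17_FZ_le {L₀ M : IntermediateField k Ω} {z : Ω} (h : L₀ ≤ M) (hz : z ∈ M) :
    FZ L₀ z ≤ M := by
  refine IntermediateField.adjoin_le_iff.2 ?_
  rintro x (hx | hx)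
  · exact h hx
  · rw [Set.mem_singleton_iff.1 hx]
    exact hz

theorem l17_FZ_mono {L₀ M : IntermediateField k Ω} {z : Ω} (h : L₀ ≤ M) : FZ L₀ z ≤ FZ M z :=
  l17_FZ_le (h.trans (le_FZ M z)) (mem_FZ M z)

theorem l17_le_restrict (L₀ : IntermediateField k Ω) (L : IntermediateField L₀ Ω) :
    L₀ ≤ L.restrictScalars k := fun x hx => L.algebraMap_mem ⟨x, hx⟩

theorem l17_trdeg_eq_of_alg {K E : IntermediateField k Ω} (hKE : K ≤ E)
    (halg : ∀ g ∈ E, IsAlgebraic K g) : Algebra.trdeg k E = Algebra.trdeg k K := by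
  let _ : Algebra K E := (IntermediateField.inclusion hKE).toRingHom.toAlgebra
  have h1 : IsScalarTower k K E := IsScalarTower.of_algebraMap_eq fun _ => rfl
  have h2 : IsScalarTower K E Ω := IsScalarTower.of_algebraMap_eq fun _ => rfl
  have h3 : Algebra.IsAlgebraic K E := ⟨fun g => by
    have h4 := halg g g.2
    exact (isAlgebraic_algebraMap_iff (algebraMap E Ω).injective).1 h4⟩
  obtain ⟨ι, x, hx⟩ := exists_isTranscendenceBasis' k K
  rw [← hx.cardinalMk_eq_trdeg, ← (hx.algebraMap_comp (A := E)).cardinalMk_eq_trdeg]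

/-! ### Two generators -/

/-- `⟨1, z⟩` has a minimal element `q` which is `1` or `z`. -/
theorem l17_exists_omin_span (h : Ctx0 k v n) {z : Ω} (hz : z ≠ 0) :
    ∃ q, OMin v (Submodule.span k {1, z}) q ∧ ((q = 1 ∧ 0 ≤ v z) ∨ (q = z ∧ v z ≤ 0)) := by
  have h1 : (1 : Ω) ∈ Submodule.span k ({1, z} : Set Ω) :=
    Submodule.subset_span (Set.mem_insert _ _)
  have h2 : z ∈ Submodule.span k ({1, z} : Set Ω) :=
    Submodule.subset_span (Set.mem_insert_of_mem _ rfl)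
  have hk : ∀ c : k, v.Ge 0 (algebraMap k Ω c) := by
    intro c h0
    have hc : c ≠ 0 := by
      rintro rfl
      exact h0 (map_zero _)
    rw [h.triv c hc]
  have key : ∀ q : Ω, v.Ge 0 (1 / q) → v.Ge 0 (z / q) →
      ∀ g ∈ Submodule.span k ({1, z} : Set Ω), v.Ge 0 (g / q) := by
    intro q hq1 hqz g hg
    induction hg using Submodule.span_induction with
    | mem x hx =>
      rcases hx with rfl | hx
      · exact hq1
      · rw [Set.mem_singleton_iff.1 hx]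
        exact hqz
    | zero => rw [zero_div]; exact OVal.Ge.zero
    | add x y _ _ hx hy => rw [add_div]; exact hx.add hy
    | smul c x _ hx =>
      rw [smul_div_assoc, Algebra.smul_def]
      have := (hk c).mul hx
      rwa [add_zero] at this
  rcases le_total 0 (v z) with h0 | h0
  · refine ⟨1, ⟨h1, one_ne_zero, key 1 ?_ ?_⟩, Or.inl ⟨rfl, h0⟩⟩
    · rw [div_one]
      exact fun _ => by rw [v.map_one]
    · rw [div_one]
      exact fun _ => h0
  · refine ⟨z, ⟨h2, hz, key z ?_ ?_⟩, Or.inr ⟨rfl, h0⟩⟩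
    · rw [one_div]
      exact fun _ => by rw [v.map_inv hz]; linarith
    · rw [div_self hz]
      exact fun _ => by rw [v.map_one]

/-- The exponent of an extension of frames. -/
theorem l17_tors_unif {B C : LF k v r D} (h : B.Ext C) :
    ∃ e : ℕ, 0 < e ∧ ∀ γ ∈ C.Γ, (e : 𝕂) * γ ∈ B.Γ := by
  classical
  obtain ⟨G, hG⟩ := C.fg
  choose! e he h1 using h.tors
  refine ⟨∏ γ ∈ G, e γ, Finset.prod_pos fun γ hγ => he γ ?_, fun γ hγ => ?_⟩
  · rw [← hG]
    exact AddSubgroup.subset_closure hγ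
  rw [← hG] at hγ
  induction hγ using AddSubgroup.closure_induction with
  | mem x hx =>
    have hx' : x ∈ C.Γ := by
      rw [← hG]
      exact AddSubgroup.subset_closure hx
    rw [← Finset.prod_erase_mul G e hx]
    push_cast
    rw [mul_assoc, ← Nat.cast_prod, ← nsmul_eq_mul]
    exact B.Γ.nsmul_mem (h1 x hx') _
  | zero => rw [mul_zero]; exact B.Γ.zero_mem
  | add x y _ _ hx hy => rw [mul_add]; exact B.Γ.add_mem hx hy
  | neg x _ hx => rw [mul_neg]; exact B.Γ.neg_mem hx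

section Step

variable {p : ℕ} {L₀ : IntermediateField k Ω} {L : IntermediateField L₀ Ω} {z : Ω}
  {PB : Submodule k Ω} {SB : Set Ω} {S : AddSubgroup Ω} {B₀ B : LF k v r D}

/-- `S` as a finset. -/
noncomputable def SD.l17_fin (sd : SD (v := v) p L₀ L z PB SB S B₀ B) : Finset Ω :=
  sd.S_fin.toFinset

section Basic

variable (sd : SD (v := v) p L₀ L z PB SB S B₀ B)

include sd

theorem SD.l17_mem_fin {s : Ω} : s ∈ sd.l17_fin ↔ s ∈ S := by
  unfold SD.l17_fin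
  rw [Set.Finite.mem_toFinset]
  rfl

theorem SD.l17_Fz_eq : Fz S z = ∏ s ∈ sd.l17_fin, (z - s) := by
  unfold Fz SD.l17_fin
  exact finprod_mem_eq_finite_toFinset_prod _ sd.S_fin

theorem SD.l17_z_notMem : z ∉ L.restrictScalars k := fun hz =>
  sd.tr (isAlgebraic_algebraMap (⟨z, hz⟩ : L.restrictScalars k))

theorem SD.l17_S_memk {s : Ω} (hs : s ∈ S) : s ∈ L.restrictScalars k := sd.S_mem s hs

theorem SD.l17_z_sub_ne {s : Ω} (hs : s ∈ S) : z - s ≠ 0 := fun h0 =>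
  sd.l17_z_notMem (by rw [sub_eq_zero.1 h0]; exact sd.l17_S_memk hs)

theorem SD.l17_z_ne : z ≠ 0 := by
  have := sd.l17_z_sub_ne S.zero_mem
  rwa [sub_zero] at this

theorem SD.l17_B_field : ∀ f ∈ B.R, f ∈ L.restrictScalars k := by
  rw [sd.ring]
  exact icl_field _

theorem SD.l17_lim_le₀ : Lim v PB SB ≤ B₀.R := by
  rw [sd.ring₀]
  exact le_icl (lim_field sd.PB_mem fun s hs => (sd.SB_mem s hs).1)

theorem SD.l17_omin (h : Ctx0 k v n) : ∃ f, OMin v PB f :=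
  TGL17.OMin.exists h sd.PB_fg sd.PB_ne

/-- The old limit ring is contained in the new one. -/
theorem SD.l17_lim_le_lim (h : Ctx0 k v n) :
    Lim v PB SB ≤ Lim v (PB * Submodule.span k {1, z}) (SB ∪ {Fz S z}) := by
  obtain ⟨q, hq, -⟩ := l17_exists_omin_span h sd.l17_z_ne
  exact lim_mul_mono (sd.l17_omin h) ⟨q, hq⟩ Set.subset_union_left

theorem SD.l17_B₀_le (h : Ctx0 k v n) : B₀.R ≤ R1 v L₀ z PB SB S := by
  rw [sd.ring₀]
  exact icl_mono (sd.l17_lim_le_lim h) (le_FZ L₀ z)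

end Basic

section Gal

variable [FiniteDimensional L₀ L] [IsGalois L₀ L]

theorem SD.l17_NZ_eq (sd : SD (v := v) p L₀ L z PB SB S B₀ B) :
    (NZ L₀ L z).restrictScalars k = FZ (L.restrictScalars k) z := (galois_NZ sd.tr).2.2.1

theorem SD.l17_trdeg (sd : SD (v := v) p L₀ L z PB SB S B₀ B) :
    Algebra.trdeg k (FZ (L.restrictScalars k) z) = ((r + D + 1 : ℕ)) := by
  obtain ⟨h1, -, h3, h4⟩ := galois_NZ sd.tr
  have h5 : Algebra.trdeg k (FZ (L.restrictScalars k) z) = Algebra.trdeg k (FZ L₀ z) := by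
    refine l17_trdeg_eq_of_alg (l17_FZ_mono (l17_le_restrict L₀ L)) fun g hg => ?_
    rw [← h3] at hg
    have h6 : IsAlgebraic (FZ L₀ z) (⟨g, hg⟩ : NZ L₀ L z) := Algebra.IsAlgebraic.isAlgebraic _
    exact (isAlgebraic_algebraMap_iff (algebraMap (NZ L₀ L z) Ω).injective).2 h6
  rw [h5, h4, sd.trd]
  push_cast
  rfl

theorem SD.l17_lim_fld (sd : SD (v := v) p L₀ L z PB SB S B₀ B) :
    ∀ f ∈ Lim v (PB * Submodule.span k {1, z}) (SB ∪ {Fz S z}), f ∈ FZ L₀ z := by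
  refine lim_field (fun f hf => ?_) fun s hs => ?_
  · induction hf using Submodule.mul_induction_on' with
    | mem_mul_mem a ha b hb =>
      refine (FZ L₀ z).mul_mem (le_FZ L₀ z (sd.PB_mem a ha)) ?_
      induction hb using Submodule.span_induction with
      | mem x hx =>
        rcases hx with rfl | hx
        · exact (FZ L₀ z).one_mem
        · rw [Set.mem_singleton_iff.1 hx]
          exact mem_FZ L₀ z
      | zero => exact (FZ L₀ z).zero_mem
      | add x y _ _ hx hy => exact (FZ L₀ z).add_mem hx hy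
      | smul c x _ hx => exact (FZ L₀ z).smul_mem hx
    | add a _ b _ ha hb => exact (FZ L₀ z).add_mem ha hb
  · rcases hs with hs | hs
    · exact le_FZ L₀ z (sd.SB_mem s hs).1
    · rw [Set.mem_singleton_iff.1 hs]
      exact sd.Fz_mem.1

theorem SD.l17_lim_le_R1 (sd : SD (v := v) p L₀ L z PB SB S B₀ B) :
    Lim v (PB * Submodule.span k {1, z}) (SB ∪ {Fz S z}) ≤ R1 v L₀ z PB SB S :=
  le_icl sd.l17_lim_fld

theorem SD.l17_R1_nonneg (h : Ctx0 k v n) : ∀ f ∈ R1 v L₀ z PB SB S, v.Ge 0 f :=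
  icl_nonneg (lim_nonneg h) _

theorem SD.l17_R1_field : ∀ f ∈ R1 v L₀ z PB SB S, f ∈ FZ L₀ z := icl_field _

end Gal

theorem l17_R1_le_T : R1 v L₀ z PB SB S ≤ ICl v (R1 v L₀ z PB SB S) (FZ (L.restrictScalars k) z) :=
  le_icl fun f hf => l17_FZ_mono (l17_le_restrict L₀ L) (icl_field _ f hf)

theorem SD.l17_B_le_T (h : Ctx0 k v n) (sd : SD (v := v) p L₀ L z PB SB S B₀ B) :
    B.R ≤ ICl v (R1 v L₀ z PB SB S) (FZ (L.restrictScalars k) z) := by
  rw [sd.ring]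
  exact icl_mono (sd.l17_B₀_le h) (le_FZ _ z)

/-! ### The labels -/

theorem TStep.l17_B_le {s₀ : Ω} {Lk : IntermediateField k Ω} {r' D' : ℕ} {C : LF k v r' D'}
    (hC : TStep B Lk S z s₀ C) : B.R ≤ C.R := by
  rw [hC.ring]
  exact fun f hf => le_locv _ (Algebra.subset_adjoin (Or.inl hf))

theorem TStep.l17_mono_of {s₀ : Ω} {Lk : IntermediateField k Ω} {r' D' : ℕ} {C : LF k v r' D'}
    (hC : TStep B Lk S z s₀ C) {f : Ω} (hf : B.Mono f) : C.Mono f := by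
  have h1 : f = B.χ (v f) * (f / B.χ (v f)) := by
    rw [mul_div_cancel₀ _ (B.χ_ne _ hf.2.1)]
  rw [h1]
  exact mono_mul C (hC.χ_mono _ hf.2.1)
    (mono_of_un C ⟨hC.l17_B_le hf.2.2.1, hf.2.2.2.1, hf.2.2.2.2⟩)

theorem l17_mono_prod (C : LF k v r D) {ι : Type*} (s : Finset ι) (f : ι → Ω)
    (hf : ∀ i ∈ s, C.Mono (f i)) : C.Mono (∏ i ∈ s, f i) := by
  classical
  induction s using Finset.induction_on with
  | empty => rw [Finset.prod_empty]; exact mono_one C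
  | insert a s ha ih =>
    rw [Finset.prod_insert ha]
    exact mono_mul C (hf a (Finset.mem_insert_self a s))
      (ih fun i hi => hf i (Finset.mem_insert_of_mem hi))

theorem SD.l17_lab (sd : SD (v := v) p L₀ L z PB SB S B₀ B) {s₀ : Ω} {r' D' : ℕ} {C : LF k v r' D'}
    (hC : TStep B (L.restrictScalars k) S z s₀ C) : C.Lab (SB ∪ {Fz S z}) := by
  rintro s (hs | hs)
  · exact hC.l17_mono_of (ext_mono B₀ sd.ext (sd.lab₀ s hs))
  · rw [Set.mem_singleton_iff.1 hs, sd.l17_Fz_eq]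
    exact l17_mono_prod C _ _ fun s hs => hC.mono s (sd.l17_mem_fin.1 hs)

/-- The new limit ring is contained in the ring of the frame of `L(z)`. -/
theorem SD.l17_lim_le_C (h : Ctx0 k v n) (sd : SD (v := v) p L₀ L z PB SB S B₀ B) {s₀ : Ω}
    {r' D' : ℕ} {C : LF k v r' D'} (hC : TStep B (L.restrictScalars k) S z s₀ C) :
    Lim v (PB * Submodule.span k {1, z}) (SB ∪ {Fz S z}) ≤ C.R := by
  obtain ⟨f, hf⟩ := sd.l17_omin h
  obtain ⟨q, hq, hq1⟩ := l17_exists_omin_span h sd.l17_z_ne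
  have hz : C.Mono z := by
    have := hC.mono 0 S.zero_mem
    rwa [sub_zero] at this
  refine lim_mul_le C.loc hf hq (fun g hg => ?_) (fun g hg => ?_) fun m hm h0 => ?_
  · exact hC.l17_B_le (sd.ext.le (sd.l17_lim_le₀ (ratio_mem_lim hf hg)))
  · have h1 : 1 / q ∈ C.R ∧ z / q ∈ C.R := by
      rcases hq1 with ⟨rfl, h0⟩ | ⟨rfl, h0⟩
      · rw [div_one, div_one]
        exact ⟨C.R.one_mem, mono_mem C hz h0⟩
      · rw [div_self hq.ne, one_div]
        refine ⟨mono_mem C (mono_inv C hz) ?_, C.R.one_mem⟩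
        rw [v.map_inv hq.ne]
        linarith
    induction hg using Submodule.span_induction with
    | mem x hx =>
      rcases hx with rfl | hx
      · exact h1.1
      · rw [Set.mem_singleton_iff.1 hx]
        exact h1.2
    | zero => rw [zero_div]; exact C.R.zero_mem
    | add x y _ _ hx hy => rw [add_div]; exact C.R.add_mem hx hy
    | smul c x _ hx =>
      rw [smul_div_assoc]
      exact C.R.smul_mem hx c
  · exact mono_mem C (mono_of_mo C (sd.l17_lab hC) hm) (h0 m.ne_zero)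

/-! ### The integral closure of `R₁` -/

/-- The monomials of `B` have a uniform power which is a monomial in the old labels, up to
units. -/
theorem SD.l17_exists_pow (sd : SD (v := v) p L₀ L z PB SB S B₀ B) {b : Ω} (hb : B.Mono b) :
    ∃ e : ℕ, 0 < e ∧ ∃ m ∈ Mo SB, B.Un (b ^ e / (m : Ω)) := by
  obtain ⟨e, he, h1⟩ := sd.ext.tors _ hb.2.1
  obtain ⟨e', he', h2⟩ := sd.tors₀
  obtain ⟨m, hm, h3, h4, h5⟩ := h2 _ h1
  refine ⟨e' * e, Nat.mul_pos he' he, m, hm, ?_⟩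
  have hmono : B.Mono (m : Ω) := ext_mono B₀ sd.ext (mono_of_mo B₀ sd.lab₀ hm)
  have h6 : (e' : 𝕂) * ((e : 𝕂) * v b) ∈ B₀.Γ := by
    rw [← nsmul_eq_mul]
    exact B₀.Γ.nsmul_mem h1 e'
  have h7 : v (m : Ω) = (e' : 𝕂) * ((e : 𝕂) * v b) := by
    rw [v.map_div m.ne_zero (B₀.χ_ne _ h6), B₀.χ_val _ h6] at h5
    linarith
  refine un_of_mono B (mono_div B (mono_pow B hb _) hmono) ?_
  rw [v.map_div (pow_ne_zero _ hb.1) m.ne_zero, v.map_pow hb.1, h7]
  push_cast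
  ring

section Gal

variable [FiniteDimensional L₀ L] [IsGalois L₀ L]

/-- The hypothesis `key` of the levels lemma. -/
theorem SD.l17_key (h : Ctx0 k v n) (sd : SD (v := v) p L₀ L z PB SB S B₀ B) {b : Ω}
    (hb : B.Mono b) (a : ℤ) (h0 : 0 ≤ v (Fz S z ^ a * b)) :
    Fz S z ^ a * b ∈ ICl v (R1 v L₀ z PB SB S) (FZ (L.restrictScalars k) z) := by
  obtain ⟨hF, hF0⟩ := sd.Fz_mem
  obtain ⟨e, he, m, hm, hu⟩ := sd.l17_exists_pow hb
  have hx0 : Fz S z ^ a * b ≠ 0 := mul_ne_zero (zpow_ne_zero _ hF0) hb.1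
  have hbL : b ∈ L.restrictScalars k := by
    have h1 : b = B.χ (v b) * (b / B.χ (v b)) := by
      rw [mul_div_cancel₀ _ (B.χ_ne _ hb.2.1)]
    rw [h1]
    exact (L.restrictScalars k).mul_mem
      (TGBh34.chi_mem_field (TGL17.isFr B).toPre0 sd.l17_B_field hb.2.1) (sd.l17_B_field _ hb.2.2.1)
  have hxL : Fz S z ^ a * b ∈ FZ (L.restrictScalars k) z := by
    refine (FZ (L.restrictScalars k) z).mul_mem ?_ (le_FZ _ z hbL)
    exact zpow_mem (l17_FZ_mono (l17_le_restrict L₀ L) hF) a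
  refine mem_ICl_of_isIntegral hxL ?_
  -- the power
  set F' : Ωˣ := Units.mk0 (Fz S z) hF0 with hF'
  have hm' : F' ^ (a * e) * m ∈ Mo (SB ∪ {Fz S z}) := by
    refine (Mo _).mul_mem ((Mo _).zpow_mem (Subgroup.subset_closure ?_) _)
      (mo_mono Set.subset_union_left hm)
    exact Or.inr rfl
  have hpow : (Fz S z ^ a * b) ^ e = ((F' ^ (a * e) * m : Ωˣ) : Ω) * (b ^ e / (m : Ω)) := by
    rw [mul_pow, ← zpow_natCast (Fz S z ^ a) e, ← zpow_mul, Units.val_mul,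
      Units.val_zpow_eq_zpow_val, hF', Units.val_mk0, mul_assoc,
      mul_div_cancel₀ _ m.ne_zero]
  have hval : 0 ≤ v ((F' ^ (a * e) * m : Ωˣ) : Ω) := by
    have h1 : v ((Fz S z ^ a * b) ^ e) = v ((F' ^ (a * e) * m : Ωˣ) : Ω) := by
      rw [hpow, v.map_mul (Units.ne_zero _) hu.2.1, hu.2.2, add_zero]
    rw [← h1, v.map_pow hx0]
    exact mul_nonneg (Nat.cast_nonneg _) h0
  have h2 : (Fz S z ^ a * b) ^ e ∈
      ICl v (R1 v L₀ z PB SB S) (FZ (L.restrictScalars k) z) := by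
    rw [hpow]
    refine Subalgebra.mul_mem _ ?_ (sd.l17_B_le_T h hu.1)
    exact l17_R1_le_T (sd.l17_lim_le_R1 (mo_mem_lim hm' fun _ => hval))
  have h3 : IsIntegral (ICl v (R1 v L₀ z PB SB S) (FZ (L.restrictScalars k) z))
      ((Fz S z ^ a * b) ^ e) :=
    isIntegral_algebraMap (x := (⟨_, h2⟩ :
      ICl v (R1 v L₀ z PB SB S) (FZ (L.restrictScalars k) z)))
  exact h3.of_pow he

/-- The data of the levels lemma. -/
theorem SD.l17_ld (h : Ctx0 k v n) (sd : SD (v := v) p L₀ L z PB SB S B₀ B) :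
    LD v (ICl v (R1 v L₀ z PB SB S) (FZ (L.restrictScalars k) z))
      (FZ (L.restrictScalars k) z).toSubalgebra sd.l17_fin
      {b | TGBh34.Mono v B.Γ B.χ B.R b} z := by
  refine exists_LD (TGL17.isFr B) sd.l17_B_field (le_FZ _ z) (mem_FZ _ z) sd.l17_z_notMem
    (sd.l17_mem_fin.2 S.zero_mem) (fun a ha b hb => ?_) (fun a ha => ?_) (fun s hs => ?_)
    (fun s hs h0 => ?_) (SD.l17_R1_nonneg h) (sd.l17_B_le_T h) fun b hb a h0 => ?_
  · exact sd.l17_mem_fin.2 (S.add_mem (sd.l17_mem_fin.1 ha) (sd.l17_mem_fin.1 hb))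
  · exact sd.l17_mem_fin.2 (S.neg_mem (sd.l17_mem_fin.1 ha))
  · exact sd.l17_S_memk (sd.l17_mem_fin.1 hs)
  · exact (TGL17.mono_iff B).1 (sd.S_mono s (sd.l17_mem_fin.1 hs) h0)
  · rw [← sd.l17_Fz_eq] at h0 ⊢
    exact sd.l17_key h ((TGL17.mono_iff B).2 hb) a h0

/-- ROW LEVELS. -/
theorem SD.levels [IsAlgClosed k] [IsAlgClosed Ω] (h : Ctx0 k v n)
    (sd : SD (v := v) p L₀ L z PB SB S B₀ B) {s₀ : Ω}
    (hs₀ : s₀ ∈ S) (hmax : ∀ s ∈ S, v (z - s) ≤ v (z - s₀)) {r' D' : ℕ} {C : LF k v r' D'}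
    (hC : TStep B (L.restrictScalars k) S z s₀ C) :
    ICl v (R1 v L₀ z PB SB S) ((NZ L₀ L z).restrictScalars k) = C.R := by
  rw [sd.l17_NZ_eq]
  have htr : Algebra.trdeg k (FZ (L.restrictScalars k) z) = ((r' + D' : ℕ)) := by
    rw [hC.rank]
    exact sd.l17_trdeg
  have hn := lf_normal h C hC.frac htr
  apply le_antisymm
  · refine icl_le ?_ C.loc hn
    exact icl_le (sd.l17_lim_le_C h hC) C.loc fun f hf => hn f (l17_FZ_mono (l17_le_restrict L₀ L) hf)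
  · have hld := sd.l17_ld h
    rw [hC.ring]
    refine locv_le (Algebra.adjoin_le ?_) fun f hf h0 h1 => locv_inv hf h0 h1
    rintro x (hx | ⟨γ, hγ, j, h0, rfl⟩)
    · exact sd.l17_B_le_T h hx
    · have hw := hld.w_ne (sd.l17_mem_fin.2 hs₀)
      have h1 := hld.mono_mem (sd.l17_mem_fin.2 hs₀) (fun s hs => hmax s (sd.l17_mem_fin.1 hs))
        (b := B.χ γ) ((TGL17.mono_iff B).1 (mono_chi B hγ)) j (by
          rw [v.map_mul (zpow_ne_zero _ hw) (B.χ_ne γ hγ), v.map_zpow hw, B.χ_val γ hγ]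
          linarith)
      rwa [mul_comm] at h1

omit [IsGalois L₀ L] in
theorem SD.l17_frac (sd : SD (v := v) p L₀ L z PB SB S B₀ B) : FracIs B.R (L.restrictScalars k) := by
  rw [sd.ring]
  refine ⟨icl_field _, fun g hg => ?_⟩
  have h1 : IsAlgebraic L₀ (⟨g, hg⟩ : L) := Algebra.IsAlgebraic.isAlgebraic _
  have h2 : IsAlgebraic L₀ g :=
    (isAlgebraic_algebraMap_iff (algebraMap L Ω).injective).2 h1
  have h3 : IsAlgebraic B₀.R g := Pool.Agent.LU1.isAlgebraic_of_frac sd.frac₀ h2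
  obtain ⟨y, hy0, hy⟩ := h3.exists_integral_multiple
  have hy1 : (y : Ω) ≠ 0 := fun h0 => hy0 (Subtype.ext h0)
  have hyL : (y : Ω) ∈ L.restrictScalars k := l17_le_restrict L₀ L (sd.frac₀.1 y y.2)
  have hyg : (y : Ω) * g ∈ L.restrictScalars k := (L.restrictScalars k).mul_mem hyL hg
  exact ⟨(y : Ω) * g, le_locv _ ⟨hyg, hy⟩, y,
    le_locv _ ⟨hyL, isIntegral_algebraMap (x := y)⟩, hy1, by field_simp⟩

/-- ROW LEVELS: the monomials in the `z - s` and in the base monomials. -/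
theorem SD.mem_R1 [IsAlgClosed k] [IsAlgClosed Ω] (h : Ctx0 k v n)
    (sd : SD (v := v) p L₀ L z PB SB S B₀ B) {x : Ωˣ}
    (hx : x ∈ Mo ({b | b ∈ L₀ ∧ B₀.Mono b} ∪ {x | ∃ s ∈ S, x = z - s})) (hxF : (x : Ω) ∈ FZ L₀ z)
    (hx0 : v.Ge 0 (x : Ω)) : (x : Ω) ∈ R1 v L₀ z PB SB S := by
  obtain ⟨s₀, hs₀, hmax⟩ := Finset.exists_max_image sd.l17_fin (fun s => v (z - s))
    ⟨0, sd.l17_mem_fin.2 S.zero_mem⟩
  have hs₀' := sd.l17_mem_fin.1 hs₀
  have hmax' : ∀ s ∈ S, v (z - s) ≤ v (z - s₀) := fun s hs => hmax s (sd.l17_mem_fin.2 hs)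
  obtain ⟨r', D', C, hC⟩ := tstep h B sd.l17_frac sd.tr S sd.S_fin sd.S_mono hs₀' hmax'
  have h1 : C.Mono (x : Ω) := by
    refine mono_of_mo C (fun y hy => ?_) hx
    rcases hy with ⟨-, hy⟩ | ⟨s, hs, rfl⟩
    · exact hC.l17_mono_of (ext_mono B₀ sd.ext hy)
    · exact hC.mono s hs
  have h2 := mono_mem C h1 (hx0 x.ne_zero)
  rw [← sd.levels h hs₀' hmax' hC] at h2
  obtain ⟨i1, i2, -⟩ := galois_NZ sd.tr
  exact TGL85.mem_of_mem_ICl h (sd.nring_R1 h) hxF h2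

/-- ROW TORS. -/
theorem SD.tors [IsAlgClosed k] [IsAlgClosed Ω] (h : Ctx0 k v n)
    (sd : SD (v := v) p L₀ L z PB SB S B₀ B) {s₀ : Ω}
    (hs₀ : s₀ ∈ S) (hmax : ∀ s ∈ S, v (z - s) ≤ v (z - s₀)) {r' D' : ℕ} {C : LF k v r' D'}
    (hC : TStep B (L.restrictScalars k) S z s₀ C) :
    C.Tors (SB ∪ {Fz S z}) ∧ C.Lab (SB ∪ {Fz S z}) := by
  refine ⟨?_, sd.l17_lab hC⟩
  have hF0 := sd.Fz_mem.2
  have hw : z - s₀ ≠ 0 := sd.l17_z_sub_ne hs₀
  obtain ⟨N, b, hN, hb, hu⟩ := (sd.l17_ld h).prod_form (sd.l17_mem_fin.2 hs₀)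
    fun s hs => hmax s (sd.l17_mem_fin.1 hs)
  rw [← sd.l17_Fz_eq] at hu
  have hb' : B.Mono b := (TGL17.mono_iff B).2 hb
  have hvF : v (Fz S z) = N * v (z - s₀) + v b := by
    have h1 := hu.2.2
    rw [v.map_div hF0 (mul_ne_zero (pow_ne_zero _ hw) hb'.1),
      v.map_mul (pow_ne_zero _ hw) hb'.1, v.map_pow hw] at h1
    linarith
  obtain ⟨e, he, h1⟩ := l17_tors_unif sd.ext
  obtain ⟨e', he', h2⟩ := sd.tors₀
  refine ⟨N * (e' * e), Nat.mul_pos hN (Nat.mul_pos he' he), fun γ hγ => ?_⟩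
  obtain ⟨δ, hδ, j, rfl⟩ := (hC.Γ_iff γ).1 hγ
  -- the base part
  have hβ : (N : 𝕂) * δ - j * v b ∈ B.Γ := by
    refine B.Γ.sub_mem ?_ ?_
    · rw [← nsmul_eq_mul]
      exact B.Γ.nsmul_mem hδ N
    · rw [← zsmul_eq_mul]
      exact B.Γ.zsmul_mem hb'.2.1 j
  have hβ' := h1 _ hβ
  obtain ⟨m, hm, hm1⟩ := h2 _ hβ'
  have hm2 : v (m : Ω) = (e' : 𝕂) * ((e : 𝕂) * ((N : 𝕂) * δ - j * v b)) := by
    have h6 : (e' : 𝕂) * ((e : 𝕂) * ((N : 𝕂) * δ - j * v b)) ∈ B₀.Γ := by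
      rw [← nsmul_eq_mul]
      exact B₀.Γ.nsmul_mem hβ' e'
    have h5 := hm1.2.2
    rw [v.map_div m.ne_zero (B₀.χ_ne _ h6), B₀.χ_val _ h6] at h5
    linarith
  set F' : Ωˣ := Units.mk0 (Fz S z) hF0 with hF'
  have hmem : F' ^ (j * (e' * e : ℕ)) * m ∈ Mo (SB ∪ {Fz S z}) := by
    refine (Mo _).mul_mem ((Mo _).zpow_mem (Subgroup.subset_closure ?_) _)
      (mo_mono Set.subset_union_left hm)
    exact Or.inr rfl
  refine ⟨_, hmem, ?_⟩
  refine un_div_chi C (mono_of_mo C (sd.l17_lab hC) hmem) ?_ ?_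
  · rw [← nsmul_eq_mul]
    exact C.Γ.nsmul_mem hγ _
  · rw [Units.val_mul, Units.val_zpow_eq_zpow_val, hF', Units.val_mk0,
      v.map_mul (zpow_ne_zero _ hF0) m.ne_zero, v.map_zpow hF0, hm2, hvF]
    push_cast
    ring

end Gal

end Step

end Pool.Agent.TGL
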