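import Pool.Agent.Lib.TGL.Defs
import Pool.Agent.Lib.ALLZO.Z1a

/-!
# TANK G, TRACK L: the objects of the step `L₀ → L₀(z) → E`

Definitions used in the statements of the rows (`tgl_rows_h23.lean` in the store).
-/

set_option autoImplicit false

namespace Pool.Agent.TGL

open Pool.Agent.TAO (OVal VPos Ctx0)
open Pool.Agent.LU1 (FracIs fixO)
open Pool.Agent.ALLO (locv icl ICl decP)
open Pool.Agent.ALLZO (GoodBasis NRing)

universe u w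

variable {k Ω : Type u} [Field k] [Field Ω] [Algebra k Ω]
  {𝕂 : Type w} [Field 𝕂] [LinearOrder 𝕂] [IsStrictOrderedRing 𝕂] {v : OVal 𝕂 Ω} {r D : ℕ}

/-- `f` and `1 / f` are integral over `B.R[1 / χ]`. -/
def LF.UnI (B : LF k v r D) (f : Ω) : Prop :=
  f ≠ 0 ∧ (∃ γ ∈ B.Γ, IsIntegral B.R (B.χ γ * f)) ∧ ∃ γ ∈ B.Γ, IsIntegral B.R (B.χ γ * f⁻¹)

/-- `L₀(z)`. -/
noncomputable def FZ (L₀ : IntermediateField k Ω) (z : Ω) : IntermediateField k Ω :=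
  IntermediateField.adjoin k ((L₀ : Set Ω) ∪ {z})

/-- Output of the step `L → L(z)`. `s₀` is a nearest element of `S`. -/
structure TStep (B : LF k v r D) (L : IntermediateField k Ω) (S : AddSubgroup Ω) (z s₀ : Ω)
    {r' D' : ℕ} (C : LF k v r' D') : Prop where
  rank : r' + D' = r + D + 1
  frac : FracIs C.R (FZ L z)
  ring : C.R = locv v (Algebra.adjoin k ((B.R : Set Ω) ∪
    {x | ∃ γ ∈ B.Γ, ∃ j : ℤ, 0 ≤ γ + j * v (z - s₀) ∧ x = B.χ γ * (z - s₀) ^ j}))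
  Γ_iff : ∀ γ, γ ∈ C.Γ ↔ ∃ δ ∈ B.Γ, ∃ j : ℤ, γ = δ + j * v (z - s₀)
  χ_mono : ∀ γ ∈ B.Γ, C.Mono (B.χ γ)
  w_mono : C.Mono (z - s₀)
  mono : ∀ s ∈ S, C.Mono (z - s)
  y : ∀ j : Fin D', (∃ i, C.y j = B.y i) ∨ ∃ (q : ℕ) (c : k), 0 < q ∧ c ≠ 0 ∧
    (q : 𝕂) * v (z - s₀) ∈ B.Γ ∧
    C.y j = (z - s₀) ^ q / B.χ (q * v (z - s₀)) - algebraMap k Ω c

/-- `L(z)` as an extension of `L₀(z)`. -/
noncomputable def NZ (L₀ : IntermediateField k Ω) (L : IntermediateField L₀ Ω) (z : Ω) :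
    IntermediateField (FZ L₀ z) Ω := IntermediateField.adjoin (FZ L₀ z) (L : Set Ω)

/-- `F(z) = ∏ (z - s)`. -/
noncomputable def Fz (S : AddSubgroup Ω) (z : Ω) : Ω := ∏ᶠ s ∈ S, (z - s)

/-- The data of the step at `v`: `B₀` the limit frame of `L₀` (model `PB`, labels `SB`), `B` the
one of the Galois extension `L` of `L₀`, `S` the finite additive group spanned by `1` and the
roots. -/
structure SD (p : ℕ) (L₀ : IntermediateField k Ω) (L : IntermediateField L₀ Ω) (z : Ω)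
    (PB : Submodule k Ω) (SB : Set Ω) (S : AddSubgroup Ω) (B₀ B : LF k v r D) : Prop where
  PB_fg : PB.FG
  PB_ne : PB ≠ ⊥
  PB_mem : ∀ f ∈ PB, f ∈ L₀
  SB_mem : ∀ s ∈ SB, s ∈ L₀ ∧ s ≠ 0
  frac₀ : FracIs B₀.R L₀
  ring₀ : B₀.R = ICl v (Lim v PB SB) L₀
  tors₀ : B₀.Tors SB
  lab₀ : B₀.Lab SB
  trd : Algebra.trdeg k L₀ = ((r + D : ℕ))
  ring : B.R = ICl v B₀.R (L.restrictScalars k)
  ext : B₀.Ext B
  tr : Transcendental (L.restrictScalars k) z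
  S_fin : (S : Set Ω).Finite
  S_one : (1 : Ω) ∈ S
  S_mem : ∀ s ∈ S, s ∈ L
  S_gal : ∀ σ : L ≃ₐ[L₀] L, ∀ a : L, (a : Ω) ∈ S → ((σ a : L) : Ω) ∈ S
  S_mono : ∀ s ∈ S, s ≠ 0 → B.Mono s
  card : ¬ p ∣ Nat.card (decP v B₀.R L₀ L)

/-- The ring `R₁`: the normalised limit ring of `L₀(z)` for `PB ⬝ ⟨1, z⟩` and the labels
`SB ∪ {F(z)}`. -/
noncomputable def R1 (v : OVal 𝕂 Ω) (L₀ : IntermediateField k Ω) (z : Ω) (PB : Submodule k Ω)
    (SB : Set Ω) (S : AddSubgroup Ω) : Subalgebra k Ω :=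
  ICl v (Lim v (PB * Submodule.span k {1, z}) (SB ∪ {Fz S z})) (FZ L₀ z)

/-- The data of the last step: `E = N^H` over `F = L₀(z)`, with the local ring `O` of the good
model. -/
structure LastData (v : OVal 𝕂 Ω) (p m : ℕ) (F : IntermediateField k Ω)
    (N : IntermediateField F Ω) (H : Subgroup (N ≃ₐ[F] N)) (O : Subalgebra k Ω) (g : Ω)
    (Z : Set Ω) : Prop where
  noeth : IsNoetherianRing O
  nr : NRing v F O
  idx : H.relIndex (decP v O F N) < p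
  g_mem : g ∈ O
  g_ne : g ≠ 0
  der : ∃ (t : Fin m → fixO F N H) (d : Fin m → Derivation k (fixO F N H) (fixO F N H)),
    (∀ i, ((t i : fixO F N H) : Ω) ∈ O) ∧ (∀ i j, d i (t j) = if i = j then 1 else 0) ∧
    ∀ i, ∀ e : fixO F N H, (e : Ω) ∈ ICl v O (fixO F N H) →
      ∃ M : ℕ, g ^ M * (d i e : Ω) ∈ ICl v O (fixO F N H)
  Z_unit : ∀ a ∈ Z, a ∈ fixO F N H ∧ a ≠ 0 ∧ ∃ M : ℕ, g ^ M * a ∈ ICl v O (fixO F N H) ∧
    g ^ M * a⁻¹ ∈ ICl v O (fixO F N H)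

end Pool.Agent.TGL
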