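import Pool.Agent.Lib.TGL.Gal
import Pool.Agent.Lib.TGL.Frac
import Pool.Agent.Lib.TGL.TStep
import Pool.Agent.Lib.TGL_h17.LFc
import Pool.Agent.Lib.TGL_h89.ActCore
import Pool.Agent.Lib.TGL.Levels

/-!
# TANK G, track L: row 3.3 (a, b, c)
-/

set_option autoImplicit false

namespace Pool.Agent.TGL

open Pool.Agent.TAO (OVal VPos Ctx0)
open Pool.Agent.LU1 (FracIs fixO)
open Pool.Agent.ALLO (locv icl ICl decP le_locv)
open Pool.Agent.ALLZO (GoodBasis NRing)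
open Gal (le_FZ z_mem_FZ FZ_mem_NZ L_mem_NZ z_mem_NZ)

universe u w

variable {k Ω : Type u} [Field k] [Field Ω] [Algebra k Ω]
  {𝕂 : Type w} [Field 𝕂] [LinearOrder 𝕂] [IsStrictOrderedRing 𝕂] {v : OVal 𝕂 Ω} {r D n : ℕ}
variable {p : ℕ} {L₀ : IntermediateField k Ω} {L : IntermediateField L₀ Ω} {z : Ω}
  {PB : Submodule k Ω} {SB : Set Ω} {S : AddSubgroup Ω} {B₀ B : LF k v r D}

theorem R1_nonneg (h : Ctx0 k v n) : ∀ f ∈ R1 v L₀ z PB SB S, v.Ge 0 f := by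
  intro f hf
  obtain ⟨a, ha, b, hb, hb0, hvb, rfl⟩ := hf
  intro h0
  have ha0 : a ≠ 0 := by rintro rfl; simp at h0
  rw [v.map_div ha0 hb0, hvb, sub_zero]
  exact ALLZO.int_ge (TGL17.lim_nonneg h) ha.2 ha0

/-- There is a nearest element of `S`. -/
theorem SD.exists_max (sd : SD (v := v) p L₀ L z PB SB S B₀ B) :
    ∃ s₀ ∈ S, ∀ s ∈ S, v (z - s) ≤ v (z - s₀) := by
  obtain ⟨s₀, h1, h2⟩ := sd.S_fin.toFinset.exists_max_image (fun s => v (z - s))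
    ⟨0, by rw [Set.Finite.mem_toFinset]; exact S.zero_mem⟩
  rw [Set.Finite.mem_toFinset] at h1
  exact ⟨s₀, h1, fun s hs => h2 s (by rw [Set.Finite.mem_toFinset]; exact hs)⟩

theorem SD.frac_B [FiniteDimensional L₀ L] (sd : SD (v := v) p L₀ L z PB SB S B₀ B) :
    FracIs B.R (L.restrictScalars k) := by
  rw [sd.ring]
  refine fracIs_ICl v sd.frac₀ (fun x hx => L.algebraMap_mem ⟨x, hx⟩) fun g hg => ?_
  have h1 : IsAlgebraic L₀ (⟨g, hg⟩ : L) := Algebra.IsAlgebraic.isAlgebraic _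
  exact h1.algHom L.val

theorem SD.exists_tstep (h : Ctx0 k v n) [FiniteDimensional L₀ L]
    (sd : SD (v := v) p L₀ L z PB SB S B₀ B) {s₀ : Ω}
    (hs₀ : s₀ ∈ S) (hmax : ∀ s ∈ S, v (z - s) ≤ v (z - s₀)) :
    ∃ (r' D' : ℕ) (C : LF k v r' D'), TStep B (L.restrictScalars k) S z s₀ C :=
  tstep h B sd.frac_B sd.tr S sd.S_fin sd.S_mono hs₀ hmax

theorem TStep.le {B : LF k v r D} {M : IntermediateField k Ω} {s₀ : Ω} {r' D' : ℕ}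
    {C : LF k v r' D'} (hC : TStep B M S z s₀ C) : B.R ≤ C.R := by
  rw [hC.ring]
  exact fun f hf => le_locv _ (Algebra.subset_adjoin (Or.inl hf))

/-- ROW 3.3a. -/
theorem SD.card_decP [IsAlgClosed k] [IsAlgClosed Ω] (h : Ctx0 k v n)
    [FiniteDimensional L₀ L] [IsGalois L₀ L] (sd : SD (v := v) p L₀ L z PB SB S B₀ B) :
    ¬ p ∣ Nat.card (decP v (R1 v L₀ z PB SB S) (FZ L₀ z) (NZ L₀ L z)) := by
  obtain ⟨s₀, hs₀, hmax⟩ := sd.exists_max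
  obtain ⟨r', D', C, hC⟩ := sd.exists_tstep h hs₀ hmax
  have hlev := sd.levels h hs₀ hmax hC
  obtain ⟨φ, hinj, hφ⟩ := exists_restrict (k := k) (L₀ := L₀) (L := L) (z := z) sd.tr
  have hle : ICl v B₀.R (L.restrictScalars k) ≤
      ICl v (R1 v L₀ z PB SB S) ((NZ L₀ L z).restrictScalars k) := by
    rw [← sd.ring, hlev]
    exact hC.le
  exact fun hp => sd.card (hp.trans (card_dec_dvd sd.frac₀.1 (R1_nonneg h) hle hinj hφ))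

theorem SD.S_NZ [FiniteDimensional L₀ L] [IsGalois L₀ L]
    (sd : SD (v := v) p L₀ L z PB SB S B₀ B) :
    ∀ σ : NZ L₀ L z ≃ₐ[FZ L₀ z] NZ L₀ L z, ∀ a : NZ L₀ L z, (a : Ω) ∈ S →
      ((σ a : NZ L₀ L z) : Ω) ∈ S := by
  obtain ⟨φ, -, hφ⟩ := exists_restrict (k := k) (L₀ := L₀) (L := L) (z := z) sd.tr
  intro σ a ha
  rw [hφ σ a ⟨(a : Ω), sd.S_mem _ ha⟩ rfl]
  exact sd.S_gal (φ σ) ⟨(a : Ω), sd.S_mem _ ha⟩ ha

/-- ROW 3.3b. -/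
theorem SD.exists_near [Fact p.Prime] [CharP Ω p] [IsAlgClosed k] [IsAlgClosed Ω]
    (h : Ctx0 k v n) [FiniteDimensional L₀ L] [IsGalois L₀ L]
    (sd : SD (v := v) p L₀ L z PB SB S B₀ B) :
    ∃ s₀ ∈ S, (∀ s ∈ S, v (z - s) ≤ v (z - s₀)) ∧
      ∀ σ ∈ decP v (R1 v L₀ z PB SB S) (FZ L₀ z) (NZ L₀ L z), ∀ a : NZ L₀ L z, (a : Ω) = s₀ →
        σ a = a := by
  obtain ⟨s₀, hs₀, hmax⟩ := sd.exists_max
  obtain ⟨r', D', C, hC⟩ := sd.exists_tstep h hs₀ hmax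
  have hlev := sd.levels h hs₀ hmax hC
  obtain ⟨hfd, -⟩ := galois_NZ (k := k) (L₀ := L₀) (L := L) (z := z) sd.tr
  exact near_core C hlev.symm (R1_nonneg h) (sd.card_decP h) (z_mem_FZ L₀ z) S
    (fun s hs => L_mem_NZ (sd.S_mem s hs)) sd.S_NZ hs₀ hC.mono hmax

theorem mo_mem {E : IntermediateField k Ω} {T : Set Ω} (hT : ∀ s ∈ T, s ∈ E) {m : Ωˣ}
    (hm : m ∈ Mo T) : (m : Ω) ∈ E := by
  unfold Mo at hm
  induction hm using Subgroup.closure_induction with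
  | mem x hx => exact hT _ hx
  | one => exact E.one_mem
  | mul x y _ _ hx hy => rw [Units.val_mul]; exact E.mul_mem hx hy
  | inv x _ hx => rw [Units.val_inv_eq_inv_val]; exact E.inv_mem hx

theorem LF.Tors.torsE {B : LF k v r D} {E : IntermediateField k Ω} {T : Set Ω} (h : B.Tors T)
    (hT : ∀ s ∈ T, s ∈ E) : B.TorsE E := by
  obtain ⟨e, he, h1⟩ := h
  intro γ hγ
  obtain ⟨m, hm, hu⟩ := h1 γ hγ
  exact ⟨e, he, m, mo_mem hT hm, hu⟩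

theorem LF.χ_nsmul89 (B : LF k v r D) {γ : 𝕂} (hγ : γ ∈ B.Γ) (e : ℕ) :
    (e : 𝕂) * γ ∈ B.Γ ∧ B.χ (e * γ) = B.χ γ ^ e := by
  induction e with
  | zero =>
    refine ⟨by rw [Nat.cast_zero, zero_mul]; exact B.Γ.zero_mem, ?_⟩
    rw [Nat.cast_zero, zero_mul, pow_zero]
    exact B.isFr89.mon.zero
  | succ n ih =>
    have h1 : ((n + 1 : ℕ) : 𝕂) * γ = (n : 𝕂) * γ + γ := by push_cast; ring
    rw [h1]
    exact ⟨B.Γ.add_mem ih.1 hγ, by rw [B.χ_add _ ih.1 _ hγ, ih.2, pow_succ]⟩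

/-- The monomials of `B` have a power in `L₀` up to units. -/
theorem SD.torsE_B (sd : SD (v := v) p L₀ L z PB SB S B₀ B) : B.TorsE L₀ := by
  intro γ hγ
  obtain ⟨e, he, heγ⟩ := sd.ext.tors γ hγ
  obtain ⟨e', he', m, hm, hu⟩ := (sd.tors₀.torsE fun s hs => (sd.SB_mem s hs).1) _ heγ
  refine ⟨e' * e, Nat.mul_pos he' he, m, hm, ?_⟩
  have h1 := (B₀.χ_nsmul89 heγ e').1
  have h2 := sd.ext.χ_un _ h1
  have hu' : B.Un (m / B₀.χ (e' * (e * γ))) := ⟨sd.ext.le hu.1, hu.2⟩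
  have h3 := hu'.mulF h2
  have h4 := B₀.χ_ne _ h1
  have h5 : ((e' * e : ℕ) : 𝕂) * γ = (e' : 𝕂) * ((e : 𝕂) * γ) := by push_cast; ring
  rw [h5]
  have e1 : m / B₀.χ (e' * (e * γ)) * (B₀.χ (e' * (e * γ)) / B.χ (e' * (e * γ))) =
      m / B.χ (e' * (e * γ)) := div_mul_div_cancel₀ h4
  rwa [e1] at h3

/-- ROW 3.3c. -/
theorem SD.act [Fact p.Prime] [CharP Ω p] [IsAlgClosed k] [IsAlgClosed Ω] (h : Ctx0 k v n)
    [FiniteDimensional L₀ L] [IsGalois L₀ L] (sd : SD (v := v) p L₀ L z PB SB S B₀ B) {s₀ : Ω}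
    (hs₀ : s₀ ∈ S) (hmax : ∀ s ∈ S, v (z - s) ≤ v (z - s₀))
    (hfix : ∀ σ ∈ decP v (R1 v L₀ z PB SB S) (FZ L₀ z) (NZ L₀ L z), ∀ a : NZ L₀ L z,
      (a : Ω) = s₀ → σ a = a) {r' D' : ℕ} {C : LF k v r' D'}
    (hC : TStep B (L.restrictScalars k) S z s₀ C) :
    ∀ σ ∈ decP v (R1 v L₀ z PB SB S) (FZ L₀ z) (NZ L₀ L z), ∀ a : NZ L₀ L z, (a : Ω) ∈ C.R →
      C.Hi (((σ a : NZ L₀ L z) : Ω) - a) := by
  intro σ hσ a ha
  have hlev := sd.levels h hs₀ hmax hC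
  obtain ⟨φ, -, hφ⟩ := exists_restrict (k := k) (L₀ := L₀) (L := L) (z := z) sd.tr
  have hCt : C.TorsE (FZ L₀ z) := by
    refine (sd.tors h hs₀ hmax hC).1.torsE fun s hs => ?_
    rcases hs with hs | hs
    · exact le_FZ L₀ z (sd.SB_mem s hs).1
    · rw [Set.mem_singleton_iff] at hs
      rw [hs]
      exact sd.Fz_mem.1
  have hm : (Nat.card (decP v B₀.R L₀ L) : k) ≠ 0 := by
    intro h0
    apply sd.card
    rw [← CharP.cast_eq_zero_iff Ω p]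
    have := congrArg (algebraMap k Ω) h0
    simpa using this
  set w : NZ L₀ L z := ⟨z - s₀, (NZ L₀ L z).sub_mem z_mem_NZ (L_mem_NZ (sd.S_mem s₀ hs₀))⟩ with hw
  have hw0 : w ≠ 0 := fun h0 => hC.w_mono.1 (congrArg (fun t : NZ L₀ L z => (t : Ω)) h0)
  have hwfix : ∀ σ ∈ decP v (R1 v L₀ z PB SB S) (FZ L₀ z) (NZ L₀ L z), σ w = w := by
    intro σ hσ
    have h1 : w = algebraMap (FZ L₀ z) (NZ L₀ L z) ⟨z, z_mem_FZ L₀ z⟩ -
        ⟨s₀, L_mem_NZ (sd.S_mem s₀ hs₀)⟩ := Subtype.ext rfl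
    rw [h1, map_sub, σ.commutes, hfix σ hσ _ rfl]
  have hBy : ∀ i, B.y i ∈ L₀ := fun i => by
    rw [sd.ext.y_eq]
    exact sd.frac₀.1 _ (B₀.y_mem i)
  exact act_core h (le_FZ L₀ z) sd.frac₀.1 B₀.nonneg (R1_nonneg h) B sd.ring hBy sd.torsE_B hm C
    hlev.symm hC.le hC.χ_mono hCt hφ hw0 hwfix hC.y hσ a ha

end Pool.Agent.TGL
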