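import Pool.Agent.Lib.TGL_h36.InvD

/-!
# TANK G, TRACK L, row 3.4a: `Pool.Agent.TGL.tame_quotient` (in `TGL_h36/InvD.lean`)
-/
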