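import Pool.Agent.Lib.TGL.Unit_h5
import Pool.Agent.Lib.TGL_h44.LFT
import Pool.Agent.Lib.ALLG.Cont

/-!
# TANK G, TRACK L, row UNIT: units of `R[1 / χ]` are monomials
-/

set_option autoImplicit false

open Polynomial

namespace Pool.Agent.TGL

open Pool.Agent.TAO (OVal VPos Ctx0)
open Pool.Agent.LU1 (FracIs fixO)
open Pool.Agent.ALLO (locv icl ICl decP)
open Pool.Agent.TGL44 (Wc rv dn lfDn χW χW_coe le_Wc ctx_Wc alg_dn frac_dn lf_χ_mem_field coe_ne)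

universe u w

variable {k Ω : Type u} [Field k] [Field Ω] [Algebra k Ω]
  {𝕂 : Type w} [Field 𝕂] [LinearOrder 𝕂] [IsStrictOrderedRing 𝕂]
  {v : OVal 𝕂 Ω} {r D n : ℕ}

/-- The content valuation of a limit frame of rank `> 0`, on the algebraic closure `W` of its
field. -/
theorem LF.exists_isCont [Infinite k] (h : Ctx0 k v n) (hr : 0 < r) (B : LF k v r D)
    {E : IntermediateField k Ω} (hE : FracIs B.R E) (htr : Algebra.trdeg k E = ((r + D : ℕ)))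
    (hW : ∀ f ∈ B.R, f ∈ Wc E) : ∃ w : OVal 𝕂 (Wc E), (lfDn B hW).IsCont w := by
  have h' : Ctx0 k (rv v (Wc E)) (r + D) := ctx_Wc h htr
  obtain ⟨w, hw⟩ := ALLG.exists_isCont h' hr rfl ((lfDn B hW).toFR hr (alg_dn hE))
    (frac_dn le_Wc hE)
  have hF := frac_dn (W := Wc E) le_Wc hE
  exact ⟨w, ⟨fun γ hγ => hw.χ hγ, fun f hf => hw.ge h' hr rfl hf, fun f hf hf0 =>
    hw.Γ h' hr rfl hF (hF.1 f hf) hf0, fun f hf hf0 => hw.div_mem h' hr rfl hf hf0⟩⟩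

/-- ROW UNIT. -/
theorem LF.mono_of_unX [IsAlgClosed k] [IsAlgClosed Ω] (h : Ctx0 k v n) (B : LF k v r D)
    {E : IntermediateField k Ω} (hE : FracIs B.R E) (htr : Algebra.trdeg k E = ((r + D : ℕ)))
    {f : Ω} (hf : B.UnX B.R f) : B.Mono f := by
  rcases Nat.eq_zero_or_pos r with rfl | hr
  · exact hf.mono_zero
  have _ : Infinite k := IsAlgClosed.instInfinite
  have hW : ∀ f ∈ B.R, f ∈ Wc E := fun f hf => le_Wc (hE.1 f hf)
  obtain ⟨w, hw⟩ := LF.exists_isCont h hr B hE htr hW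
  obtain ⟨h0, ⟨γ, hγ, h1⟩, ⟨δ, hδ, h2⟩⟩ := hf
  have hfW : f ∈ Wc E := by
    have h3 : f = (B.χ γ)⁻¹ * (B.χ γ * f) := by
      rw [← mul_assoc, inv_mul_cancel₀ (B.χ_ne γ hγ), one_mul]
    rw [h3]
    exact mul_mem (inv_mem (lf_χ_mem_field B hW hγ)) (hW _ h1)
  have hu : (lfDn B hW).UnX (lfDn B hW).R (⟨f, hfW⟩ : Wc E) := by
    refine ⟨fun h3 => h0 (congrArg Subtype.val h3), ⟨γ, hγ, ?_⟩, ⟨δ, hδ, ?_⟩⟩
    · change ((χW (Wc E) B γ : Wc E) : Ω) * f ∈ B.R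
      rw [χW_coe B hW hγ]
      exact h1
    · change ((χW (Wc E) B δ : Wc E) : Ω) * f⁻¹ ∈ B.R
      rw [χW_coe B hW hδ]
      exact h2
  obtain ⟨-, h4, h5, h6, h7⟩ := hw.mono hu
  have h8 : v f ∈ B.Γ := h4
  have h9 : (((⟨f, hfW⟩ : Wc E) / χW (Wc E) B (v f) : Wc E) : Ω) = f / B.χ (v f) := by
    rw [← χW_coe B hW h8]
    rfl
  have h5' : f / B.χ (v f) ∈ B.R := by
    rw [← h9]
    exact h5
  refine ⟨h0, h8, h5', div_ne_zero h0 (B.χ_ne _ h8), ?_⟩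
  rw [v.map_div h0 (B.χ_ne _ h8), B.χ_val _ h8, sub_self]

end Pool.Agent.TGL
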