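import Pool.Agent.Lib.TGL.LastDef
import Pool.Agent.Lib.TGL.Near
import Pool.Agent.Lib.TGL.Levels
import Pool.Agent.Lib.TGL.UnitB_h5
import Pool.Agent.Lib.TGL.DescDec
import Pool.Agent.Lib.TGL.TameQ
import Pool.Agent.Lib.TGL.LastStep
import Pool.Agent.Lib.TGL_h59.Low

/-!
# TANK G, track L: the local theorem (assembly)

`SD.frame_F59`: the limit frame of `F = L₀(z)` with ring `R₁`; `local_theorem'`: the limit frame of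
`E`.
-/

set_option autoImplicit false

namespace Pool.Agent.TGL

open Pool.Agent.TAO (OVal VPos Ctx0)
open Pool.Agent.LU1 (FracIs fixO mem_fixO)
open Pool.Agent.ALLO (locv icl ICl decP)
open Pool.Agent.ALLZO (GoodBasis NRing)
open Pool.Agent.TGBh66 (PR DER invS)

universe u w

variable {k Ω : Type u} [Field k] [Field Ω] [Algebra k Ω]
  {𝕂 : Type w} [Field 𝕂] [LinearOrder 𝕂] [IsStrictOrderedRing 𝕂] {v : OVal 𝕂 Ω} {r D n : ℕ}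

theorem div_aux1 {a b c : Ω} (hb : b ≠ 0) (hc : c ≠ 0) : a / b = (a / c) * (b / c)⁻¹ := by
  field_simp

theorem div_aux2 {a b c : Ω} (hb : b ≠ 0) (hc : c ≠ 0) : a / c = (a / b) * (b / c) := by
  field_simp

/-- The frame of `F` with ring `R` obtained from the frame `C` of `N` (rows 3.4a, 3.4b). -/
theorem exists_down {p : ℕ} [Fact p.Prime] [CharP Ω p] [IsAlgClosed k] [IsAlgClosed Ω]
    (h : Ctx0 k v n) {F : IntermediateField k Ω} {N : IntermediateField F Ω}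
    [FiniteDimensional F N] [IsGalois F N] {R : Subalgebra k Ω} (hR : NRing v F R)
    (htr : Algebra.trdeg k F = ((r + D : ℕ))) (C : LF k v r D)
    (hB : C.R = ICl v R (N.restrictScalars k))
    (hcard : ¬ p ∣ Nat.card (decP v R F N)) {S : Set Ω} (hS : ∀ s ∈ S, s ∈ F) (hT : C.Tors S)
    (hact : ∀ σ ∈ decP v R F N, ∀ a : N, (a : Ω) ∈ C.R → C.Hi (((σ a : N) : Ω) - a)) :
    ∃ C₂ : LF k v r D, C₂.R = R ∧ (∀ γ ∈ C₂.Γ, γ ∈ C.Γ ∧ C.Un (C₂.χ γ / C.χ γ)) ∧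
      ∀ γ ∈ C.Γ, ∃ e : ℕ, 0 < e ∧ (e : 𝕂) * γ ∈ C₂.Γ := by
  obtain ⟨e, he, hTe⟩ := hT
  have hM : ∀ γ ∈ C.Γ, ∃ e : ℕ, 0 < e ∧ ∃ m ∈ F, C.Un (m / C.χ (e * γ)) := by
    intro γ hγ
    obtain ⟨m, hm, hm'⟩ := hTe γ hγ
    exact ⟨e, he, m, Mo_mem59 hS hm, hm'⟩
  obtain ⟨C₁, h1, h2, h3, h4⟩ := tame_quotient h hR htr C hB hcard hM hact
  have hle : C₁.R ≤ C.R := fun f hf => ((h1 f).1 hf).1
  have hun : ∀ f, C.Un f → f ∈ fixO F N (decP v R F N) → C₁.Un f := fun f hf hfF =>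
    ⟨(h1 f).2 ⟨hf.1, hfF⟩, hf.2⟩
  have hM₁ : ∀ γ ∈ C₁.Γ, ∃ e : ℕ, 0 < e ∧ ∃ m ∈ F, C₁.Un (m / C₁.χ (e * γ)) := by
    intro γ hγ
    obtain ⟨e, he, m, hm, hm'⟩ := hM γ (h3 γ hγ).1
    refine ⟨e, he, m, hm, hun _ ?_ ?_⟩
    · have hγe : (e : 𝕂) * γ ∈ C₁.Γ := by
        rw [← nsmul_eq_mul]; exact C₁.Γ.nsmul_mem hγ e
      obtain ⟨h5, h6⟩ := h3 _ hγe
      have h7 : m / C₁.χ (e * γ) = (m / C.χ (e * γ)) * (C₁.χ (e * γ) / C.χ (e * γ))⁻¹ := by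
        have := C₁.χ_ne _ hγe
        have := C.χ_ne _ h5
        field_simp
      rw [h7]
      exact LF.Un.mul59 C hm' (LF.Un.inv59 C h6)
    · have hγe : (e : 𝕂) * γ ∈ C₁.Γ := by
        rw [← nsmul_eq_mul]; exact C₁.Γ.nsmul_mem hγ e
      exact div_mem (le_fixO59 _ hm) (C₁.χ_mem_frac59 h2.1 hγe)
  obtain ⟨C₂, h5, h6, h7⟩ := descend_dec h hR htr C₁ (fun f => by rw [h1, hB]) hM₁
  refine ⟨C₂, h5, fun γ hγ => ?_, fun γ hγ => ?_⟩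
  · rw [h6] at hγ
    obtain ⟨h8, h9⟩ := h3 γ hγ
    refine ⟨h8, ?_⟩
    have h10 := h7 γ hγ
    have h11 : C₂.χ γ / C.χ γ = (C₂.χ γ / C₁.χ γ) * (C₁.χ γ / C.χ γ) := by
      have := C₁.χ_ne _ hγ
      have := C.χ_ne _ h8
      field_simp
    rw [h11]
    exact LF.Un.mul59 C ⟨hle h10.1, h10.2⟩ h9
  · rw [h6]
    exact h4 γ hγ

/-- Monomials of `C` in `F` are units of `C₂.R[1 / χ]`. -/
theorem unX_of_mono {F : IntermediateField k Ω} {C C₂ : LF k v r D}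
    (hint : ∀ f, f ∈ C.R → f ∈ F → f ∈ C₂.R) (hC₂ : ∀ f ∈ C₂.R, f ∈ F)
    (hΓ : ∀ γ ∈ C₂.Γ, γ ∈ C.Γ ∧ C.Un (C₂.χ γ / C.χ γ))
    (htor : ∀ γ ∈ C.Γ, ∃ e : ℕ, 0 < e ∧ (e : 𝕂) * γ ∈ C₂.Γ) {x : Ω} (hx : C.Mono x)
    (hxF : x ∈ F) : C₂.UnX C₂.R x := by
  have key : ∀ x : Ω, C.Mono x → x ∈ F → C₂.InX C₂.R x := by
    intro x hx hxF
    have h1 : ∃ γ ∈ C₂.Γ, 0 ≤ γ + v x := by
      rcases le_total 0 (v x) with h0 | h0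
      · exact ⟨0, C₂.Γ.zero_mem, by linarith⟩
      · obtain ⟨e, he, h2⟩ := htor _ hx.2.1
        refine ⟨-(e * v x), C₂.Γ.neg_mem h2, ?_⟩
        have h3 : (1 : 𝕂) ≤ e := by exact_mod_cast he
        nlinarith
    obtain ⟨γ, hγ, h2⟩ := h1
    refine ⟨γ, hγ, hint _ ?_ (F.mul_mem (C₂.χ_mem_frac59 hC₂ hγ) hxF)⟩
    obtain ⟨h3, h4⟩ := hΓ γ hγ
    have h5 : C.Mono (C₂.χ γ) := (LF.Mono.chi59 h3).of_unit59 h4
    refine (h5.mul59 hx).mem59 ?_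
    rw [v.map_mul (C₂.χ_ne γ hγ) hx.1, C₂.χ_val γ hγ]
    exact h2
  exact ⟨hx.1, key x hx hxF, key _ hx.inv59 (F.inv_mem hxF)⟩

/-- Torsion and labels pass from `C` down to `C₂`. -/
theorem tors_down {F : IntermediateField k Ω} {C C₂ : LF k v r D}
    (hint : ∀ f, f ∈ C.R → f ∈ F → f ∈ C₂.R) (hC₂ : ∀ f ∈ C₂.R, f ∈ F)
    (hΓ : ∀ γ ∈ C₂.Γ, γ ∈ C.Γ ∧ C.Un (C₂.χ γ / C.χ γ)) {S : Set Ω} (hS : ∀ s ∈ S, s ∈ F)
    (hT : C.Tors S) : C₂.Tors S := by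
  obtain ⟨e, he, hT⟩ := hT
  refine ⟨e, he, fun γ hγ => ?_⟩
  obtain ⟨m, hm, hm'⟩ := hT γ (hΓ γ hγ).1
  refine ⟨m, hm, ?_⟩
  have hδ₁ : (e : 𝕂) * γ ∈ C₂.Γ := by
    rw [← nsmul_eq_mul]; exact C₂.Γ.nsmul_mem hγ e
  obtain ⟨h6, h7⟩ := hΓ _ hδ₁
  have h9 : C.Un ((m : Ω) / C₂.χ (e * γ)) := by
    rw [div_aux1 (C₂.χ_ne _ hδ₁) (C.χ_ne _ h6)]
    exact LF.Un.mul59 C hm' (LF.Un.inv59 C h7)
  exact ⟨hint _ h9.1 (F.div_mem (Mo_mem59 hS hm) (C₂.χ_mem_frac59 hC₂ hδ₁)), h9.2⟩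

/-- Torsion passes to extensions. -/
theorem LF.Ext.tors59 {B C : LF k v r D} (h : B.Ext C) {S : Set Ω} (hT : B.Tors S) :
    C.Tors S := by
  obtain ⟨e₁, he₁, hT⟩ := hT
  obtain ⟨e₂, he₂, hT₂⟩ := exists_unif59 C.fg h.tors
  refine ⟨e₁ * e₂, Nat.mul_pos he₁ he₂, fun γ hγ => ?_⟩
  have hδ := hT₂ γ hγ
  obtain ⟨m, hm, hm'⟩ := hT _ hδ
  refine ⟨m, hm, ?_⟩
  have e3 : ((e₁ * e₂ : ℕ) : 𝕂) * γ = (e₁ : 𝕂) * ((e₂ : 𝕂) * γ) := by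
    rw [Nat.cast_mul, mul_assoc]
  rw [e3]
  have hδ₁ : (e₁ : 𝕂) * ((e₂ : 𝕂) * γ) ∈ B.Γ := by
    rw [← nsmul_eq_mul]; exact B.Γ.nsmul_mem hδ e₁
  rw [div_aux2 (B.χ_ne _ hδ₁) (C.χ_ne _ (h.Γ_le _ hδ₁))]
  exact LF.Un.mul59 C ⟨h.le hm'.1, hm'.2⟩ (h.χ_un _ hδ₁)

/-- **The limit frame of `F = L₀(z)`.** -/
theorem SD.frame_F59 {p : ℕ} [Fact p.Prime] [CharP Ω p] [IsAlgClosed k] [IsAlgClosed Ω]
    (h : Ctx0 k v n) {L₀ : IntermediateField k Ω} {L : IntermediateField L₀ Ω} {z : Ω}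
    {PB : Submodule k Ω} {SB : Set Ω} {S : AddSubgroup Ω} {B₀ B : LF k v r D}
    [FiniteDimensional L₀ L] [IsGalois L₀ L] (sd : SD (v := v) p L₀ L z PB SB S B₀ B) :
    ∃ (r' D' : ℕ) (C : LF k v r' D'), r' + D' = r + D + 1 ∧ C.R = R1 v L₀ z PB SB S ∧
      FracIs C.R (FZ L₀ z) ∧ Algebra.trdeg k (FZ L₀ z) = ((r' + D' : ℕ)) ∧
      C.Tors (SB ∪ {Fz S z}) ∧ (∀ x ∈ SB ∪ {Fz S z}, C.UnX C.R x) ∧
      ∀ x ∈ Mo ({b | b ∈ L₀ ∧ B₀.Mono b} ∪ {x | ∃ s ∈ S, x = z - s}), (x : Ω) ∈ FZ L₀ z →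
        C.UnX C.R (x : Ω) := by
  -- field theory of `L(z) / L₀(z)`
  obtain ⟨hfd, hgal, hNZ, htrF⟩ := galois_NZ (L₀ := L₀) (L := L) sd.tr
  have hL₀F : L₀ ≤ FZ L₀ z := Gal.le_FZ L₀ z
  obtain ⟨hFzF, hFz0⟩ := sd.Fz_mem
  have hSF : ∀ s ∈ SB ∪ {Fz S z}, s ∈ FZ L₀ z := by
    rintro s (hs | rfl)
    · exact hL₀F (sd.SB_mem s hs).1
    · exact hFzF
  -- the frame `C` of `L(z)`
  obtain ⟨s₀, hs₀, hmax, hfix⟩ := sd.exists_near h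
  have hL : FracIs B.R (L.restrictScalars k) := by
    rw [sd.ring]
    refine fracIs_ICl59 sd.frac₀ (fun a ha => L.algebraMap_mem ⟨a, ha⟩) fun a ha => ?_
    exact alg_of_mem_N59 ha
  obtain ⟨r', D', C, hC⟩ := tstep h B hL sd.tr S sd.S_fin sd.S_mono hs₀ hmax
  have hlev := sd.levels h hs₀ hmax hC
  obtain ⟨htors, hlab⟩ := sd.tors h hs₀ hmax hC
  have hR1 := sd.nring_R1 h
  have htr : Algebra.trdeg k (FZ L₀ z) = ((r' + D' : ℕ)) := by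
    rw [htrF, sd.trd, hC.rank]
    push_cast
    rfl
  -- the frame `C₂` of `L₀(z)`
  obtain ⟨C₂, h1, h2, h3⟩ := exists_down h hR1 htr C hlev.symm (sd.card_decP h) hSF htors
    (sd.act h hs₀ hmax hfix hC)
  have hint : ∀ f, f ∈ C.R → f ∈ FZ L₀ z → f ∈ C₂.R := by
    intro f hf hfF
    rw [h1]
    rw [← hlev] at hf
    exact mem_of_ICl59 h hR1 hf hfF
  have hC₂F : FracIs C₂.R (FZ L₀ z) := by rw [h1]; exact hR1.frac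
  have hX : ∀ x, C.Mono x → x ∈ FZ L₀ z → C₂.UnX C₂.R x := fun x hx hxF =>
    unX_of_mono hint hC₂F.1 h2 h3 hx hxF
  -- base monomials
  have hBC : ∀ b, B₀.Mono b → C.Mono b := by
    intro b hb
    obtain ⟨hb0, hb1, hb2⟩ := sd.ext.mono59 hb
    refine (hC.χ_mono _ hb1).of_unit59 ⟨?_, hb2.2⟩
    rw [hC.ring]
    exact ALLO.le_locv _ (Algebra.subset_adjoin (Or.inl hb2.1))
  refine ⟨r', D', C₂, hC.rank, h1, hC₂F, htr, tors_down hint hC₂F.1 h2 hSF htors,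
    fun s hs => hX s (hlab s hs) (hSF s hs), fun x hx hxF => hX _ ?_ hxF⟩
  refine LF.Mono.of_Mo59 ?_ hx
  rintro s (⟨-, hs⟩ | ⟨s, hs, rfl⟩)
  · exact hBC _ hs
  · exact hC.mono s hs

/-- Elements of `E` integral over `k[tt][1 / w]` are in the localised integral closure, up to
monomials. -/
theorem inX_of_invS59 {C : LF k v r D}
    {E : IntermediateField k Ω} (hCE : C.R = ICl v C.R E)
    {P : Subalgebra k Ω} {w a : Ω} (hP : ∀ f ∈ P, C.InX C.R f)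
    (hw : C.InX C.R w⁻¹) (hw0 : w ≠ 0) (haE : a ∈ E)
    (ha : IsIntegral (invS P (Submonoid.powers w)) a) : C.InX C.R a := by
  have hCE' : ∀ f ∈ C.R, f ∈ E := fun f hf => by
    rw [hCE] at hf
    exact ICl_le59 hf
  have h1 : invS P (Submonoid.powers w) ≤ C.XR C.R le_rfl := by
    rintro f ⟨x, ⟨M, rfl⟩, -, hf⟩
    have h2 := LF.InX.mul59 C (LF.InX.pow59 C hw M) (hP _ hf)
    have h3 : w⁻¹ ^ M * (w ^ M * f) = f := by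
      rw [← mul_assoc, ← mul_pow, inv_mul_cancel₀ hw0, one_pow, one_mul]
    rw [h3] at h2
    exact h2
  have h4 : IsIntegral (C.XR C.R le_rfl) a := TGBh66.isIntegral_mono h1 ha
  obtain ⟨γ, hγ, h5⟩ := LF.inX_icl (le_refl C.R) hCE' haE h4
  refine ⟨γ, hγ, ?_⟩
  rw [hCE]
  exact icl_le_ICl v _ _ h5

/-- **ASSEMBLY**: from `SD` and the last data to the limit frame of `E`. -/
theorem local_theorem' {p : ℕ} [Fact p.Prime] [CharP Ω p] [IsAlgClosed k] [IsAlgClosed Ω]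
    (h : Ctx0 k v n) {L₀ : IntermediateField k Ω} {L : IntermediateField L₀ Ω} {z : Ω}
    {PB : Submodule k Ω} {SB : Set Ω} {S : AddSubgroup Ω} {B₀ B : LF k v r D}
    [FiniteDimensional L₀ L] [IsGalois L₀ L] (sd : SD (v := v) p L₀ L z PB SB S B₀ B)
    (N : IntermediateField (FZ L₀ z) Ω) [FiniteDimensional (FZ L₀ z) N] [IsGalois (FZ L₀ z) N]
    (H : Subgroup (N ≃ₐ[FZ L₀ z] N)) {m : ℕ} {tt : Fin m → Ω} {w : Ω} {Z : Set Ω}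
    (ld : LastData' v p m (FZ L₀ z) N H (R1 v L₀ z PB SB S) tt w Z)
    (htt : ∀ j, ∃ x ∈ Mo ({b | b ∈ L₀ ∧ B₀.Mono b} ∪ {x | ∃ s ∈ S, x = z - s}), (x : Ω) = tt j)
    (hw : ∃ x ∈ Mo ({b | b ∈ L₀ ∧ B₀.Mono b} ∪ {x | ∃ s ∈ S, x = z - s}), (x : Ω) = w) :
    ∃ (r' D' : ℕ) (C : LF k v r' D'), r' + D' = r + D + 1 ∧
      C.R = ICl v (Lim v (PB * Submodule.span k {1, z}) (SB ∪ {Fz S z})) (fixO (FZ L₀ z) N H) ∧
      FracIs C.R (fixO (FZ L₀ z) N H) ∧ C.Tors (SB ∪ {Fz S z}) ∧ C.Lab (SB ∪ {Fz S z}) ∧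
      ∀ a ∈ Z, C.Mono a := by
  obtain ⟨r', D', C₂, hrk, h1, hC₂F, htr, hT, hlab, hmo⟩ := sd.frame_F59 h
  have hL₀F : L₀ ≤ FZ L₀ z := Gal.le_FZ L₀ z
  have hzF : z ∈ FZ L₀ z := Gal.z_mem_FZ L₀ z
  obtain ⟨hFzF, hFz0⟩ := sd.Fz_mem
  have hSF : ∀ s ∈ SB ∪ {Fz S z}, s ∈ FZ L₀ z := by
    rintro s (hs | rfl)
    · exact hL₀F (sd.SB_mem s hs).1
    · exact hFzF
  have httX : ∀ j, C₂.UnX C₂.R (tt j) := by
    intro j
    obtain ⟨x, hx, hxj⟩ := htt j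
    rw [← hxj]
    refine hmo x hx ?_
    rw [hxj]
    exact ld.frac.1 _ (Algebra.subset_adjoin ⟨j, rfl⟩)
  have hwX : C₂.UnX C₂.R w := by
    obtain ⟨x, hx, hxw⟩ := hw
    rw [← hxw]
    refine hmo x hx ?_
    rw [hxw]
    exact ld.w_mem
  obtain ⟨C₃, h4, h5⟩ := last_step' (p := p) h C₂ hC₂F htr H (by rw [h1]; exact ld.idx) tt ld.ind
    ld.frac ld.w_ne ld.der (fun j => (httX j).2.1) hwX.2.2
  have hEalg : ∀ a ∈ fixO (FZ L₀ z) N H, IsAlgebraic (FZ L₀ z) a := fun a ha =>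
    alg_of_mem_fixO59 ha
  have hfrac : FracIs C₃.R (fixO (FZ L₀ z) N H) := by
    rw [h4]
    exact fracIs_ICl59 hC₂F (le_fixO59 H) hEalg
  have htrE : Algebra.trdeg k (fixO (FZ L₀ z) N H) = ((r' + D' : ℕ)) := by
    rw [trdeg_of_alg59 (le_fixO59 H) hEalg, htr]
  refine ⟨r', D', C₃, hrk, ?_, hfrac, h5.tors59 hT, fun s hs => ?_, fun a ha => ?_⟩
  · rw [h4, h1]
    refine icl_trans (Lim_le59 ?_ hSF) (le_fixO59 H) (Lim_nonneg59 h)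
    intro f hf
    refine Submodule.mul_induction_on hf (fun a ha b hb => ?_) fun a b ha hb => ?_
    · refine (FZ L₀ z).mul_mem (hL₀F (sd.PB_mem a ha)) ?_
      obtain ⟨c, c', rfl⟩ := Submodule.mem_span_pair.1 hb
      refine (FZ L₀ z).add_mem ?_ ?_
      · exact (FZ L₀ z).smul_mem (FZ L₀ z).one_mem
      · exact (FZ L₀ z).smul_mem hzF
    · exact (FZ L₀ z).add_mem ha hb
  · exact LF.mono_of_unX h C₃ hfrac htrE (h5.unX59 (hlab s hs))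
  · obtain ⟨haE, ha0, hi, hi'⟩ := ld.Z_unit a ha
    have hCE : C₃.R = ICl v C₃.R (fixO (FZ L₀ z) N H) := by
      rw [h4]
      refine (icl_trans (fun f hf => ?_) le_rfl fun f hf => ?_).symm
      · exact le_fixO59 H (hC₂F.1 f hf)
      · exact C₂.nonneg f hf
    have hP : ∀ f ∈ PR k tt, C₃.InX C₃.R f := by
      have h6 : PR k tt ≤ C₃.XR C₃.R le_rfl := by
        refine Algebra.adjoin_le ?_
        rintro _ ⟨j, rfl⟩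
        exact (h5.unX59 (httX j)).2.1
      exact fun f hf => h6 hf
    exact LF.mono_of_unX h C₃ hfrac htrE ⟨ha0,
      inX_of_invS59 hCE hP (h5.unX59 hwX).2.2 ld.w_ne haE hi,
      inX_of_invS59 hCE hP (h5.unX59 hwX).2.2 ld.w_ne
        ((fixO (FZ L₀ z) N H).inv_mem haE) hi'⟩

end Pool.Agent.TGL
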