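import Pool.Agent.Lib.TGL.Defs
import Pool.Agent.Lib.TGL_h17.Nfd
import Pool.Agent.Lib.ALLZO.Z1a

/-!
# TANK G, TRACK L, ROW NR: the ring of a limit frame is normal
-/

set_option autoImplicit false

namespace Pool.Agent.TGL

open Pool.Agent.TAO (OVal VPos Ctx0)
open Pool.Agent.LU1 (FracIs)
open Pool.Agent.ALLZO (NRing)
open Pool.Agent.TGBh34 (IsFr)

universe u w

variable {k Ω : Type u} [Field k] [Field Ω] [Algebra k Ω]
  {𝕂 : Type w} [Field 𝕂] [LinearOrder 𝕂] [IsStrictOrderedRing 𝕂] {v : OVal 𝕂 Ω} {r D n : ℕ}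

/-- A limit frame is a plain frame. -/
theorem LF.isFr (B : LF k v r D) : IsFr v B.Γ B.χ B.y B.R where
  mon := ⟨B.χ_ne, B.χ_add, B.χ_val⟩
  y_ne := B.y_ne
  y_pos := B.y_pos
  nonneg := B.nonneg
  loc := B.loc
  χ_mem := B.χ_mem
  y_mem := B.y_mem
  fg := B.fg
  fgen := B.fgen
  gen := B.gen

/-- **ROW NR.** The ring of a limit frame is normal. -/
theorem LF.nring [IsAlgClosed k] [IsAlgClosed Ω] (h : Ctx0 k v n) (B : LF k v r D)
    {E : IntermediateField k Ω} (hE : FracIs B.R E) (htr : Algebra.trdeg k E = ((r + D : ℕ))) :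
    NRing v E B.R :=
  ⟨hE, B.nonneg, B.loc, fun _ hf hint => TGL17.normal h B.isFr B.rk hE htr rfl hf hint⟩

end Pool.Agent.TGL
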