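import Pool.Agent.Lib.TGL.ZL
import Pool.Agent.Lib.TGL.NR
import Pool.Agent.Lib.TGL_h66.LFC
import Pool.Agent.Lib.TGL_h85.TowerRow

/-!
# TANK G, TRACK L, row 3.1: the tower `L₀ ≤ L` of the roots
-/

set_option autoImplicit false

namespace Pool.Agent.TGL

open Pool.Agent.TAO (OVal VPos Ctx0)
open Pool.Agent.LU1 (FracIs fixO)
open Pool.Agent.ALLO (locv icl ICl decP)
open Pool.Agent.ALLZO (GoodBasis NRing)

universe u w

variable {k Ω : Type u} [Field k] [Field Ω] [Algebra k Ω]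
  {𝕂 : Type w} [Field 𝕂] [LinearOrder 𝕂] [IsStrictOrderedRing 𝕂] {v : OVal 𝕂 Ω} {r D n : ℕ}

theorem core {p : ℕ} [hp : Fact p.Prime] [CharP Ω p] [IsAlgClosed k] [IsAlgClosed Ω]
    (h : Ctx0 k v n) : TGL85.Core k v p r D where
  nrm := fun B _ hB htr => (B.nring h hB htr).normal
  coord := fun B _ hB _ => (TGL66.coord_iff B le_rfl).2 fun u hu =>
    TGL66.coordB (fun c => IsAlgClosed.exists_pow_nat_eq c hp.out.pos) h B hB u hu
  z := fun B _ _ _ _ H hB htr hidx hco => zl h B hB htr H hidx hco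

/-- ROW 3.1: the tower `L₀ ≤ L`. `Rt` = the roots, `L` = their splitting field. -/
theorem tower {p : ℕ} [Fact p.Prime] [CharP Ω p] [IsAlgClosed k] [IsAlgClosed Ω] (h : Ctx0 k v n)
    (B : LF k v r D) {L₀ : IntermediateField k Ω} (hL₀ : FracIs B.R L₀)
    (htr : Algebra.trdeg k L₀ = ((r + D : ℕ)))
    {L : IntermediateField L₀ Ω} [FiniteDimensional L₀ L] [IsGalois L₀ L] (Rt : Finset Ω)
    (hRt : IntermediateField.adjoin L₀ (Rt : Set Ω) = L)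
    (hstab : ∀ σ : L ≃ₐ[L₀] L, ∀ a : L, (a : Ω) ∈ Rt → ((σ a : L) : Ω) ∈ Rt)
    (hint : ∀ a ∈ Rt, ∃ γ ∈ B.Γ, IsIntegral B.R (B.χ γ * a))
    (hdiff : ∀ a ∈ Rt, ∀ b ∈ Rt, a ≠ b → B.UnI (a - b))
    (horb : ∀ a : L, (a : Ω) ∈ Rt → (MulAction.orbit (decP v B.R L₀ L) a).ncard < p) :
    ∃ C : LF k v r D, C.R = ICl v B.R (L.restrictScalars k) ∧ B.Ext C :=
  TGL85.tower_row (core h) B hL₀ htr Rt hRt hstab hint hdiff horb

end Pool.Agent.TGL
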