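import Pool.Agent.Lib.TGL.Z0
import Pool.Agent.Lib.TGL_h44.ZLb

/-!
# TANK G, TRACK L, row ZL: block Z for limit frames
-/

set_option autoImplicit false

namespace Pool.Agent.TGL

open Pool.Agent.TAO (OVal VPos Ctx0)
open Pool.Agent.LU1 (FracIs fixO)
open Pool.Agent.ALLO (locv icl ICl decP)
open Pool.Agent.ALLZO (GoodBasis NRing)

universe u w

variable {k Ω : Type u} [Field k] [Field Ω] [Algebra k Ω]
  {𝕂 : Type w} [Field 𝕂] [LinearOrder 𝕂] [IsStrictOrderedRing 𝕂] {v : OVal 𝕂 Ω} {r D n : ℕ}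

/-- ROW ZL: block Z for limit frames. -/
theorem zl {p : ℕ} [Fact p.Prime] [CharP Ω p] [IsAlgClosed k] [IsAlgClosed Ω] (h : Ctx0 k v n)
    (B : LF k v r D) {K : IntermediateField k Ω} (hK : FracIs B.R K)
    (htr : Algebra.trdeg k K = ((r + D : ℕ)))
    {N : IntermediateField K Ω} [FiniteDimensional K N] [IsGalois K N]
    (H : Subgroup (N ≃ₐ[K] N)) (hidx : H.relIndex (decP v B.R K N) < p)
    (hco : B.Coord p (ICl v B.R (fixO K N H))) :
    ∃ C : LF k v r D, C.R = ICl v B.R (fixO K N H) ∧ B.Ext C := by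
  rcases Nat.eq_zero_or_pos r with h0 | h0
  · subst h0
    exact z0 h B hK htr H hco
  · obtain ⟨C, h1, h2, -⟩ := TGL44.zl_pos h h0 B hK htr H hidx hco
    exact ⟨C, h1, h2⟩

end Pool.Agent.TGL
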